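import Pool.Agent.H98.Fib.Interface

/-!
# Checker of the coverage certificate (problem MP_9069b3_mp, part C): definitions

All arithmetic is done with natural numbers by functions which the kernel evaluates directly.

* ratios `A w / A u` are measured on the grid `γ^(k - 2048)`, `γ = 401/400`, `0 ≤ k < 4096`;
* positions inside a pair `(u, w)` are `c A(u) + c' A(w)`, `c, c'` in units `2^-12`, in images
  in units `2^-32`;
* quantities of a context are represented by their (lower or upper) values at the four vertices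
  `x, n = ±1` (`Q4`);
* a comparison of two positions is made at the 16 pairs of vertices and at both ends of the range
  of the ratio; the 32 inequalities are packed into one comparison of natural numbers
  (fields of 64 bits).
-/

namespace Pool.Agent.H68.FibC

/-- `if c then t else e`, evaluated quickly by the kernel. -/
def cd {α : Type} (c : Bool) (t e : α) : α := Bool.rec e t c

/-- conjunction -/
def an (x y : Bool) : Bool := Bool.rec false y x

/-! ### Trees -/

/-- A binary tree with a value at every leaf. -/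
inductive Tr (α : Type) : Type where
  | lf : α → Tr α
  | nd : Tr α → Tr α → Tr α

/-- The leaf with the address given by the bits of the number (lowest bit first). -/
noncomputable def Tr.get {α : Type} (t : Tr α) : ℕ → α :=
  Tr.rec (motive := fun _ => ℕ → α) (fun a _ => a)
    (fun _ _ l r n => cd (Nat.beq (Nat.land n (nat_lit 1)) (nat_lit 0))
      (l (Nat.shiftRight n (nat_lit 1))) (r (Nat.shiftRight n (nat_lit 1)))) t

/-! ### Packed vectors -/

/-- Four vertex values. -/
structure Q4 : Type where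
  v0 : ℕ
  v1 : ℕ
  v2 : ℕ
  v3 : ℕ

/-- The values as a vector for the first word: fields of 512 bits. -/
def Q4.u (q : Q4) : ℕ :=
  Nat.add (Nat.add q.v0 (Nat.shiftLeft q.v1 (nat_lit 512)))
    (Nat.shiftLeft (Nat.add q.v2 (Nat.shiftLeft q.v3 (nat_lit 512))) (nat_lit 1024))

/-- The values as a vector for the second word: fields of 128 bits. -/
def Q4.w (q : Q4) : ℕ :=
  Nat.add (Nat.add q.v0 (Nat.shiftLeft q.v1 (nat_lit 128)))
    (Nat.shiftLeft (Nat.add q.v2 (Nat.shiftLeft q.v3 (nat_lit 128))) (nat_lit 256))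

/-- `2^16 (1 + 2^64 + ... + 2^448)` -/
def onU : ℕ := nat_lit 0x100000000000000010000000000000001000000000000000100000000000000010000000000000001000000000000000100000000000000010000

/-- `1 + 2^512 + 2^1024 + 2^1536` -/
def onW : ℕ := Nat.add (Nat.add (nat_lit 1) (Nat.shiftLeft (nat_lit 1) (nat_lit 512)))
  (Nat.add (Nat.shiftLeft (nat_lit 1) (nat_lit 1024)) (Nat.shiftLeft (nat_lit 1) (nat_lit 1536)))

/-- `1 + 2^128 + 2^256 + 2^384` -/
def on4 : ℕ := Nat.add (Nat.add (nat_lit 1) (Nat.shiftLeft (nat_lit 1) (nat_lit 128)))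
  (Nat.add (Nat.shiftLeft (nat_lit 1) (nat_lit 256)) (Nat.shiftLeft (nat_lit 1) (nat_lit 384)))

/-- The guard bits: `2^63 (1 + 2^64 + ... + 2^1984)`. -/
def GD : ℕ := Nat.shiftLeft (Nat.div (Nat.sub (Nat.shiftLeft (nat_lit 1) (nat_lit 2048)) (nat_lit 1))
  (Nat.sub (Nat.shiftLeft (nat_lit 1) (nat_lit 64)) (nat_lit 1))) (nat_lit 63)

/-- All 32 fields of `S` are at most those of `E`. -/
def geV (E S : ℕ) : Bool := Nat.beq (Nat.land (Nat.sub (Nat.add E GD) S) GD) GD

/-- `geV e S` for all `e` in the list. -/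
noncomputable def allGe (S : ℕ) (l : List ℕ) : Bool :=
  List.rec (motive := fun _ => Bool) true (fun e _ ih => an (geV e S) ih) l

/-! ### Contexts -/

/-- The data of one side (context, child `i`, representation `rep`).

* `rep = 0` (left): a position `c` of the child is at most `s0 + c s1`, at least `e0 + c e1`;
  `ee` is a lower bound of the right end of the child.
* `rep = 1` (right): the position `c` of the mirror image of the child is at most `s0 - c s1`,
  at least `e0 - c e1`; `se` is an upper bound of the left end of the child.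

`ulo, uhi`: bounds of `A (i w) / A w` resp. `B (i w) / A w`, units `2^-20`. -/
structure Sd : Type where
  s0 : Q4
  s1 : Q4
  se : Q4
  e0 : Q4
  e1 : Q4
  ee : Q4
  ulo : ℕ
  uhi : ℕ

/-- The data of a context; `sd` is indexed by `i + 4 rep`, `nx` by `i` (`i = 3`: the word itself). -/
structure CtxD : Type where
  sd : Tr Sd
  nx : Tr ℕ
  mir : ℕ

/-- The data of a move `(i, j, rep)` from a pair of contexts. -/
structure Mv : Type where
  ok : Bool
  sw : Bool
  rep : Bool
  fin : Bool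
  cl : ℕ
  ks : ℕ
  ke : ℕ
  s0u : ℕ
  s1u : ℕ
  seu : ℕ
  e0u : ℕ
  e1u : ℕ
  eeu : ℕ
  s0w : ℕ
  s1w : ℕ
  sew : ℕ
  e0w : ℕ
  e1w : ℕ
  eew : ℕ

/-! ### The powers of `γ = 401/400` -/

/-- entry of a table: bounds of `2^30 γ^(k - 2048)`, 40 bits each, `0 ≤ k < 4096` -/
def pLo (pl : ℕ) (k : ℕ) : ℕ :=
  Nat.land (Nat.shiftRight pl (Nat.mul (nat_lit 40) k)) (nat_lit 0xFFFFFFFFFF)

/-! ### Moves -/

/-- The move with all its data. `pl`, `ph`: tables of powers, `xa`, `xb`: contexts of the
children, `a0`: the move is `(0, 0, 0)`. -/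
def mkMv' (D : ℕ → ℕ → ℕ) (pl ph : ℕ) (sa sb : Sd) (xa xb : ℕ) (rep a0 notSelf fin : Bool)
    (ks ke : ℕ) : Mv where
  ok := an notSelf (cd a0 (an (Nat.beq ks (nat_lit 2048)) (Nat.beq ke (nat_lit 2048)))
    (an (Nat.ble (Nat.mul (pLo ph ks) sa.uhi) (Nat.shiftLeft sb.ulo (nat_lit 30)))
      (Nat.ble (Nat.shiftLeft sb.uhi (nat_lit 30)) (Nat.mul (pLo pl ke) sa.ulo))))
  sw := Nat.blt xb xa
  rep := rep
  fin := fin
  cl := cd (Nat.blt xb xa) (D xb xa) (D xa xb)
  ks := ks
  ke := ke
  s0u := sa.s0.u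
  s1u := sa.s1.u
  seu := sa.se.u
  e0u := sa.e0.u
  e1u := sa.e1.u
  eeu := sa.ee.u
  s0w := sb.s0.w
  s1w := sb.s1.w
  sew := sb.se.w
  e0w := sb.e0.w
  e1w := sb.e1.w
  eew := sb.ee.w

/-- `K`: the packed ranges `ks, ke` (24 bits for each move). -/
noncomputable def mkMv (ct : ℕ → CtxD) (D : ℕ → ℕ → ℕ) (pl ph a b K i j : ℕ) (rep : Bool) : Mv :=
  mkMv' D pl ph ((ct a).sd.get (cd rep (Nat.add i (nat_lit 4)) i))
    ((ct b).sd.get (cd rep (Nat.add j (nat_lit 4)) j))
    (cd rep (ct ((ct a).nx.get i)).mir ((ct a).nx.get i))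
    (cd rep (ct ((ct b).nx.get j)).mir ((ct b).nx.get j))
    rep (cd rep false (Nat.beq (Nat.add i j) (nat_lit 0)))
    (Nat.blt (Nat.add i j) (nat_lit 6)) (an (Nat.ble (nat_lit 2) i) (Nat.ble (nat_lit 2) j))
    (Nat.land (Nat.shiftRight K (Nat.mul (nat_lit 24)
      (Nat.add (cd rep (nat_lit 1) (nat_lit 0)) (Nat.add (Nat.mul (nat_lit 2) j) (Nat.mul (nat_lit 8) i)))))
      (nat_lit 4095))
    (Nat.land (Nat.shiftRight K (Nat.add (nat_lit 12) (Nat.mul (nat_lit 24)
      (Nat.add (cd rep (nat_lit 1) (nat_lit 0)) (Nat.add (Nat.mul (nat_lit 2) j) (Nat.mul (nat_lit 8) i))))))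
      (nat_lit 4095))

/-- moves with fixed `j`, `rep` -/
def mtI (f : ℕ → ℕ → Bool → Mv) (j : ℕ) (rep : Bool) : Tr Mv :=
  .nd (.nd (.lf (f (nat_lit 0) j rep)) (.lf (f (nat_lit 2) j rep)))
    (.nd (.lf (f (nat_lit 1) j rep)) (.lf (f (nat_lit 3) j rep)))

/-- moves with fixed `rep` -/
def mtR (f : ℕ → ℕ → Bool → Mv) (rep : Bool) : Tr Mv :=
  .nd (.nd (mtI f (nat_lit 0) rep) (mtI f (nat_lit 2) rep))
    (.nd (mtI f (nat_lit 1) rep) (mtI f (nat_lit 3) rep))

/-- The tree of moves, index `rep + 2 j + 8 i`. -/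
def mt (f : ℕ → ℕ → Bool → Mv) : Tr Mv := .nd (mtR f false) (mtR f true)

/-! ### Records

A record (76 bits) contains the first grid point (12 bits), the number of grid cells (12 bits), the
start and the end of the interval (13 bits for each constant).  The header of a piece has the same
layout with the move (5 bits) and the number of child records (7 bits) in place of the grid points. -/

/-- The record with number `idx`. -/
def recOf (cl idx : ℕ) : ℕ :=
  Nat.land (Nat.shiftRight cl (Nat.mul (nat_lit 76) idx)) (nat_lit 0xFFFFFFFFFFFFFFFFFFF)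

def fk0 (r : ℕ) : ℕ := Nat.land r (nat_lit 4095)
def fkl (r : ℕ) : ℕ := Nat.land (Nat.shiftRight r (nat_lit 12)) (nat_lit 4095)
def fSu (r : ℕ) : ℕ := Nat.land (Nat.shiftRight r (nat_lit 24)) (nat_lit 8191)
def fSw (r : ℕ) : ℕ := Nat.land (Nat.shiftRight r (nat_lit 37)) (nat_lit 8191)
def fEu (r : ℕ) : ℕ := Nat.land (Nat.shiftRight r (nat_lit 50)) (nat_lit 8191)
def fEw (r : ℕ) : ℕ := Nat.land (Nat.shiftRight r (nat_lit 63)) (nat_lit 8191)
/-- the interval reaches the right end -/
def fEnd (r : ℕ) : Bool := Nat.beq (Nat.shiftRight r (nat_lit 50)) (nat_lit 0x3FFFFFF)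

/-- Fields of a record seen by a move. -/
def Mv.lo (mv : Mv) (r : ℕ) : ℕ :=
  cd mv.sw (Nat.sub (nat_lit 4096) (Nat.add (fk0 r) (fkl r))) (fk0 r)
def Mv.hi (mv : Mv) (r : ℕ) : ℕ :=
  cd mv.sw (Nat.sub (nat_lit 4096) (fk0 r)) (Nat.add (fk0 r) (fkl r))
def Mv.Su (mv : Mv) (r : ℕ) : ℕ := cd mv.sw (fSw r) (fSu r)
def Mv.Sw (mv : Mv) (r : ℕ) : ℕ := cd mv.sw (fSu r) (fSw r)
def Mv.Eu (mv : Mv) (r : ℕ) : ℕ := cd mv.sw (fEw r) (fEu r)
def Mv.Ew (mv : Mv) (r : ℕ) : ℕ := cd mv.sw (fEu r) (fEw r)

/-- vector of a position -/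
def comb (rr x y : ℕ) : ℕ := Nat.add (Nat.mul x onU) (Nat.mul y rr)

/-- Upper bound of the start of the interval of the record `r` of the child. -/
def Mv.startV (mv : Mv) (rr r : ℕ) : ℕ :=
  cd mv.rep
    (cd (fEnd r) (comb rr mv.seu mv.sew)
      (comb rr (Nat.sub mv.s0u (Nat.mul (mv.Eu r) mv.s1u)) (Nat.sub mv.s0w (Nat.mul (mv.Ew r) mv.s1w))))
    (comb rr (Nat.add mv.s0u (Nat.mul (mv.Su r) mv.s1u)) (Nat.add mv.s0w (Nat.mul (mv.Sw r) mv.s1w)))

/-- Lower bound of the end of the interval of the record `r` of the child. -/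
def Mv.endV (mv : Mv) (rr r : ℕ) : ℕ :=
  cd mv.rep
    (comb rr (Nat.sub mv.e0u (Nat.mul (mv.Su r) mv.e1u)) (Nat.sub mv.e0w (Nat.mul (mv.Sw r) mv.e1w)))
    (cd (fEnd r) (comb rr mv.eeu mv.eew)
      (comb rr (Nat.add mv.e0u (Nat.mul (mv.Eu r) mv.e1u)) (Nat.add mv.e0w (Nat.mul (mv.Ew r) mv.e1w))))

/-- The interval of the record reaches the right end of the pair. -/
def Mv.exact (mv : Mv) (r : ℕ) : Bool :=
  an mv.fin (cd mv.rep (Nat.beq (Nat.add (fSu r) (fSw r)) (nat_lit 0)) (fEnd r))

/-! ### The check of a claim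

A piece of a claim has a header `p` (constants `S', E'` in the coordinates of the children) and a
list of records of the pair of children, whose ranges cover the range of the ratio of the children
and whose intervals contain `[S', E']` on their parts of this range. -/

/-- `x + al y ≥ x' + al y'`, `al` in units `2^-30` -/
def lineGe (al x y x' y' : ℕ) : Bool :=
  Nat.ble (Nat.add (Nat.shiftLeft x' (nat_lit 30)) (Nat.mul al y'))
    (Nat.add (Nat.shiftLeft x (nat_lit 30)) (Nat.mul al y))

/-- The interval of the piece `p` is contained in the one of `r` at the ratio `al`. -/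
def Mv.lineOK (mv : Mv) (al p r : ℕ) : Bool :=
  an (lineGe al (mv.Su p) (mv.Sw p) (mv.Su r) (mv.Sw r))
    (cd (fEnd r) true (lineGe al (mv.Eu r) (mv.Ew r) (mv.Eu p) (mv.Ew p)))

/-- The interval of the piece `p` is contained in the one of `r` at the ratios `a0`, `a1`. -/
def Mv.refOK (mv : Mv) (a0 a1 p r : ℕ) : Bool :=
  cd (Nat.beq (Nat.shiftRight r (nat_lit 24)) (Nat.shiftRight p (nat_lit 24))) true
    (an (cd (fEnd p) (fEnd r) true) (an (mv.lineOK a0 p r) (mv.lineOK a1 p r)))

/-- The start of the piece `p` is at most every previous end. -/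
noncomputable def Mv.chain (mv : Mv) (rr p : ℕ) (prev : List ℕ) : Bool :=
  cd mv.rep
    (an (allGe (comb rr mv.seu mv.sew) prev) (cd (fEnd p) true (allGe (mv.startV rr p) prev)))
    (allGe (mv.startV rr p) prev)

/-- The ends of the piece `p`. -/
def Mv.ends (mv : Mv) (rr p : ℕ) : List ℕ :=
  cd mv.rep (List.cons (mv.endV rr p) List.nil)
    (cd (fEnd p) (List.cons (mv.endV rr p) List.nil)
      (List.cons (mv.endV rr p) (List.cons (comb rr mv.eeu mv.eew) List.nil)))

/-- One record of a piece; `kk`: the range covered so far, `c1`: the end of the range. -/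
def ref1 (mv : Mv) (pl ph c1 p r kk : ℕ) (k : ℕ → Bool) : Bool :=
  an (Nat.ble (mv.lo r) kk) (an (Nat.blt kk (mv.hi r))
    (an (mv.refOK (pLo pl kk) (pLo ph (cd (Nat.ble (mv.hi r) c1) (mv.hi r) c1)) p r) (k (mv.hi r))))

/-- The records of a piece: number of records, stream, range covered so far. -/
noncomputable def refs (mv : Mv) (pl ph c1 p : ℕ) (k : ℕ → Bool) (cnt : ℕ) : ℕ → ℕ → Bool :=
  Nat.rec (motive := fun _ => ℕ → ℕ → Bool) (fun strm kk => an (Nat.ble c1 kk) (k strm))
    (fun _ ih strm kk => ref1 mv pl ph c1 p (recOf mv.cl (Nat.land strm (nat_lit 4095))) kk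
      (fun hi => ih (Nat.shiftRight strm (nat_lit 12)) hi)) cnt

/-- A piece which is not the last one. -/
noncomputable def midPiece (mv : Mv) (pl ph rr k0 k1 : ℕ) (prev : List ℕ) (p cnt strm : ℕ)
    (k : ℕ → List ℕ → Bool) : Bool :=
  an mv.ok (an (an (Nat.ble (nat_lit 2048) (Nat.add k0 mv.ks))
      (Nat.blt (Nat.add k1 mv.ke) (nat_lit 6144)))
    (an (Nat.blt (Nat.add k0 mv.ks) (Nat.add k1 mv.ke)) (an (mv.chain rr p prev)
      (refs mv pl ph (Nat.sub (Nat.add k1 mv.ke) (nat_lit 2048)) p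
        (fun strm' => k strm' (mv.ends rr p)) cnt strm (Nat.sub (Nat.add k0 mv.ks) (nat_lit 2048))))))

/-- The last piece; `pe`: the vector of the end of the claim, `fin`: the claim reaches the right
end. -/
noncomputable def lastPiece (mv : Mv) (pl ph rr k0 k1 : ℕ) (prev : List ℕ) (fin : Bool)
    (pe p cnt strm : ℕ) (k : ℕ → Bool) : Bool :=
  an mv.ok (an (an (Nat.ble (nat_lit 2048) (Nat.add k0 mv.ks))
      (Nat.blt (Nat.add k1 mv.ke) (nat_lit 6144)))
    (an (Nat.blt (Nat.add k0 mv.ks) (Nat.add k1 mv.ke)) (an (mv.chain rr p prev)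
      (an (cd fin (mv.exact p) (allGe pe (mv.ends rr p)))
        (refs mv pl ph (Nat.sub (Nat.add k1 mv.ke) (nat_lit 2048)) p k cnt strm
          (Nat.sub (Nat.add k0 mv.ks) (nat_lit 2048)))))))

/-- The pieces of a claim. -/
noncomputable def pieces (M : Tr Mv) (pl ph rr k0 k1 : ℕ) (fin : Bool) (pe : ℕ) (k : ℕ → Bool)
    (np : ℕ) : ℕ → List ℕ → Bool :=
  Nat.rec (motive := fun _ => ℕ → List ℕ → Bool) (fun _ _ => false)
    (fun n ih strm prev =>
      Nat.rec (motive := fun _ => Bool)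
        (lastPiece (M.get (Nat.land strm (nat_lit 31))) pl ph rr k0 k1 prev fin pe
          (Nat.land strm (nat_lit 0xFFFFFFFFFFFFFFFFFFF))
          (Nat.land (Nat.shiftRight strm (nat_lit 5)) (nat_lit 127))
          (Nat.shiftRight strm (nat_lit 76)) k)
        (fun _ _ => midPiece (M.get (Nat.land strm (nat_lit 31))) pl ph rr k0 k1 prev
          (Nat.land strm (nat_lit 0xFFFFFFFFFFFFFFFFFFF))
          (Nat.land (Nat.shiftRight strm (nat_lit 5)) (nat_lit 127))
          (Nat.shiftRight strm (nat_lit 76)) (fun strm' cur => ih strm' cur)) n) np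

/-- packed ends of the range of the ratio of a claim, units `2^-16` -/
def rrOf (pl ph k0 k1 : ℕ) : ℕ :=
  Nat.mul (Nat.add (Nat.shiftRight (pLo pl k0) (nat_lit 14))
    (Nat.shiftLeft (Nat.add (Nat.shiftRight (pLo ph k1) (nat_lit 14)) (nat_lit 1)) (nat_lit 64))) onW

/-- vector of the position `(c, c')` of the pair itself; `137438953472 = 2^37` is the bias -/
def selfV (rr c c' : ℕ) : ℕ :=
  comb rr (Nat.mul onW (Nat.add (nat_lit 137438953472) (Nat.shiftLeft c (nat_lit 20))))
    (Nat.mul on4 (Nat.add (nat_lit 137438953472) (Nat.shiftLeft c' (nat_lit 20))))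

/-- Check of the claim with record `r`; `lu`, `lw`: vectors of the lengths of the words,
`strm`: the stream, `k`: what is done with the rest. -/
noncomputable def claim (M : Tr Mv) (pl ph lu lw r strm : ℕ) (k : ℕ → Bool) : Bool :=
  an (an (Nat.ble (Nat.add (fk0 r) (fkl r)) (nat_lit 3440))
      (cd (fEnd r) true (geV (comb (rrOf pl ph (fk0 r) (Nat.add (fk0 r) (fkl r))) lu lw)
        (selfV (rrOf pl ph (fk0 r) (Nat.add (fk0 r) (fkl r))) (fEu r) (fEw r)))))
    (pieces M pl ph (rrOf pl ph (fk0 r) (Nat.add (fk0 r) (fkl r))) (fk0 r)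
      (Nat.add (fk0 r) (fkl r)) (fEnd r)
      (selfV (rrOf pl ph (fk0 r) (Nat.add (fk0 r) (fkl r))) (fEu r) (fEw r)) k
      (Nat.land strm (nat_lit 63)) (Nat.shiftRight strm (nat_lit 6))
      (List.cons (selfV (rrOf pl ph (fk0 r) (Nat.add (fk0 r) (fkl r))) (fSu r) (fSw r)) []))

/-- The claims of a pair: number of claims, number of the first one, stream. -/
noncomputable def claims (M : Tr Mv) (pl ph lu lw cl n : ℕ) : ℕ → ℕ → Bool :=
  Nat.rec (motive := fun _ => ℕ → ℕ → Bool) (fun _ _ => true)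
    (fun _ ih idx strm => claim M pl ph lu lw (recOf cl idx) strm
      (fun strm' => ih (Nat.succ idx) strm')) n

/-- All claims of the pair `(a, b)` of contexts are correct if those of the children are.
`K`: ranges of the moves, `strm`: number of claims and the pieces. -/
noncomputable def chkPair (ct : ℕ → CtxD) (D : ℕ → ℕ → ℕ) (pl ph a b K strm : ℕ) : Bool :=
  an (Nat.beq (Nat.shiftRight (D a b) (Nat.mul (nat_lit 76) (Nat.land strm (nat_lit 4095)))) (nat_lit 0))
    (claims (mt (mkMv ct D pl ph a b K)) pl ph ((ct a).sd.get (nat_lit 3)).ee.u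
      ((ct b).sd.get (nat_lit 3)).ee.w (D a b) (Nat.land strm (nat_lit 4095)) (nat_lit 0)
      (Nat.shiftRight strm (nat_lit 12)))

/-- All claims of the pairs `(a, b0), (a, b0 + 1), ...`; the list contains `K` and the stream of
each pair. -/
noncomputable def chkRow (ct : ℕ → CtxD) (D : ℕ → ℕ → ℕ) (pl ph a : ℕ) (l : List (ℕ × ℕ)) :
    ℕ → Bool :=
  List.rec (motive := fun _ => ℕ → Bool) (fun _ => true)
    (fun p _ ih b => an (chkPair ct D pl ph a b p.1 p.2) (ih (Nat.succ b))) l

/-- The records of the list cover the range from `kk` to `ke`, and their intervals are the whole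
pairs. -/
noncomputable def chkFull (mv : Mv) (l : List ℕ) : ℕ → Bool :=
  List.rec (motive := fun _ => ℕ → Bool) (fun kk => Nat.ble mv.ke kk)
    (fun idx _ ih kk => an (Nat.ble (mv.lo (recOf mv.cl idx)) kk)
      (an (Nat.blt kk (mv.hi (recOf mv.cl idx)))
        (an (Nat.beq (Nat.add (fSu (recOf mv.cl idx)) (fSw (recOf mv.cl idx))) (nat_lit 0))
          (an (fEnd (recOf mv.cl idx)) (ih (mv.hi (recOf mv.cl idx))))))) l

/-- The pairs of children `(i w, j w)` of the words `w` of the context `a` are full. -/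
noncomputable def chkStart (ct : ℕ → CtxD) (D : ℕ → ℕ → ℕ) (pl ph a K i j : ℕ) (l : List ℕ) : Bool :=
  an (mkMv ct D pl ph a a K i j false).ok
    (chkFull (mkMv ct D pl ph a a K i j false) l (mkMv ct D pl ph a a K i j false).ks)

end Pool.Agent.H68.FibC
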