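import Pool.Agent.H68.FibC.Pack

/-!
# FC-2: a successful packed comparison gives an inequality of real positions
-/

namespace Pool.Agent.H68.FibC

open Pool.Agent.H98.Fib Pool.Agent.H98.Fib.HTree

theorem rr_aux (x y W : ℕ) :
    Nat.mul (Nat.add x (Nat.shiftLeft (Nat.add y (nat_lit 1)) (nat_lit 64))) W =
      (x + (y + 1) * 2 ^ 64) * W := by
  have h : Nat.shiftLeft (Nat.add y (nat_lit 1)) (nat_lit 64) = (y + 1) * 2 ^ 64 :=
    Nat.shiftLeft_eq (y + 1) 64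
  rw [h]
  rfl

theorem rrOf_eqq (pl ph k0 k1 : ℕ) :
    rrOf pl ph k0 k1 = rrP (pLo pl k0 >>> 14) (pLo ph k1 >>> 14 + 1) := by
  unfold rrOf rrP
  exact rr_aux (pLo pl k0 >>> 14) (pLo ph k1 >>> 14) onW

theorem sh_aux (x : ℕ) : x >>> 14 * 16384 ≤ x ∧ x ≤ (x >>> 14 + 1) * 16384 ∧
    (x < 68000000000 → x >>> 14 + 1 < 4194304) := by
  rw [Nat.shiftRight_eq_div_pow]
  omega

/-- FC-2a. `rrOf` is of the form `rrP`, with `R0 / 2^16 ≤ γ^(k0 - 1024)`,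
`γ^(k1 - 1024) ≤ R1 / 2^16`, `R0, R1 < 2^22`. -/
theorem rrOf_eq {pl ph : ℕ} (hP : PowOK pl ph) {k0 k1 : ℕ} (h01 : k0 ≤ k1) (hk : k1 ≤ 3440) :
    ∃ R0 R1 : ℕ, rrOf pl ph k0 k1 = rrP R0 R1 ∧ R0 < 4194304 ∧ R1 < 4194304 ∧
      (R0 : ℝ) ≤ 65536 * gk k0 ∧ 65536 * gk k1 ≤ (R1 : ℝ) := by
  have a1 := hP.lo k0 (by omega)
  have a2 := hP.hi k0 (by omega)
  have a3 := hP.bd k0 (by omega)
  have b2 := hP.hi k1 (by omega)
  have b3 := hP.bd k1 hk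
  have a4 : pLo pl k0 ≤ pLo ph k0 := by exact_mod_cast a1.trans a2
  obtain ⟨c0, -, c3⟩ := sh_aux (pLo pl k0)
  obtain ⟨-, c1, c2⟩ := sh_aux (pLo ph k1)
  refine ⟨pLo pl k0 >>> 14, pLo ph k1 >>> 14 + 1, ?_, ?_, ?_, ?_, ?_⟩
  · exact rrOf_eqq pl ph k0 k1
  · exact (Nat.lt_succ_self _).trans (c3 (a4.trans_lt a3))
  · exact c2 b3
  · have c0' : ((pLo pl k0 >>> 14 : ℕ) : ℝ) * 16384 ≤ (pLo pl k0 : ℝ) := by exact_mod_cast c0
    linarith
  · have c1' : (pLo ph k1 : ℝ) ≤ ((pLo ph k1 >>> 14 + 1 : ℕ) : ℝ) * 16384 := by exact_mod_cast c1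
    linarith

theorem lin_aux {a b a' b' R0 R1 : ℕ} {al : ℝ}
    (h : 65536 * a + R0 * a' ≤ 65536 * b + R0 * b' ∧ 65536 * a + R1 * a' ≤ 65536 * b + R1 * b')
    (h0 : (R0 : ℝ) ≤ 65536 * al) (h1 : 65536 * al ≤ (R1 : ℝ)) :
    0 ≤ (b : ℝ) + al * b' - a - al * a' := by
  have e0 : (65536 : ℝ) * a + R0 * a' ≤ 65536 * b + R0 * b' := by exact_mod_cast h.1
  have e1 : (65536 : ℝ) * a + R1 * a' ≤ 65536 * b + R1 * b' := by exact_mod_cast h.2
  rcases le_total (a' : ℝ) b' with hab | hab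
  · have := mul_nonneg (sub_nonneg.2 h0) (sub_nonneg.2 hab)
    nlinarith
  · have := mul_nonneg (sub_nonneg.2 h1) (sub_nonneg.2 hab)
    nlinarith

theorem interp_le {x n : ℝ} (hx : |x| ≤ 1) (hn : |n| ≤ 1) {a0 a1 a2 a3 k : ℝ} (h0 : a0 ≤ k)
    (h1 : a1 ≤ k) (h2 : a2 ≤ k) (h3 : a3 ≤ k) :
    (1 + x) * (1 + n) / 4 * a0 + (1 + x) * (1 - n) / 4 * a1 + (1 - x) * (1 + n) / 4 * a2 +
      (1 - x) * (1 - n) / 4 * a3 ≤ k := by
  obtain ⟨x1, x2⟩ := abs_le.1 hx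
  obtain ⟨n1, n2⟩ := abs_le.1 hn
  have xp : 0 ≤ 1 + x := by linarith
  have xm : 0 ≤ 1 - x := by linarith
  have np : 0 ≤ 1 + n := by linarith
  have nm : 0 ≤ 1 - n := by linarith
  have t0 := mul_nonneg (mul_nonneg xp np) (sub_nonneg.2 h0)
  have t1 := mul_nonneg (mul_nonneg xp nm) (sub_nonneg.2 h1)
  have t2 := mul_nonneg (mul_nonneg xm np) (sub_nonneg.2 h2)
  have t3 := mul_nonneg (mul_nonneg xm nm) (sub_nonneg.2 h3)
  have hid : 4 * (k - ((1 + x) * (1 + n) / 4 * a0 + (1 + x) * (1 - n) / 4 * a1 +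
      (1 - x) * (1 + n) / 4 * a2 + (1 - x) * (1 - n) / 4 * a3)) =
      (1 + x) * (1 + n) * (k - a0) + (1 + x) * (1 - n) * (k - a1) +
      (1 - x) * (1 + n) * (k - a2) + (1 - x) * (1 - n) * (k - a3) := by ring
  linarith

/-- FC-2b. The 32 inequalities give the inequality of the interpolated values: bilinear
interpolation in `(x, n)` and in `(x', n')` and linear interpolation in the ratio. -/
theorem ev_le {q q' p p' : Q4} {R0 R1 : ℕ}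
    (h : ∀ a b : Fin 4, 65536 * p.at a + R0 * p'.at b ≤ 65536 * q.at a + R0 * q'.at b ∧
      65536 * p.at a + R1 * p'.at b ≤ 65536 * q.at a + R1 * q'.at b)
    {x n x' n' : ℝ} (hx : |x| ≤ 1) (hn : |n| ≤ 1) (hx' : |x'| ≤ 1) (hn' : |n'| ≤ 1)
    {al : ℝ} (h0 : (R0 : ℝ) ≤ 65536 * al) (h1 : 65536 * al ≤ (R1 : ℝ)) :
    p.ev x n + al * p'.ev x' n' ≤ q.ev x n + al * q'.ev x' n' := by
  have e := fun a b => lin_aux (h a b) h0 h1
  have s1 : ∀ b : Fin 4, p.ev x n - q.ev x n ≤ al * q'.at b - al * p'.at b := by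
    intro b
    have h2 := interp_le hx hn (a0 := (p.at 0 : ℝ) - q.at 0) (a1 := (p.at 1 : ℝ) - q.at 1)
      (a2 := (p.at 2 : ℝ) - q.at 2) (a3 := (p.at 3 : ℝ) - q.at 3)
      (k := al * q'.at b - al * p'.at b) (by linarith [e 0 b]) (by linarith [e 1 b])
      (by linarith [e 2 b]) (by linarith [e 3 b])
    have h3 : p.ev x n - q.ev x n = (1 + x) * (1 + n) / 4 * ((p.at 0 : ℝ) - q.at 0) +
        (1 + x) * (1 - n) / 4 * ((p.at 1 : ℝ) - q.at 1) +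
        (1 - x) * (1 + n) / 4 * ((p.at 2 : ℝ) - q.at 2) +
        (1 - x) * (1 - n) / 4 * ((p.at 3 : ℝ) - q.at 3) := by
      rw [Q4.ev, Q4.ev]
      simp only [Q4.at]
      ring
    rw [h3]
    exact h2
  have h2 := interp_le hx' hn' (a0 := al * p'.at 0 - al * q'.at 0)
    (a1 := al * p'.at 1 - al * q'.at 1) (a2 := al * p'.at 2 - al * q'.at 2)
    (a3 := al * p'.at 3 - al * q'.at 3) (k := q.ev x n - p.ev x n)
    (by linarith [s1 0]) (by linarith [s1 1]) (by linarith [s1 2]) (by linarith [s1 3])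
  have h3 : al * p'.ev x' n' - al * q'.ev x' n' =
      (1 + x') * (1 + n') / 4 * (al * p'.at 0 - al * q'.at 0) +
        (1 + x') * (1 - n') / 4 * (al * p'.at 1 - al * q'.at 1) +
        (1 - x') * (1 + n') / 4 * (al * p'.at 2 - al * q'.at 2) +
        (1 - x') * (1 - n') / 4 * (al * p'.at 3 - al * q'.at 3) := by
    rw [Q4.ev, Q4.ev]
    simp only [Q4.at]
    ring
  rw [← h3] at h2
  linarith

/-- FC-2. -/
theorem Up.le_low {tab : ℕ → CtxRow} {N : ℕ} {mu : ℝ} {V : View} (hV : V.OK tab N mu)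
    {pl ph : ℕ} (hP : PowOK pl ph) {k0 k1 : ℕ} (h01 : k0 ≤ k1) (hk : k1 ≤ 3440)
    {u w : List (Fin 3)} (h0 : gk k0 * V.A u ≤ V.A w) (h1 : V.A w ≤ gk k1 * V.A u)
    {e s : ℕ} {y z : ℝ} (hs : Up V u w (rrOf pl ph k0 k1) s z)
    (he : Low V u w (rrOf pl ph k0 k1) e y) (h : geV e s = true) : z ≤ y := by
  obtain ⟨R0, R1, hrr, hR0, hR1, hk0, hk1⟩ := rrOf_eq hP h01 hk
  obtain ⟨p, p', hp, hp', hs1, hz⟩ := hs
  obtain ⟨q, q', hq, hq', he1, hy⟩ := he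
  rw [hrr] at hs1 he1
  rw [hs1, he1] at h
  have hA := hV.A_pos u
  have h2' := geV_sound hR0 hR1 hq hq' hp hp' h
  clear h hs1 he1 hrr
  have hl : (R0 : ℝ) ≤ 65536 * (V.A w / V.A u) := by
    have : gk k0 ≤ V.A w / V.A u := by rwa [le_div_iff₀ hA]
    linarith
  have hh : 65536 * (V.A w / V.A u) ≤ (R1 : ℝ) := by
    have : V.A w / V.A u ≤ gk k1 := by rwa [div_le_iff₀ hA]
    linarith
  have h2 := ev_le h2' (hV.abs_x u) (hV.abs_n u) (hV.abs_x w)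
    (hV.abs_n w) hl hh
  have h3 := mul_le_mul_of_nonneg_left h2 hA.le
  have h4 : ∀ a b : ℝ, V.A u * (a + V.A w / V.A u * b) = V.A u * a + V.A w * b := by
    intro a b
    field_simp
  rw [h4, h4] at h3
  have h5 : V.A u * (p.ev (V.x u) (V.n u) - bias) + V.A w * (p'.ev (V.x w) (V.n w) - bias) ≤
      V.A u * (q.ev (V.x u) (V.n u) - bias) + V.A w * (q'.ev (V.x w) (V.n w) - bias) := by
    linarith
  have h6 : 4294967296 * z ≤ 4294967296 * y := hz.trans (h5.trans hy)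
  linarith

end Pool.Agent.H68.FibC
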