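import Pool.Agent.H68.FibC.Cmp

/-!
# The induction over the pieces of a claim (problem MP_9069b3_mp, part C)
-/

namespace Pool.Agent.H68.FibC

open Pool.Agent.H98.Fib Pool.Agent.H98.Fib.HTree

theorem an_true {x y : Bool} : an x y = true ↔ x = true ∧ y = true := by
  cases x <;> simp [an]

theorem cd_eq {α : Type} (c : Bool) (t e : α) : cd c t e = if c then t else e := by
  cases c <;> rfl

theorem allGe_true {S : ℕ} : ∀ {l : List ℕ}, allGe S l = true → ∀ e ∈ l, geV e S = true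
  | [], _, e, he => by simp at he
  | a :: l, h, e, he => by
    have h' : geV a S = true ∧ allGe S l = true := an_true.mp h
    rcases List.mem_cons.mp he with rfl | he
    · exact h'.1
    · exact allGe_true h'.2 e he

/-- `gk` -/
theorem gk_pos' (k : ℕ) : 0 < gk k := by unfold gk; positivity

theorem gk_mono' {k l : ℕ} (h : k ≤ l) : gk k ≤ gk l := by
  unfold gk
  apply zpow_le_zpow_right₀ (by norm_num)
  omega

theorem refs_zero (mv : Mv) (pl ph c1 p : ℕ) (k : ℕ → Bool) (strm kk : ℕ) :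
    refs mv pl ph c1 p k 0 strm kk = an (Nat.ble c1 kk) (k strm) := rfl

theorem refs_succ (mv : Mv) (pl ph c1 p : ℕ) (k : ℕ → Bool) (n strm kk : ℕ) :
    refs mv pl ph c1 p k (n + 1) strm kk =
      ref1 mv pl ph c1 p (recOf mv.cl (Nat.land strm 4095)) kk
        (fun hi => refs mv pl ph c1 p k n (Nat.shiftRight strm 12) hi) := rfl

theorem pieces_zero (M : Tr Mv) (pl ph rr k0 k1 : ℕ) (fin : Bool) (pe : ℕ) (k : ℕ → Bool)
    (strm : ℕ) (prev : List ℕ) : pieces M pl ph rr k0 k1 fin pe k 0 strm prev = false := rfl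

theorem pieces_one (M : Tr Mv) (pl ph rr k0 k1 : ℕ) (fin : Bool) (pe : ℕ) (k : ℕ → Bool)
    (strm : ℕ) (prev : List ℕ) : pieces M pl ph rr k0 k1 fin pe k 1 strm prev =
      lastPiece (M.get (Nat.land strm 31)) pl ph rr k0 k1 prev fin pe
          (Nat.land strm 0xFFFFFFFFFFFFFFFFFFF)
          (Nat.land (Nat.shiftRight strm 5) 127) (Nat.shiftRight strm 76) k := rfl

theorem pieces_succ (M : Tr Mv) (pl ph rr k0 k1 : ℕ) (fin : Bool) (pe : ℕ) (k : ℕ → Bool)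
    (n strm : ℕ) (prev : List ℕ) : pieces M pl ph rr k0 k1 fin pe k (n + 2) strm prev =
      midPiece (M.get (Nat.land strm 31)) pl ph rr k0 k1 prev
          (Nat.land strm 0xFFFFFFFFFFFFFFFFFFF)
          (Nat.land (Nat.shiftRight strm 5) 127) (Nat.shiftRight strm 76)
          (fun strm' cur => pieces M pl ph rr k0 k1 fin pe k (n + 1) strm' cur) := rfl

theorem refs_cont {mv : Mv} {pl ph c1 p : ℕ} {k : ℕ → Bool} :
    ∀ {cnt strm kk : ℕ}, refs mv pl ph c1 p k cnt strm kk = true → ∃ strm', k strm' = true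
  | 0, strm, kk, h => by
    rw [refs_zero] at h
    exact ⟨strm, (an_true.mp h).2⟩
  | n + 1, strm, kk, h => by
    rw [refs_succ, ref1] at h
    exact refs_cont (an_true.mp (an_true.mp (an_true.mp h).2).2).2

theorem midPiece_cont {mv : Mv} {pl ph rr k0 k1 : ℕ} {prev : List ℕ} {p cnt strm : ℕ}
    {k : ℕ → List ℕ → Bool} (h : midPiece mv pl ph rr k0 k1 prev p cnt strm k = true) :
    ∃ strm' cur, k strm' cur = true := by
  obtain ⟨strm', hk⟩ := refs_cont (an_true.mp (an_true.mp (an_true.mp (an_true.mp h).2).2).2).2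
  exact ⟨strm', _, hk⟩

theorem lastPiece_cont {mv : Mv} {pl ph rr k0 k1 : ℕ} {prev : List ℕ} {fin : Bool}
    {pe p cnt strm : ℕ} {k : ℕ → Bool}
    (h : lastPiece mv pl ph rr k0 k1 prev fin pe p cnt strm k = true) :
    ∃ strm', k strm' = true :=
  refs_cont (an_true.mp (an_true.mp (an_true.mp (an_true.mp (an_true.mp h).2).2).2).2).2

theorem pieces_cont {M : Tr Mv} {pl ph rr k0 k1 : ℕ} {fin : Bool} {pe : ℕ} {k : ℕ → Bool} :
    ∀ {np strm : ℕ} {prev : List ℕ}, pieces M pl ph rr k0 k1 fin pe k np strm prev = true →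
      ∃ strm', k strm' = true
  | 0, strm, prev, h => by rw [pieces_zero] at h; exact absurd h (by simp)
  | 1, strm, prev, h => by rw [pieces_one] at h; exact lastPiece_cont h
  | n + 2, strm, prev, h => by
    rw [pieces_succ] at h
    obtain ⟨strm', cur, h'⟩ := midPiece_cont h
    exact pieces_cont h'

/-- The continuation of a successful check is successful. -/
theorem claim_cont {M : Tr Mv} {pl ph lu lw r strm : ℕ} {k : ℕ → Bool}
    (h : claim M pl ph lu lw r strm k = true) : ∃ strm', k strm' = true :=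
  pieces_cont (an_true.mp h).2

/-- The records with nonempty range have positive `fkl`. -/
theorem fkl_pos {mv : Mv} {r kk : ℕ} (h1 : mv.lo r ≤ kk) (h2 : kk < mv.hi r) : 0 < fkl r := by
  unfold Mv.lo at h1
  unfold Mv.hi at h2
  rw [cd_eq] at h1 h2
  by_contra h
  have h0 : fkl r = 0 := by omega
  split_ifs at h1 h2 <;> simp only [Nat.add_eq, Nat.sub_eq, h0] at h1 h2 <;> omega

/-- What a move from the pair `(u, w)` gives: `P r t` holds if `t` lies in the interval of the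
record `r`; `p`: header of a piece. -/
structure MvOK (V : View) (u w : List (Fin 3)) (rr k0 k1 : ℕ) (mv : Mv) (X Y : ℝ)
    (P : ℕ → ℝ → Prop) : Prop where
  pos : 0 < X
  low : ∀ kk, kk + 2048 ≤ k0 + mv.ks → gk kk * X ≤ Y
  up : ∀ kk, k1 + mv.ke ≤ kk + 2048 → Y ≤ gk kk * X
  ref : ∀ (p r a0 a1 : ℕ) (t : ℝ) (prev : List ℕ), mv.refOK a0 a1 p r = true →
    (a0 : ℝ) * X ≤ 1073741824 * Y → 1073741824 * Y ≤ (a1 : ℝ) * X →
    gk (mv.lo r) * X ≤ Y → Y ≤ gk (mv.hi r) * X →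
    (∀ (s : ℕ) (z : ℝ), allGe s prev = true → Up V u w rr s z → z ≤ t - V.T.hl u - V.T.hl w) →
    mv.chain rr p prev = true →
    P r t ∨ ((∃ e ∈ mv.ends rr p, ∃ y, Low V u w rr e y ∧ y < t - V.T.hl u - V.T.hl w) ∧
      (mv.exact p = true → V.T.hr u + V.T.hr w < t))

/-- The records of a piece: the one whose range contains the ratio. -/
theorem refs_find {mv : Mv} {pl ph c1 p : ℕ} {k : ℕ → Bool} {X Y : ℝ} (hX : 0 < X)
    (hlo : ∀ k, k < 4096 → (pLo pl k : ℝ) ≤ 1073741824 * gk k)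
    (hhi : ∀ k, k < 4096 → 1073741824 * gk k ≤ (pLo ph k : ℝ))
    (hc1 : Y ≤ gk c1 * X) (hc : c1 < 4096) :
    ∀ {cnt strm kk : ℕ}, refs mv pl ph c1 p k cnt strm kk = true → gk kk * X ≤ Y →
      (kk < c1 ∨ gk kk * X < Y) →
      ∃ idx a0 a1 : ℕ, 0 < fkl (recOf mv.cl idx) ∧ gk (mv.lo (recOf mv.cl idx)) * X ≤ Y ∧
        Y ≤ gk (mv.hi (recOf mv.cl idx)) * X ∧ mv.refOK a0 a1 p (recOf mv.cl idx) = true ∧
        (a0 : ℝ) * X ≤ 1073741824 * Y ∧ 1073741824 * Y ≤ (a1 : ℝ) * X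
  | 0, strm, kk, h, hkk, hlt => by
    exfalso
    rw [refs_zero] at h
    obtain ⟨h, -⟩ := an_true.mp h
    have h1 := Nat.ble_eq.mp h
    rcases hlt with hlt | hlt
    · omega
    · have := mul_le_mul_of_nonneg_right (gk_mono' h1) hX.le
      linarith
  | n + 1, strm, kk, h, hkk, hlt => by
    rw [refs_succ, ref1] at h
    generalize Nat.land strm 4095 = idx at h
    obtain ⟨h1, h2⟩ := an_true.mp h
    obtain ⟨h2, h3⟩ := an_true.mp h2
    obtain ⟨h3, h4⟩ := an_true.mp h3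
    have h1' := Nat.ble_eq.mp h1
    have h2' : kk < mv.hi (recOf mv.cl idx) := by
      have := Nat.ble_eq.mp h2
      omega
    have hkc : kk < c1 := by
      rcases hlt with hlt | hlt
      · exact hlt
      · by_contra hcon
        have := mul_le_mul_of_nonneg_right (gk_mono' (not_lt.mp hcon)) hX.le
        linarith
    rcases le_or_gt Y (gk (mv.hi (recOf mv.cl idx)) * X) with hY | hY
    · have hm : ∃ m, cd (Nat.ble (mv.hi (recOf mv.cl idx)) c1) (mv.hi (recOf mv.cl idx)) c1 = m ∧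
          m < 4096 ∧ Y ≤ gk m * X := by
        rw [cd_eq]
        by_cases hb : Nat.ble (mv.hi (recOf mv.cl idx)) c1 = true
        · rw [if_pos hb]
          have := Nat.ble_eq.mp hb
          exact ⟨_, rfl, by omega, hY⟩
        · rw [if_neg hb]
          exact ⟨_, rfl, hc, hc1⟩
      obtain ⟨m, hm1, hm2, hm3⟩ := hm
      rw [hm1] at h3
      refine ⟨idx, _, _, fkl_pos h1' h2', ?_, hY, h3, ?_, ?_⟩
      · exact le_trans (mul_le_mul_of_nonneg_right (gk_mono' h1') hX.le) hkk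
      · have e1 := mul_le_mul_of_nonneg_right (hlo kk (by omega)) hX.le
        linarith
      · have e1 := mul_le_mul_of_nonneg_right (hhi m hm2) hX.le
        linarith
    · exact refs_find hX hlo hhi hc1 hc h4 hY.le (Or.inr hY)

/-- What follows from the checks on the range of the ratio. -/
theorem rng_of {k0 k1 ks ke : ℕ} (h1 : Nat.ble 2048 (Nat.add k0 ks) = true)
    (h2 : Nat.blt (Nat.add k1 ke) 6144 = true)
    (h3 : Nat.blt (Nat.add k0 ks) (Nat.add k1 ke) = true) :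
    2048 ≤ k0 + ks ∧ ∃ c0 c1, Nat.sub (Nat.add k0 ks) 2048 = c0 ∧
      Nat.sub (Nat.add k1 ke) 2048 = c1 ∧ c0 + 2048 = k0 + ks ∧ c1 + 2048 = k1 + ke ∧
      c0 < c1 ∧ c1 < 4096 := by
  have e1 := Nat.ble_eq.mp h1
  have e2 := Nat.ble_eq.mp h2
  have e3 := Nat.ble_eq.mp h3
  simp only [Nat.add_eq, Nat.sub_eq] at *
  exact ⟨e1, _, _, rfl, rfl, by omega, by omega, by omega, by omega⟩

/-- The last piece. -/
theorem lastPiece_sound {V : View} {u w : List (Fin 3)} {pl ph rr k0 k1 : ℕ}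
    (hlo : ∀ k, k < 4096 → (pLo pl k : ℝ) ≤ 1073741824 * gk k)
    (hhi : ∀ k, k < 4096 → 1073741824 * gk k ≤ (pLo ph k : ℝ))
    (hcmp : ∀ {e s : ℕ} {y z : ℝ}, Up V u w rr s z → Low V u w rr e y → geV e s = true → z ≤ y)
    {mv : Mv} {X Y : ℝ} {P : ℕ → ℝ → Prop}
    (hM : mv.ok = true → 2048 ≤ k0 + mv.ks → MvOK V u w rr k0 k1 mv X Y P)
    {fin : Bool} {pe : ℕ} {k : ℕ → Bool} {t : ℝ}
    (ht1 : fin = true → t ≤ V.T.hr u + V.T.hr w)
    (ht2 : fin = false → ∃ y, Up V u w rr pe y ∧ t - V.T.hl u - V.T.hl w ≤ y)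
    {p cnt strm : ℕ} {prev : List ℕ}
    (h : lastPiece mv pl ph rr k0 k1 prev fin pe p cnt strm k = true)
    (hp : ∃ e ∈ prev, ∃ y, Low V u w rr e y ∧ y ≤ t - V.T.hl u - V.T.hl w) :
    mv.ok = true ∧ ∃ idx, 0 < fkl (recOf mv.cl idx) ∧ P (recOf mv.cl idx) t := by
  rw [lastPiece] at h
  obtain ⟨hok, h⟩ := an_true.mp h
  obtain ⟨hks, h⟩ := an_true.mp h
  obtain ⟨hks, hke⟩ := an_true.mp hks
  obtain ⟨hlt, h⟩ := an_true.mp h
  obtain ⟨hch, h⟩ := an_true.mp h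
  obtain ⟨hend, h⟩ := an_true.mp h
  obtain ⟨hks', c0, c1, hc0, hc1, hc0', hc1', hc, hc4⟩ := rng_of hks hke hlt
  rw [hc0, hc1] at h
  have hMv := hM hok hks'
  obtain ⟨idx, a0, a1, hpos, h1, h2, h3, h4, h5⟩ := refs_find (Y := Y) hMv.pos hlo hhi
    (hMv.up c1 hc1'.ge) hc4 h (hMv.low c0 hc0'.le) (Or.inl hc)
  obtain ⟨e, he, y, hy, hyt⟩ := hp
  refine ⟨hok, idx, hpos, ?_⟩
  rcases hMv.ref p (recOf mv.cl idx) a0 a1 t prev h3 h4 h5 h1 h2
    (fun s z hs hz => (hcmp hz hy (allGe_true hs e he)).trans hyt) hch with hP | ⟨hE, hX⟩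
  · exact hP
  · exfalso
    rw [cd_eq] at hend
    by_cases hfin : fin = true
    · rw [if_pos hfin] at hend
      have := ht1 hfin
      have := hX hend
      linarith
    · rw [if_neg hfin] at hend
      obtain ⟨y', hy', hty⟩ := ht2 (by simpa using hfin)
      obtain ⟨e', he', y'', hy'', hlt''⟩ := hE
      have := hcmp hy' hy'' (allGe_true hend e' he')
      linarith

/-- A piece which is not the last one. -/
theorem midPiece_sound {V : View} {u w : List (Fin 3)} {pl ph rr k0 k1 : ℕ}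
    (hlo : ∀ k, k < 4096 → (pLo pl k : ℝ) ≤ 1073741824 * gk k)
    (hhi : ∀ k, k < 4096 → 1073741824 * gk k ≤ (pLo ph k : ℝ))
    (hcmp : ∀ {e s : ℕ} {y z : ℝ}, Up V u w rr s z → Low V u w rr e y → geV e s = true → z ≤ y)
    {mv : Mv} {X Y : ℝ} {P : ℕ → ℝ → Prop}
    (hM : mv.ok = true → 2048 ≤ k0 + mv.ks → MvOK V u w rr k0 k1 mv X Y P)
    {k : ℕ → List ℕ → Bool} {t : ℝ}
    {p cnt strm : ℕ} {prev : List ℕ} (h : midPiece mv pl ph rr k0 k1 prev p cnt strm k = true)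
    (hp : ∃ e ∈ prev, ∃ y, Low V u w rr e y ∧ y ≤ t - V.T.hl u - V.T.hl w) :
    (mv.ok = true ∧ ∃ idx, 0 < fkl (recOf mv.cl idx) ∧ P (recOf mv.cl idx) t) ∨
      ∃ strm' cur, k strm' cur = true ∧
        ∃ e ∈ cur, ∃ y, Low V u w rr e y ∧ y ≤ t - V.T.hl u - V.T.hl w := by
  rw [midPiece] at h
  obtain ⟨hok, h⟩ := an_true.mp h
  obtain ⟨hks, h⟩ := an_true.mp h
  obtain ⟨hks, hke⟩ := an_true.mp hks
  obtain ⟨hlt, h⟩ := an_true.mp h
  obtain ⟨hch, h⟩ := an_true.mp h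
  obtain ⟨hks', c0, c1, hc0, hc1, hc0', hc1', hc, hc4⟩ := rng_of hks hke hlt
  rw [hc0, hc1] at h
  have hMv := hM hok hks'
  obtain ⟨strm', hk⟩ := refs_cont h
  obtain ⟨idx, a0, a1, hpos, h1, h2, h3, h4, h5⟩ := refs_find (Y := Y) hMv.pos hlo hhi
    (hMv.up c1 hc1'.ge) hc4 h (hMv.low c0 hc0'.le) (Or.inl hc)
  obtain ⟨e, he, y, hy, hyt⟩ := hp
  rcases hMv.ref p (recOf mv.cl idx) a0 a1 t prev h3 h4 h5 h1 h2
    (fun s z hs hz => (hcmp hz hy (allGe_true hs e he)).trans hyt) hch with hP | ⟨hE, -⟩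
  · exact Or.inl ⟨hok, idx, hpos, hP⟩
  · obtain ⟨e', he', y'', hy'', hlt''⟩ := hE
    exact Or.inr ⟨strm', mv.ends rr p, hk, e', he', y'', hy'', hlt''.le⟩

/-- The main induction. -/
theorem pieces_sound {V : View} {u w : List (Fin 3)} {pl ph rr k0 k1 : ℕ}
    (hlo : ∀ k, k < 4096 → (pLo pl k : ℝ) ≤ 1073741824 * gk k)
    (hhi : ∀ k, k < 4096 → 1073741824 * gk k ≤ (pLo ph k : ℝ))
    (hcmp : ∀ {e s : ℕ} {y z : ℝ}, Up V u w rr s z → Low V u w rr e y → geV e s = true → z ≤ y)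
    {M : Tr Mv} {P : ℕ → ℕ → ℝ → Prop}
    (hM : ∀ m, m < 32 → ∃ X Y : ℝ, (M.get m).ok = true → 2048 ≤ k0 + (M.get m).ks →
      MvOK V u w rr k0 k1 (M.get m) X Y (P m))
    {fin : Bool} {pe : ℕ} {k : ℕ → Bool} {t : ℝ}
    (ht1 : fin = true → t ≤ V.T.hr u + V.T.hr w)
    (ht2 : fin = false → ∃ y, Up V u w rr pe y ∧ t - V.T.hl u - V.T.hl w ≤ y) :
    ∀ {np strm : ℕ} {prev : List ℕ}, pieces M pl ph rr k0 k1 fin pe k np strm prev = true →
      (∃ e ∈ prev, ∃ y, Low V u w rr e y ∧ y ≤ t - V.T.hl u - V.T.hl w) →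
      ∃ m, m < 32 ∧ (M.get m).ok = true ∧ ∃ idx, 0 < fkl (recOf (M.get m).cl idx) ∧
        P m (recOf (M.get m).cl idx) t
  | 0, strm, prev, h, _ => by
    rw [pieces_zero] at h
    exact absurd h Bool.false_ne_true
  | 1, strm, prev, h, hp => by
    rw [pieces_one] at h
    have hm : Nat.land strm 31 < 32 := Nat.lt_succ_of_le (Nat.and_le_right)
    obtain ⟨X, Y, hMm⟩ := hM _ hm
    exact ⟨_, hm, lastPiece_sound hlo hhi hcmp hMm ht1 ht2 h hp⟩
  | n + 2, strm, prev, h, hp => by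
    rw [pieces_succ] at h
    have hm : Nat.land strm 31 < 32 := Nat.lt_succ_of_le (Nat.and_le_right)
    obtain ⟨X, Y, hMm⟩ := hM _ hm
    rcases midPiece_sound hlo hhi hcmp hMm h hp with hh | ⟨strm', cur, hk, hh⟩
    · exact ⟨_, hm, hh⟩
    · exact pieces_sound hlo hhi hcmp hM ht1 ht2 hk hh

end Pool.Agent.H68.FibC
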