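import Pool.Agent.H68.FibC.Sem

/-!
# FC-7: the side data and the table of contexts, checked by evaluation
-/

namespace Pool.Agent.H68.FibC

open Pool.Agent.H98.Fib Pool.Agent.H98.Fib.HTree

/-- left end of the child `i` -/
def rl (r : CtxRow) : ℕ → Aff
  | 0 => ⟨0, 0, 0, 0⟩
  | 1 => r.e2
  | 2 => r.e4
  | _ => ⟨0, 0, 0, 0⟩

/-- right end of the child `i` -/
def rr' (r : CtxRow) : ℕ → Aff
  | 0 => r.e1
  | 1 => r.e3
  | 2 => r.len
  | _ => r.len

/-- left edge constant of the child `i` -/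
def ra (r : CtxRow) : ℕ → Aff
  | 0 => r.a0
  | 1 => r.a1
  | 2 => r.a2
  | _ => ⟨1048576, 0, 0, 0⟩

/-- right edge constant of the child `i` -/
def rb (r : CtxRow) : ℕ → Aff
  | 0 => r.b0
  | 1 => r.b1
  | 2 => r.b2
  | _ => r.bb

/-- `q ≥ b + m (f + e)` at the vertices -/
def upChk (b m : ℤ) (f : Aff) (q : Q4) : Bool :=
  decide (b + m * (f.c + f.s + f.t + f.e) ≤ q.v0 ∧ b + m * (f.c + f.s - f.t + f.e) ≤ q.v1 ∧
    b + m * (f.c - f.s + f.t + f.e) ≤ q.v2 ∧ b + m * (f.c - f.s - f.t + f.e) ≤ q.v3)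

/-- `q ≤ b + m (f - e)` at the vertices -/
def loChk (b m : ℤ) (f : Aff) (q : Q4) : Bool :=
  decide ((q.v0 : ℤ) ≤ b + m * (f.c + f.s + f.t - f.e) ∧ (q.v1 : ℤ) ≤ b + m * (f.c + f.s - f.t - f.e) ∧
    (q.v2 : ℤ) ≤ b + m * (f.c - f.s + f.t - f.e) ∧ (q.v3 : ℤ) ≤ b + m * (f.c - f.s - f.t - f.e))

/-- `q < m` -/
def ltChk (m : ℕ) (q : Q4) : Bool :=
  decide (q.v0 < m ∧ q.v1 < m ∧ q.v2 < m ∧ q.v3 < m)

/-- `8191 p ≤ q` -/
def subChk (p q : Q4) : Bool :=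
  decide (8191 * p.v0 ≤ q.v0 ∧ 8191 * p.v1 ≤ q.v1 ∧ 8191 * p.v2 ≤ q.v2 ∧ 8191 * p.v3 ≤ q.v3)

/-- `ulo ≤ f ≤ uhi` -/
def uChk (f : Aff) (ulo uhi : ℕ) : Bool :=
  decide (0 < ulo ∧ (ulo : ℤ) ≤ f.c - |f.s| - |f.t| - f.e ∧ f.c + |f.s| + |f.t| + f.e ≤ uhi)

/-- Check of the side data. -/
def sdChk (r : CtxRow) (i : ℕ) (rep : Bool) (sd : Sd) : Bool :=
  ltChk 8388608 sd.s1 && ltChk 8388608 sd.e1 && ltChk 274877906944 sd.s0 &&
    ltChk 274877906944 sd.e0 && ltChk 549755813888 sd.se && ltChk 549755813888 sd.ee &&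
    (if rep then
      upChk 137438953472 4096 (rr' r i) sd.s0 && loChk 0 1 (rb r i) sd.s1 &&
        upChk 137438953472 4096 (rl r i) sd.se && loChk 137438953472 4096 (rr' r i) sd.e0 &&
        upChk 0 1 (rb r i) sd.e1 && subChk sd.s1 sd.s0 && subChk sd.e1 sd.e0 &&
        uChk (rb r i) sd.ulo sd.uhi
    else
      upChk 137438953472 4096 (rl r i) sd.s0 && upChk 0 1 (ra r i) sd.s1 &&
        loChk 137438953472 4096 (rl r i) sd.e0 && loChk 0 1 (ra r i) sd.e1 &&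
        loChk 137438953472 4096 (rr' r i) sd.ee && uChk (ra r i) sd.ulo sd.uhi)

theorem tab_wt {x n : ℝ} (hx : |x| ≤ 1) (hn : |n| ≤ 1) :
    0 ≤ (1 + x) * (1 + n) / 4 ∧ 0 ≤ (1 + x) * (1 - n) / 4 ∧ 0 ≤ (1 - x) * (1 + n) / 4 ∧
      0 ≤ (1 - x) * (1 - n) / 4 := by
  rw [abs_le] at hx hn
  have a1 : 0 ≤ 1 + x := by linarith [hx.1]
  have a2 : 0 ≤ 1 - x := by linarith [hx.2]
  have a3 : 0 ≤ 1 + n := by linarith [hn.1]
  have a4 : 0 ≤ 1 - n := by linarith [hn.2]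
  exact ⟨by positivity, by positivity, by positivity, by positivity⟩

theorem tab_ev_up {b m : ℤ} {f : Aff} {q : Q4} (h : upChk b m f q = true) {x n : ℝ}
    (hx : |x| ≤ 1) (hn : |n| ≤ 1) :
    (b : ℝ) + m * (f.c + f.s * x + f.t * n + f.e) ≤ q.ev x n := by
  unfold upChk at h
  rw [decide_eq_true_iff] at h
  obtain ⟨h0, h1, h2, h3⟩ := h
  obtain ⟨w0, w1, w2, w3⟩ := tab_wt hx hn
  have g0 : (b : ℝ) + m * (f.c + f.s + f.t + f.e) ≤ q.v0 := by exact_mod_cast h0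
  have g1 : (b : ℝ) + m * (f.c + f.s - f.t + f.e) ≤ q.v1 := by exact_mod_cast h1
  have g2 : (b : ℝ) + m * (f.c - f.s + f.t + f.e) ≤ q.v2 := by exact_mod_cast h2
  have g3 : (b : ℝ) + m * (f.c - f.s - f.t + f.e) ≤ q.v3 := by exact_mod_cast h3
  have k0 := mul_le_mul_of_nonneg_left g0 w0
  have k1 := mul_le_mul_of_nonneg_left g1 w1
  have k2 := mul_le_mul_of_nonneg_left g2 w2
  have k3 := mul_le_mul_of_nonneg_left g3 w3
  unfold Q4.ev
  have e : (b : ℝ) + m * (f.c + f.s * x + f.t * n + f.e) =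
      (1 + x) * (1 + n) / 4 * (b + m * (f.c + f.s + f.t + f.e)) +
      (1 + x) * (1 - n) / 4 * (b + m * (f.c + f.s - f.t + f.e)) +
      (1 - x) * (1 + n) / 4 * (b + m * (f.c - f.s + f.t + f.e)) +
      (1 - x) * (1 - n) / 4 * (b + m * (f.c - f.s - f.t + f.e)) := by ring
  rw [e]
  linarith

theorem tab_ev_lo {b m : ℤ} {f : Aff} {q : Q4} (h : loChk b m f q = true) {x n : ℝ}
    (hx : |x| ≤ 1) (hn : |n| ≤ 1) :
    q.ev x n ≤ (b : ℝ) + m * (f.c + f.s * x + f.t * n - f.e) := by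
  unfold loChk at h
  rw [decide_eq_true_iff] at h
  obtain ⟨h0, h1, h2, h3⟩ := h
  obtain ⟨w0, w1, w2, w3⟩ := tab_wt hx hn
  have g0 : (q.v0 : ℝ) ≤ (b : ℝ) + m * (f.c + f.s + f.t - f.e) := by exact_mod_cast h0
  have g1 : (q.v1 : ℝ) ≤ (b : ℝ) + m * (f.c + f.s - f.t - f.e) := by exact_mod_cast h1
  have g2 : (q.v2 : ℝ) ≤ (b : ℝ) + m * (f.c - f.s + f.t - f.e) := by exact_mod_cast h2
  have g3 : (q.v3 : ℝ) ≤ (b : ℝ) + m * (f.c - f.s - f.t - f.e) := by exact_mod_cast h3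
  have k0 := mul_le_mul_of_nonneg_left g0 w0
  have k1 := mul_le_mul_of_nonneg_left g1 w1
  have k2 := mul_le_mul_of_nonneg_left g2 w2
  have k3 := mul_le_mul_of_nonneg_left g3 w3
  unfold Q4.ev
  have e : (b : ℝ) + m * (f.c + f.s * x + f.t * n - f.e) =
      (1 + x) * (1 + n) / 4 * (b + m * (f.c + f.s + f.t - f.e)) +
      (1 + x) * (1 - n) / 4 * (b + m * (f.c + f.s - f.t - f.e)) +
      (1 - x) * (1 + n) / 4 * (b + m * (f.c - f.s + f.t - f.e)) +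
      (1 - x) * (1 - n) / 4 * (b + m * (f.c - f.s - f.t - f.e)) := by ring
  rw [e]
  linarith

theorem tab_up {b m : ℤ} (hm : 0 ≤ m) {f : Aff} {q : Q4} (h : upChk b m f q = true)
    {x n y A : ℝ} (hx : |x| ≤ 1) (hn : |n| ≤ 1) (hA : 0 < A) (hf : f.Holds x n (y / A)) :
    A * b + m * (1048576 * y) ≤ A * q.ev x n := by
  have h1 := tab_ev_up h hx hn
  unfold Aff.Holds at hf
  rw [abs_le] at hf
  have hm' : (0 : ℝ) ≤ m := by exact_mod_cast hm
  have h2 : 1048576 * (y / A) ≤ f.c + f.s * x + f.t * n + f.e := by linarith [hf.2]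
  have h3 : (b : ℝ) + m * (1048576 * (y / A)) ≤ q.ev x n :=
    le_trans (by linarith [mul_le_mul_of_nonneg_left h2 hm']) h1
  have h4 := mul_le_mul_of_nonneg_left h3 hA.le
  have h5 : A * (b + m * (1048576 * (y / A))) = A * b + m * (1048576 * y) := by
    field_simp
  rw [h5] at h4
  exact h4

theorem tab_lo {b m : ℤ} (hm : 0 ≤ m) {f : Aff} {q : Q4} (h : loChk b m f q = true)
    {x n y A : ℝ} (hx : |x| ≤ 1) (hn : |n| ≤ 1) (hA : 0 < A) (hf : f.Holds x n (y / A)) :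
    A * q.ev x n ≤ A * b + m * (1048576 * y) := by
  have h1 := tab_ev_lo h hx hn
  unfold Aff.Holds at hf
  rw [abs_le] at hf
  have hm' : (0 : ℝ) ≤ m := by exact_mod_cast hm
  have h2 : f.c + f.s * x + f.t * n - f.e ≤ 1048576 * (y / A) := by linarith [hf.1]
  have h3 : q.ev x n ≤ (b : ℝ) + m * (1048576 * (y / A)) :=
    le_trans h1 (by linarith [mul_le_mul_of_nonneg_left h2 hm'])
  have h4 := mul_le_mul_of_nonneg_left h3 hA.le
  have h5 : A * (b + m * (1048576 * (y / A))) = A * b + m * (1048576 * y) := by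
    field_simp
  rw [h5] at h4
  exact h4

theorem tab_u {f : Aff} {ulo uhi : ℕ} (h : uChk f ulo uhi = true)
    {x n y A : ℝ} (hx : |x| ≤ 1) (hn : |n| ≤ 1) (hA : 0 < A) (hf : f.Holds x n (y / A)) :
    (ulo : ℝ) * A ≤ 1048576 * y ∧ 1048576 * y ≤ (uhi : ℝ) * A := by
  unfold uChk at h
  rw [decide_eq_true_iff] at h
  obtain ⟨-, h1, h2⟩ := h
  unfold Aff.Holds at hf
  rw [abs_le] at hf
  have g1 : (ulo : ℝ) ≤ f.c - |(f.s : ℝ)| - |(f.t : ℝ)| - f.e := by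
    rw [← Int.cast_abs, ← Int.cast_abs]
    exact_mod_cast h1
  have g2 : (f.c : ℝ) + |(f.s : ℝ)| + |(f.t : ℝ)| + f.e ≤ uhi := by
    rw [← Int.cast_abs, ← Int.cast_abs]
    exact_mod_cast h2
  have s1 : |(f.s : ℝ) * x| ≤ |(f.s : ℝ)| := by
    rw [abs_mul]
    exact mul_le_of_le_one_right (abs_nonneg _) hx
  have s2 : |(f.t : ℝ) * n| ≤ |(f.t : ℝ)| := by
    rw [abs_mul]
    exact mul_le_of_le_one_right (abs_nonneg _) hn
  have s3 := abs_le.mp s1
  have s4 := abs_le.mp s2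
  have k1 : (ulo : ℝ) ≤ 1048576 * (y / A) := by linarith [hf.1, s3.1, s4.1]
  have k2 : 1048576 * (y / A) ≤ uhi := by linarith [hf.2, s3.2, s4.2]
  have e : 1048576 * y = 1048576 * (y / A) * A := by
    field_simp
  rw [e]
  exact ⟨mul_le_mul_of_nonneg_right k1 hA.le, mul_le_mul_of_nonneg_right k2 hA.le⟩

theorem tab_zero_holds {x n y : ℝ} (h : y = 0) : (⟨0, 0, 0, 0⟩ : Aff).Holds x n y := by
  unfold Aff.Holds
  rw [h]
  norm_num

theorem tab_one_holds {x n y : ℝ} (h : y = 1) : (⟨1048576, 0, 0, 0⟩ : Aff).Holds x n y := by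
  unfold Aff.Holds
  rw [h]
  norm_num

section
variable {tab : ℕ → CtxRow} {N : ℕ} {mu : ℝ} {V : View} (hV : V.OK tab N mu)
include hV

theorem tab_rl (w : List (Fin 3)) (i : ℕ) : (rl (tab (V.ctx w)) i).Holds (V.x w) (V.n w)
    ((V.T.hl (cw i w) - V.T.hl w) / V.A w) := by
  match i with
  | 0 =>
    apply tab_zero_holds
    show (V.T.hl (0 :: w) - V.T.hl w) / V.A w = 0
    rw [V.T.hl0, sub_self, zero_div]
  | 1 => exact (hV.left w).e2
  | 2 => exact (hV.left w).e4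
  | i + 3 =>
    apply tab_zero_holds
    show (V.T.hl w - V.T.hl w) / V.A w = 0
    rw [sub_self, zero_div]

theorem tab_rr (w : List (Fin 3)) (i : ℕ) : (rr' (tab (V.ctx w)) i).Holds (V.x w) (V.n w)
    ((V.T.hr (cw i w) - V.T.hl w) / V.A w) := by
  match i with
  | 0 => exact (hV.left w).e1
  | 1 => exact (hV.left w).e3
  | 2 =>
    show ((tab (V.ctx w)).len).Holds (V.x w) (V.n w) ((V.T.hr (2 :: w) - V.T.hl w) / V.A w)
    rw [V.T.hr2]
    exact (hV.left w).len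
  | i + 3 => exact (hV.left w).len

theorem tab_ra (w : List (Fin 3)) (i : ℕ) : (ra (tab (V.ctx w)) i).Holds (V.x w) (V.n w)
    (V.A (cw i w) / V.A w) := by
  match i with
  | 0 => exact (hV.left w).a0
  | 1 => exact (hV.left w).a1
  | 2 => exact (hV.left w).a2
  | i + 3 =>
    apply tab_one_holds
    show V.A w / V.A w = 1
    exact div_self (hV.A_pos w).ne'

theorem tab_rb (w : List (Fin 3)) (i : ℕ) : (rb (tab (V.ctx w)) i).Holds (V.x w) (V.n w)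
    (V.B (cw i w) / V.A w) := by
  match i with
  | 0 => exact (hV.left w).b0
  | 1 => exact (hV.left w).b1
  | 2 => exact (hV.left w).b2
  | i + 3 => exact (hV.left w).bb

end

theorem tab_lt {m : ℕ} {q : Q4} (h : ltChk m q = true) :
    q.v0 < m ∧ q.v1 < m ∧ q.v2 < m ∧ q.v3 < m := by
  unfold ltChk at h
  exact of_decide_eq_true h

theorem tab_sub {p q : Q4} (h : subChk p q = true) :
    8191 * p.v0 ≤ q.v0 ∧ 8191 * p.v1 ≤ q.v1 ∧ 8191 * p.v2 ≤ q.v2 ∧ 8191 * p.v3 ≤ q.v3 := by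
  unfold subChk at h
  exact of_decide_eq_true h

theorem tab_upos {f : Aff} {ulo uhi : ℕ} (h : uChk f ulo uhi = true) : 0 < ulo := by
  unfold uChk at h
  exact (of_decide_eq_true h).1

theorem sdB_of_chk {r : CtxRow} {i : ℕ} {rep : Bool} {sd : Sd} (h : sdChk r i rep sd = true) :
    SdB sd rep := by
  unfold sdChk at h
  simp only [Bool.and_eq_true] at h
  obtain ⟨⟨⟨⟨⟨⟨h1, h2⟩, h3⟩, h4⟩, h5⟩, h6⟩, h7⟩ := h
  cases rep
  · simp only [Bool.false_eq_true, if_false, Bool.and_eq_true] at h7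
    exact ⟨tab_lt h1, tab_lt h2, tab_lt h3, tab_lt h4, tab_lt h5, tab_lt h6,
      fun h => absurd h (by simp), fun h => absurd h (by simp), tab_upos h7.2⟩
  · simp only [if_true, Bool.and_eq_true] at h7
    obtain ⟨⟨⟨⟨⟨⟨⟨g1, g2⟩, g3⟩, g4⟩, g5⟩, g6⟩, g7⟩, g8⟩ := h7
    exact ⟨tab_lt h1, tab_lt h2, tab_lt h3, tab_lt h4, tab_lt h5, tab_lt h6,
      fun _ => tab_sub g6, fun _ => tab_sub g7, tab_upos g8⟩

theorem sdL_of_chk {tab : ℕ → CtxRow} {N : ℕ} {mu : ℝ} {V : View} (hV : V.OK tab N mu)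
    {w : List (Fin 3)} {i : ℕ} {sd : Sd} (h : sdChk (tab (V.ctx w)) i false sd = true) :
    SdL V w i sd := by
  unfold sdChk at h
  simp only [Bool.and_eq_true, Bool.false_eq_true, if_false] at h
  obtain ⟨-, ⟨⟨⟨⟨⟨g1, g2⟩, g3⟩, g4⟩, g5⟩, g6⟩⟩ := h
  have hx := hV.abs_x w
  have hn := hV.abs_n w
  have hA := hV.A_pos w
  have k1 := tab_up (by norm_num) g1 hx hn hA (tab_rl hV w i)
  have k2 := tab_up (by norm_num) g2 hx hn hA (tab_ra hV w i)
  have k3 := tab_lo (by norm_num) g3 hx hn hA (tab_rl hV w i)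
  have k4 := tab_lo (by norm_num) g4 hx hn hA (tab_ra hV w i)
  have k5 := tab_lo (by norm_num) g5 hx hn hA (tab_rr hV w i)
  have k6 := tab_u g6 hx hn hA (tab_ra hV w i)
  push_cast at k1 k2 k3 k4 k5
  refine ⟨fun c _ => ?_, fun c _ => ?_, ?_, k6.1, k6.2⟩
  · have hc : (0 : ℝ) ≤ c := Nat.cast_nonneg _
    have k7 := mul_le_mul_of_nonneg_left k2 hc
    unfold bias
    linarith
  · have hc : (0 : ℝ) ≤ c := Nat.cast_nonneg _
    have k7 := mul_le_mul_of_nonneg_left k4 hc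
    unfold bias
    linarith
  · unfold bias
    linarith

theorem sdR_of_chk {tab : ℕ → CtxRow} {N : ℕ} {mu : ℝ} {V : View} (hV : V.OK tab N mu)
    {w : List (Fin 3)} {i : ℕ} {sd : Sd} (h : sdChk (tab (V.ctx w)) i true sd = true) :
    SdR V w i sd := by
  unfold sdChk at h
  simp only [Bool.and_eq_true, if_true] at h
  obtain ⟨-, ⟨⟨⟨⟨⟨⟨⟨g1, g2⟩, g3⟩, g4⟩, g5⟩, -⟩, -⟩, g8⟩⟩ := h
  have hx := hV.abs_x w
  have hn := hV.abs_n w
  have hA := hV.A_pos w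
  have k1 := tab_up (by norm_num) g1 hx hn hA (tab_rr hV w i)
  have k2 := tab_lo (by norm_num) g2 hx hn hA (tab_rb hV w i)
  have k3 := tab_up (by norm_num) g3 hx hn hA (tab_rl hV w i)
  have k4 := tab_lo (by norm_num) g4 hx hn hA (tab_rr hV w i)
  have k5 := tab_up (by norm_num) g5 hx hn hA (tab_rb hV w i)
  have k6 := tab_u g8 hx hn hA (tab_rb hV w i)
  push_cast at k1 k2 k3 k4 k5
  refine ⟨fun c _ => ?_, ?_, fun c _ => ?_, k6.1, k6.2⟩
  · have hc : (0 : ℝ) ≤ c := Nat.cast_nonneg _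
    have k7 := mul_le_mul_of_nonneg_left k2 hc
    unfold bias
    linarith
  · unfold bias
    linarith
  · have hc : (0 : ℝ) ≤ c := Nat.cast_nonneg _
    have k7 := mul_le_mul_of_nonneg_left k5 hc
    unfold bias
    linarith

/-- Check of the data of the context `c`. -/
noncomputable def ctxChk (tab : ℕ → CtxRow) (ct : ℕ → CtxD) (c : ℕ) : Bool :=
  decide ((ct c).mir = (tab c).mir) && decide ((ct c).nx.get 0 = (tab c).nx0) &&
    decide ((ct c).nx.get 1 = (tab c).nx1) && decide ((ct c).nx.get 2 = (tab c).nx2) &&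
    decide ((ct c).nx.get 3 = c) &&
    sdChk (tab c) 0 false ((ct c).sd.get 0) && sdChk (tab c) 1 false ((ct c).sd.get 1) &&
    sdChk (tab c) 2 false ((ct c).sd.get 2) && sdChk (tab c) 3 false ((ct c).sd.get 3) &&
    sdChk (tab c) 0 true ((ct c).sd.get 4) && sdChk (tab c) 1 true ((ct c).sd.get 5) &&
    sdChk (tab c) 2 true ((ct c).sd.get 6) && sdChk (tab c) 3 true ((ct c).sd.get 7)

theorem ctOK_of_chk {tab : ℕ → CtxRow} {N : ℕ} {mu : ℝ} {V : View} (hV : V.OK tab N mu)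
    {ct : ℕ → CtxD} (h : ∀ c, c < N → ctxChk tab ct c = true) : CtOK tab N ct V := by
  have h' : ∀ c, c < N → ((ct c).mir = (tab c).mir ∧ (ct c).nx.get 0 = (tab c).nx0 ∧
      (ct c).nx.get 1 = (tab c).nx1 ∧ (ct c).nx.get 2 = (tab c).nx2 ∧ (ct c).nx.get 3 = c) ∧
      ∀ i, i < 4 → ∀ rep, sdChk (tab c) i rep ((ct c).sd.get (sidx i rep)) = true := by
    intro c hc
    have h1 := h c hc
    unfold ctxChk at h1
    simp only [Bool.and_eq_true, decide_eq_true_eq] at h1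
    obtain ⟨⟨⟨⟨⟨⟨⟨⟨⟨⟨⟨⟨a1, a2⟩, a3⟩, a4⟩, a5⟩, b0⟩, b1⟩, b2⟩, b3⟩, b4⟩, b5⟩, b6⟩, b7⟩ := h1
    refine ⟨⟨a1, a2, a3, a4, a5⟩, fun i hi rep => ?_⟩
    interval_cases i <;> cases rep
    · exact b0
    · exact b4
    · exact b1
    · exact b5
    · exact b2
    · exact b6
    · exact b3
    · exact b7
  refine ⟨fun c hc => (h' c hc).1.1, fun c hc i => ?_, fun c hc => (h' c hc).1.2.2.2.2,
    fun c hc i hi rep => sdB_of_chk ((h' c hc).2 i hi rep),
    fun w i hi => sdL_of_chk hV ((h' _ (hV.lt w)).2 i hi false),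
    fun w i hi => sdR_of_chk hV ((h' _ (hV.lt w)).2 i hi true)⟩
  obtain ⟨⟨_, a2, a3, a4, _⟩, _⟩ := h' c hc
  match i with
  | 0 => exact a2
  | 1 => exact a3
  | 2 => exact a4

/-- Check of the row `c` of the table. -/
def rowChk (tab : ℕ → CtxRow) (N c : ℕ) : Bool :=
  decide ((tab c).nx0 < N ∧ (tab c).nx1 < N ∧ (tab c).nx2 < N ∧ (tab c).mir < N ∧
    (tab (tab c).mir).mir = c ∧ (tab (tab c).nx2).mir = (tab (tab c).mir).nx0 ∧
    (tab (tab c).nx1).mir = (tab (tab c).mir).nx1 ∧ (tab (tab c).nx0).mir = (tab (tab c).mir).nx2 ∧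
    1024 ≤ (tab c).len.c - |(tab c).len.s| - |(tab c).len.t| - (tab c).len.e ∧
    (tab c).len.c + |(tab c).len.s| + |(tab c).len.t| + (tab c).len.e ≤ 8388608)

theorem tabOK_of_chk {tab : ℕ → CtxRow} {N : ℕ} (h : ∀ c, c < N → rowChk tab N c = true) :
    TabOK tab N := by
  have h' : ∀ c, c < N → (tab c).nx0 < N ∧ (tab c).nx1 < N ∧ (tab c).nx2 < N ∧ (tab c).mir < N ∧
      (tab (tab c).mir).mir = c ∧ (tab (tab c).nx2).mir = (tab (tab c).mir).nx0 ∧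
      (tab (tab c).nx1).mir = (tab (tab c).mir).nx1 ∧
      (tab (tab c).nx0).mir = (tab (tab c).mir).nx2 ∧
      1024 ≤ (tab c).len.c - |(tab c).len.s| - |(tab c).len.t| - (tab c).len.e ∧
      (tab c).len.c + |(tab c).len.s| + |(tab c).len.t| + (tab c).len.e ≤ 8388608 := by
    intro c hc
    have h1 := h c hc
    unfold rowChk at h1
    exact of_decide_eq_true h1
  refine ⟨fun c hc i => ?_, fun c hc => (h' c hc).2.2.2.1, fun c hc => (h' c hc).2.2.2.2.1,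
    fun c hc i => ?_, fun c hc => (h' c hc).2.2.2.2.2.2.2.2.1,
    fun c hc => (h' c hc).2.2.2.2.2.2.2.2.2⟩
  · match i with
    | 0 => exact (h' c hc).1
    | 1 => exact (h' c hc).2.1
    | 2 => exact (h' c hc).2.2.1
  · match i with
    | 0 => exact (h' c hc).2.2.2.2.2.1
    | 1 => exact (h' c hc).2.2.2.2.2.2.1
    | 2 => exact (h' c hc).2.2.2.2.2.2.2.1

end Pool.Agent.H68.FibC
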