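import Pool.Agent.H68.FibC.Step
import Pool.Agent.H68.FibC.Tab

/-!
# FC-8: the certificate implies that the start pairs are full
-/

namespace Pool.Agent.H68.FibC

open Pool.Agent.H98.Fib Pool.Agent.H98.Fib.HTree

/-- The certificate. -/
structure Cert (tab : ℕ → CtxRow) (N : ℕ) (ct : ℕ → CtxD) (D : ℕ → ℕ → ℕ) (pl ph : ℕ) : Prop where
  tabOK : TabOK tab N
  ctxOK : ∀ c, c < N → ctxChk tab ct c = true
  pow : PowOK pl ph
  pair : ∀ a b, a ≤ b → b < N → ∃ K strm, chkPair ct D pl ph a b K strm = true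

theorem Pt.symm {D : ℕ → ℕ → ℕ} {V : View} {u w : List (Fin 3)} {t : ℝ} (h : Pt D V u w t) :
    Pt D V w u t := by
  obtain ⟨r, hr⟩ := h
  exact ⟨r, hr.symm⟩

/-! ### Auxiliary lemmas -/

theorem fin_an {x y : Bool} (h : an x y = true) : x = true ∧ y = true := by
  cases x <;> cases y <;> simp_all [an]

theorem fin_land_4095 (n : ℕ) : Nat.land n 4095 < 4096 := by
  have : Nat.land n 4095 ≤ 4095 := Nat.and_le_right
  omega

theorem fin_recOf_zero {cl idx n : ℕ} (h : Nat.shiftRight cl (Nat.mul 76 n) = 0) (hn : n ≤ idx) :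
    recOf cl idx = 0 := by
  have e : Nat.shiftRight cl (Nat.mul 76 idx) = 0 := by
    have h1 : cl >>> (76 * n) = 0 := h
    show cl >>> (76 * idx) = 0
    have h2 : 76 * idx = 76 * n + 76 * (idx - n) := by omega
    rw [h2, Nat.shiftRight_add, h1, Nat.zero_shiftRight]
  unfold recOf
  show Nat.land (Nat.shiftRight cl (Nat.mul 76 idx)) _ = 0
  rw [e]
  exact Nat.zero_and _

theorem fin_fkl_zero : fkl 0 = 0 := by decide

/-- all claims of a successful check are checked -/
theorem fin_claims {M : Tr Mv} {pl ph lu lw cl : ℕ} : ∀ (n idx0 strm : ℕ),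
    claims M pl ph lu lw cl n idx0 strm = true → ∀ idx, idx0 ≤ idx → idx < idx0 + n →
      ∃ (strm' : ℕ) (k : ℕ → Bool), claim M pl ph lu lw (recOf cl idx) strm' k = true := by
  intro n
  induction n with
  | zero => intro idx0 strm _ idx h1 h2; omega
  | succ n ih =>
    intro idx0 strm h idx h1 h2
    have h' : claim M pl ph lu lw (recOf cl idx0) strm
        (fun strm' => claims M pl ph lu lw cl n (Nat.succ idx0) strm') = true := h
    rcases Nat.eq_or_lt_of_le h1 with h3 | h3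
    · subst h3
      exact ⟨_, _, h'⟩
    · obtain ⟨strm', hs⟩ := claim_cont h'
      exact ih (Nat.succ idx0) strm' hs idx h3 (by omega)

/-- FC-8a. Every record of a checked pair has been checked. -/
theorem claim_of_chkPair {ct : ℕ → CtxD} {D : ℕ → ℕ → ℕ} {pl ph a b K strm : ℕ}
    (h : chkPair ct D pl ph a b K strm = true) {r : ℕ} (hr : Cl D a b r) :
    ∃ (strm' : ℕ) (k : ℕ → Bool), claim (mt (mkMv ct D pl ph a b K)) pl ph
      ((ct a).sd.get 3).ee.u ((ct b).sd.get 3).ee.w r strm' k = true := by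
  obtain ⟨h1, h2⟩ := fin_an h
  obtain ⟨hr0, idx, rfl⟩ := hr
  have h1' : Nat.shiftRight (D a b) (Nat.mul 76 (Nat.land strm 4095)) = 0 :=
    Nat.eq_of_beq_eq_true h1
  by_cases hidx : idx < Nat.land strm 4095
  · exact fin_claims _ _ _ h2 idx (Nat.zero_le _) (by simpa using hidx)
  · rw [fin_recOf_zero h1' (not_lt.1 hidx), fin_fkl_zero] at hr0
    exact absurd hr0 (lt_irrefl 0)

theorem fin_hyp {tab : ℕ → CtxRow} {N : ℕ} {mu : ℝ} {ct : ℕ → CtxD} {D : ℕ → ℕ → ℕ} {pl ph : ℕ}
    (C : Cert tab N ct D pl ph) {V : View} (hV : V.OK tab N mu) : Hyp tab N mu ct pl ph V :=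
  ⟨hV, ctOK_of_chk hV C.ctxOK, C.pow⟩

/-- the context of a child -/
theorem fin_nx {tab : ℕ → CtxRow} {N : ℕ} {mu : ℝ} {ct : ℕ → CtxD} {V : View}
    (hV : V.OK tab N mu) (hc : CtOK tab N ct V) (w : List (Fin 3)) {i : ℕ} (hi : i < 4) :
    (ct (V.ctx w)).nx.get i = V.ctx (cw i w) := by
  have hlt := hV.lt w
  interval_cases i
  · have h := hc.nx _ hlt 0
    have h2 := hV.step w 0
    exact h.trans h2.symm
  · have h := hc.nx _ hlt 1
    have h2 := hV.step w 1
    exact h.trans h2.symm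
  · have h := hc.nx _ hlt 2
    have h2 := hV.step w 2
    exact h.trans h2.symm
  · exact hc.nx3 _ hlt

/-- one step for a claim of the pair `(u, w)` -/
theorem fin_step {tab : ℕ → CtxRow} {N : ℕ} {mu : ℝ} {ct : ℕ → CtxD} {D : ℕ → ℕ → ℕ} {pl ph : ℕ}
    (C : Cert tab N ct D pl ph) {V : View} (hV : V.OK tab N mu) {u w : List (Fin 3)} {t : ℝ}
    {r : ℕ} (hle : V.ctx u ≤ V.ctx w) (hr : Cl D (V.ctx u) (V.ctx w) r) (h : InC V r u w t) :
    ∃ i j : ℕ, i < 4 ∧ j < 4 ∧ i + j < 6 ∧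
      (Pt D V (cw i u) (cw j w) t ∨
        Pt D (V.mir fun c => (tab c).mir) (mw (cw i u)) (mw (cw j w)) (-t)) := by
  obtain ⟨K, strm, hK⟩ := C.pair _ _ hle (hV.lt w)
  obtain ⟨strm', k, hcl⟩ := claim_of_chkPair hK hr
  obtain ⟨i, j, rep, idx, hi, hj, hij, hpos, hin⟩ := claim_sound (fin_hyp C hV) D hcl h
  have hc := ctOK_of_chk hV C.ctxOK
  refine ⟨i, j, hi, hj, hij, ?_⟩
  cases rep with
  | false =>
    left
    have ea : (mkMv ct D pl ph (V.ctx u) (V.ctx w) K i j false).sw =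
        Nat.blt (V.ctx (cw j w)) (V.ctx (cw i u)) := by
      rw [← fin_nx hV hc u hi, ← fin_nx hV hc w hj]; rfl
    have eb : (mkMv ct D pl ph (V.ctx u) (V.ctx w) K i j false).cl =
        cd (Nat.blt (V.ctx (cw j w)) (V.ctx (cw i u))) (D (V.ctx (cw j w)) (V.ctx (cw i u)))
          (D (V.ctx (cw i u)) (V.ctx (cw j w))) := by
      rw [← fin_nx hV hc u hi, ← fin_nx hV hc w hj]; rfl
    rw [ea, eb] at hin
    rw [eb] at hpos
    cases hb : Nat.blt (V.ctx (cw j w)) (V.ctx (cw i u)) with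
    | false =>
      rw [hb] at hin hpos
      have hle' : V.ctx (cw i u) ≤ V.ctx (cw j w) := by
        by_contra hcon
        have : Nat.blt (V.ctx (cw j w)) (V.ctx (cw i u)) = true := by
          rw [Nat.blt_eq]; exact not_le.1 hcon
        rw [hb] at this
        exact Bool.false_ne_true this
      exact ⟨_, Or.inl ⟨hle', ⟨hpos, idx, rfl⟩, hin⟩⟩
    | true =>
      rw [hb] at hin hpos
      have hle' : V.ctx (cw j w) ≤ V.ctx (cw i u) := by
        rw [Nat.blt_eq] at hb
        exact hb.le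
      exact ⟨_, Or.inr ⟨hle', ⟨hpos, idx, rfl⟩, hin⟩⟩
  | true =>
    right
    have e1 : (ct ((ct (V.ctx u)).nx.get i)).mir =
        (V.mir fun c => (tab c).mir).ctx (mw (cw i u)) := by
      rw [fin_nx hV hc u hi, hc.mir _ (hV.lt _)]
      show _ = (tab (V.ctx (mw (mw (cw i u))))).mir
      rw [mw_mw]
    have e2 : (ct ((ct (V.ctx w)).nx.get j)).mir =
        (V.mir fun c => (tab c).mir).ctx (mw (cw j w)) := by
      rw [fin_nx hV hc w hj, hc.mir _ (hV.lt _)]
      show _ = (tab (V.ctx (mw (mw (cw j w))))).mir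
      rw [mw_mw]
    have ea : (mkMv ct D pl ph (V.ctx u) (V.ctx w) K i j true).sw =
        Nat.blt ((V.mir fun c => (tab c).mir).ctx (mw (cw j w)))
          ((V.mir fun c => (tab c).mir).ctx (mw (cw i u))) := by
      rw [← e1, ← e2]; rfl
    have eb : (mkMv ct D pl ph (V.ctx u) (V.ctx w) K i j true).cl =
        cd (Nat.blt ((V.mir fun c => (tab c).mir).ctx (mw (cw j w)))
            ((V.mir fun c => (tab c).mir).ctx (mw (cw i u))))
          (D ((V.mir fun c => (tab c).mir).ctx (mw (cw j w)))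
            ((V.mir fun c => (tab c).mir).ctx (mw (cw i u))))
          (D ((V.mir fun c => (tab c).mir).ctx (mw (cw i u)))
            ((V.mir fun c => (tab c).mir).ctx (mw (cw j w)))) := by
      rw [← e1, ← e2]; rfl
    rw [ea, eb] at hin
    rw [eb] at hpos
    cases hb : Nat.blt ((V.mir fun c => (tab c).mir).ctx (mw (cw j w)))
        ((V.mir fun c => (tab c).mir).ctx (mw (cw i u))) with
    | false =>
      rw [hb] at hin hpos
      have hle' : (V.mir fun c => (tab c).mir).ctx (mw (cw i u)) ≤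
          (V.mir fun c => (tab c).mir).ctx (mw (cw j w)) := by
        by_contra hcon
        have : Nat.blt ((V.mir fun c => (tab c).mir).ctx (mw (cw j w)))
            ((V.mir fun c => (tab c).mir).ctx (mw (cw i u))) = true := by
          rw [Nat.blt_eq]; exact not_le.1 hcon
        rw [hb] at this
        exact Bool.false_ne_true this
      exact ⟨_, Or.inl ⟨hle', ⟨hpos, idx, rfl⟩, hin⟩⟩
    | true =>
      rw [hb] at hin hpos
      have hle' : (V.mir fun c => (tab c).mir).ctx (mw (cw j w)) ≤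
          (V.mir fun c => (tab c).mir).ctx (mw (cw i u)) := by
        rw [Nat.blt_eq] at hb
        exact hb.le
      exact ⟨_, Or.inr ⟨hle', ⟨hpos, idx, rfl⟩, hin⟩⟩

/-- FC-8b. One step. -/
theorem Pt.step {tab : ℕ → CtxRow} {N : ℕ} {mu : ℝ} {ct : ℕ → CtxD} {D : ℕ → ℕ → ℕ} {pl ph : ℕ}
    (C : Cert tab N ct D pl ph) {V : View} (hV : V.OK tab N mu) {u w : List (Fin 3)} {t : ℝ}
    (h : Pt D V u w t) : ∃ i j : ℕ, i < 4 ∧ j < 4 ∧ i + j < 6 ∧
      (Pt D V (cw i u) (cw j w) t ∨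
        Pt D (V.mir fun c => (tab c).mir) (mw (cw i u)) (mw (cw j w)) (-t)) := by
  obtain ⟨r, h1 | h1⟩ := h
  · exact fin_step C hV h1.1 h1.2.1 h1.2.2
  · obtain ⟨i, j, hi, hj, hij, h2⟩ := fin_step C hV h1.1 h1.2.1 h1.2.2
    exact ⟨j, i, hj, hi, by omega, h2.imp Pt.symm Pt.symm⟩

/-- The points of the claims lie in the hulls. -/
theorem Pt.hull {tab : ℕ → CtxRow} {N : ℕ} {mu : ℝ} {ct : ℕ → CtxD} {D : ℕ → ℕ → ℕ} {pl ph : ℕ}
    (C : Cert tab N ct D pl ph) {V : View} (hV : V.OK tab N mu) {u w : List (Fin 3)} {t : ℝ}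
    (h : Pt D V u w t) : V.T.hl u + V.T.hl w ≤ t ∧ t ≤ V.T.hr u + V.T.hr w := by
  obtain ⟨r, ⟨hle, hr, hin⟩ | ⟨hle, hr, hin⟩⟩ := h
  · obtain ⟨K, strm, hK⟩ := C.pair _ _ hle (hV.lt w)
    obtain ⟨strm', k, hcl⟩ := claim_of_chkPair hK hr
    exact claim_hull (fin_hyp C hV) _ hcl hin
  · obtain ⟨K, strm, hK⟩ := C.pair _ _ hle (hV.lt u)
    obtain ⟨strm', k, hcl⟩ := claim_of_chkPair hK hr
    obtain ⟨h1, h2⟩ := claim_hull (fin_hyp C hV) _ hcl hin
    exact ⟨by linarith, by linarith⟩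

theorem fin_fk0 (r : ℕ) : fk0 r < 4096 := fin_land_4095 r

theorem fin_fkl (r : ℕ) : fkl r < 4096 := by
  have : fkl r ≤ 4095 := Nat.and_le_right
  omega

/-- The ratios of the pairs are bounded. -/
theorem Pt.ratio {tab : ℕ → CtxRow} {N : ℕ} {mu : ℝ} {ct : ℕ → CtxD} {D : ℕ → ℕ → ℕ} {pl ph : ℕ}
    (C : Cert tab N ct D pl ph) : ∃ R : ℝ, 0 ≤ R ∧ ∀ V : View, V.OK tab N mu →
      ∀ (u w : List (Fin 3)) (t : ℝ), Pt D V u w t →
        V.T.len w ≤ R * V.T.len u ∧ V.T.len u ≤ R * V.T.len w := by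
  have g0 := gk_pos 0
  have g1 := gk_pos 8200
  have key : ∀ V : View, V.OK tab N mu → ∀ (u w : List (Fin 3)) (t : ℝ) (r : ℕ), InC V r u w t →
      V.T.len w ≤ (8192 * gk 8200) * V.T.len u ∧ V.T.len u ≤ (8192 / gk 0) * V.T.len w := by
    intro V hV u w t r h
    obtain ⟨h1, h2, _, _⟩ := h
    obtain ⟨u1, u2⟩ := View.len_bd hV C.tabOK u
    obtain ⟨w1, w2⟩ := View.len_bd hV C.tabOK w
    have hu := hV.A_pos u
    have hw := hV.A_pos w
    have k1 : gk 0 ≤ gk (fk0 r) := gk_mono (Nat.zero_le _)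
    have k2 : gk (fk0 r + fkl r) ≤ gk 8200 := by
      apply gk_mono
      have := fin_fk0 r
      have := fin_fkl r
      omega
    constructor
    · calc V.T.len w ≤ 8 * V.A w := w2
        _ ≤ 8 * (gk 8200 * V.A u) := by
          have := mul_le_mul_of_nonneg_right k2 hu.le
          linarith
        _ ≤ 8 * (gk 8200 * (1024 * V.T.len u)) := by
          have := mul_le_mul_of_nonneg_left u1 g1.le
          linarith
        _ = (8192 * gk 8200) * V.T.len u := by ring
    · have e1 : gk 0 * V.A u ≤ V.A w := (mul_le_mul_of_nonneg_right k1 hu.le).trans h1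
      rw [div_mul_eq_mul_div, le_div_iff₀ g0]
      calc V.T.len u * gk 0 ≤ (8 * V.A u) * gk 0 := mul_le_mul_of_nonneg_right u2 g0.le
        _ = 8 * (gk 0 * V.A u) := by ring
        _ ≤ 8 * V.A w := by linarith
        _ ≤ 8192 * V.T.len w := by linarith
  have h0 : 0 ≤ 8192 * gk 8200 := by positivity
  have h0' : 0 ≤ 8192 / gk 0 := by positivity
  refine ⟨8192 * gk 8200 + 8192 / gk 0, by positivity, ?_⟩
  intro V hV u w t h
  have lu := V.T.len_pos u
  have lw := V.T.len_pos w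
  have m1 := mul_nonneg h0 lu.le
  have m2 := mul_nonneg h0' lu.le
  have m3 := mul_nonneg h0 lw.le
  have m4 := mul_nonneg h0' lw.le
  obtain ⟨r, ⟨_, _, hin⟩ | ⟨_, _, hin⟩⟩ := h
  · obtain ⟨a1, a2⟩ := key V hV u w t r hin
    constructor <;> rw [add_mul] <;> linarith
  · obtain ⟨a1, a2⟩ := key V hV w u t r hin
    constructor <;> rw [add_mul] <;> linarith

/-- children as words -/
theorem fin_cw {i : ℕ} (hi : i < 4) : ∃ v : List (Fin 3), (i < 3 → v ≠ []) ∧
    ∀ u, cw i u = v ++ u := by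
  interval_cases i
  · exact ⟨[0], fun _ => by simp, fun u => rfl⟩
  · exact ⟨[1], fun _ => by simp, fun u => rfl⟩
  · exact ⟨[2], fun _ => by simp, fun u => rfl⟩
  · exact ⟨[], fun h => absurd h (by omega), fun u => rfl⟩

/-- FC-8c. Points of claims are sums. -/
theorem Pt.sum {tab : ℕ → CtxRow} {N : ℕ} {mu : ℝ} {ct : ℕ → CtxD} {D : ℕ → ℕ → ℕ} {pl ph : ℕ}
    (C : Cert tab N ct D pl ph) {V : View} (hV : V.OK tab N mu) {u w : List (Fin 3)} {t : ℝ}
    (h : Pt D V u w t) : ∃ x ∈ V.T.K u, ∃ y ∈ V.T.K w, t = x + y := by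
  obtain ⟨R, hR, hRat⟩ := Pt.ratio (mu := mu) C
  have hV' := View.mir_ok hV C.tabOK
  have hVV := View.mir_mir hV C.tabOK
  refine V.T.cov_of_step' (θ := 1 / 2) (R := R) (by norm_num) (by norm_num) hR ?_
    (fun u w t => Pt D V u w t ∨ Pt D (V.mir fun c => (tab c).mir) (mw u) (mw w) (-t))
    ?_ ?_ ?_ u w t (Or.inl h)
  · intro w i
    have := hV.half w i
    linarith
  · rintro u w t (h | h)
    · exact Pt.hull C hV h
    · obtain ⟨h1, h2⟩ := Pt.hull C hV' h
      have e : ∀ v, (V.mir fun c => (tab c).mir).T.hl (mw v) = - V.T.hr v := by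
        intro v
        show - V.T.hr (mw (mw v)) = _
        rw [mw_mw]
      have e' : ∀ v, (V.mir fun c => (tab c).mir).T.hr (mw v) = - V.T.hl v := by
        intro v
        show - V.T.hl (mw (mw v)) = _
        rw [mw_mw]
      rw [e, e] at h1
      rw [e', e'] at h2
      exact ⟨by linarith, by linarith⟩
  · rintro u w t (h | h)
    · exact hRat V hV u w t h
    · have h1 := hRat _ hV' _ _ _ h
      have e : ∀ v, (V.mir fun c => (tab c).mir).T.len (mw v) = V.T.len v := by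
        intro v
        show V.T.mirror.len (mw v) = _
        rw [mirror_len]
        show V.T.len (mw (mw v)) = _
        rw [mw_mw]
      rw [e, e] at h1
      exact h1
  · rintro u w t (h | h)
    · obtain ⟨i, j, hi, hj, hij, h1⟩ := Pt.step C hV h
      obtain ⟨v, hv, hvu⟩ := fin_cw hi
      obtain ⟨v', hv', hvw⟩ := fin_cw hj
      refine ⟨v, v', ?_, ?_⟩
      · by_cases h3 : i < 3
        · exact Or.inl (hv h3)
        · exact Or.inr (hv' (by omega))
      · rw [hvu, hvw] at h1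
        exact h1
    · obtain ⟨i, j, hi, hj, hij, h1⟩ := Pt.step C hV' h
      rw [hVV, neg_neg] at h1
      have aux : ∀ {i : ℕ}, i < 4 → ∃ i', i' < 4 ∧ (i < 3 → i' < 3) ∧
          ∀ v, cw i (mw v) = mw (cw i' v) := by
        intro i hi
        refine ⟨if i < 3 then 2 - i else i, by split_ifs <;> omega, ?_, ?_⟩
        · intro h; rw [if_pos h]; omega
        · intro v
          rw [mw_cw]
          congr 1
          split_ifs <;> omega
      obtain ⟨i', hi', hi3, hiv⟩ := aux hi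
      obtain ⟨j', hj', hj3, hjv⟩ := aux hj
      obtain ⟨v, hv, hvu⟩ := fin_cw hi'
      obtain ⟨v', hv', hvw⟩ := fin_cw hj'
      refine ⟨v, v', ?_, ?_⟩
      · by_cases h3 : i < 3
        · exact Or.inl (hv (hi3 h3))
        · exact Or.inr (hv' (hj3 (by omega)))
      · rw [hiv, hjv, mw_mw, mw_mw, hvu, hvw] at h1
        exact h1.symm

/-- the records of a successful check of a range cover the range -/
theorem fin_full {mv : Mv} {V : View} {w : List (Fin 3)} {i j : ℕ} (hA : ∀ w, 0 < V.A w)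
    (mc : ℕ → ℕ) (hrep : mv.rep = false)
    (hke : V.A (cw j w) ≤ gk mv.ke * V.A (cw i w)) {t : ℝ}
    (h1 : V.T.hl (cw i w) + V.T.hl (cw j w) ≤ t) (h2 : t ≤ V.T.hr (cw i w) + V.T.hr (cw j w)) :
    ∀ (l : List ℕ) (kk : ℕ), chkFull mv l kk = true → gk kk * V.A (cw i w) ≤ V.A (cw j w) →
      (l ≠ [] ∨ gk kk * V.A (cw i w) < V.A (cw j w)) →
      ∃ idx, 0 < fkl (recOf mv.cl idx) ∧
        InM mc V w w i j mv.rep mv.sw (recOf mv.cl idx) t := by
  intro l
  induction l with
  | nil =>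
    intro kk h hkk hne
    rcases hne with hne | hne
    · exact absurd rfl hne
    · exfalso
      have h3 : mv.ke ≤ kk := Nat.le_of_ble_eq_true h
      have h4 := mul_le_mul_of_nonneg_right (gk_mono h3) (hA (cw i w)).le
      linarith
  | cons idx l ih =>
    intro kk h hkk _
    have h' : an (Nat.ble (mv.lo (recOf mv.cl idx)) kk)
      (an (Nat.blt kk (mv.hi (recOf mv.cl idx)))
        (an (Nat.beq (Nat.add (fSu (recOf mv.cl idx)) (fSw (recOf mv.cl idx))) 0)
          (an (fEnd (recOf mv.cl idx)) (chkFull mv l (mv.hi (recOf mv.cl idx)))))) = true := h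
    obtain ⟨a1, a2⟩ := fin_an h'
    obtain ⟨a2, a3⟩ := fin_an a2
    obtain ⟨a3, a4⟩ := fin_an a3
    obtain ⟨a4, a5⟩ := fin_an a4
    have b1 : mv.lo (recOf mv.cl idx) ≤ kk := Nat.le_of_ble_eq_true a1
    have b2 : kk < mv.hi (recOf mv.cl idx) := by rwa [Nat.blt_eq] at a2
    have b3 : fSu (recOf mv.cl idx) + fSw (recOf mv.cl idx) = 0 := Nat.eq_of_beq_eq_true a3
    have b3u : fSu (recOf mv.cl idx) = 0 := by omega
    have b3w : fSw (recOf mv.cl idx) = 0 := by omega
    by_cases hhi : V.A (cw j w) ≤ gk (mv.hi (recOf mv.cl idx)) * V.A (cw i w)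
    · refine ⟨idx, ?_, ?_⟩
      · have hlt : mv.lo (recOf mv.cl idx) < mv.hi (recOf mv.cl idx) := lt_of_le_of_lt b1 b2
        unfold Mv.lo Mv.hi at hlt
        cases hsw : mv.sw with
        | false =>
          rw [hsw] at hlt
          have : fk0 (recOf mv.cl idx) < fk0 (recOf mv.cl idx) + fkl (recOf mv.cl idx) := hlt
          omega
        | true =>
          rw [hsw] at hlt
          have : 4096 - (fk0 (recOf mv.cl idx) + fkl (recOf mv.cl idx)) <
            4096 - fk0 (recOf mv.cl idx) := hlt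
          omega
      · apply inM_left mc hA hrep
        · exact (mul_le_mul_of_nonneg_right (gk_mono b1) (hA (cw i w)).le).trans hkk
        · exact hhi
        · have e1 : mv.Su (recOf mv.cl idx) = 0 := by
            unfold Mv.Su
            cases mv.sw
            · exact b3u
            · exact b3w
          have e2 : mv.Sw (recOf mv.cl idx) = 0 := by
            unfold Mv.Sw
            cases mv.sw
            · exact b3w
            · exact b3u
          rw [e1, e2]
          simp only [Nat.cast_zero, zero_div, zero_mul, add_zero]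
          linarith
        · exact Or.inl ⟨a4, h2⟩
    · push Not at hhi
      exact ih _ a5 hhi.le (Or.inr hhi)

/-- FC-8. -/
theorem full_of_cert {tab : ℕ → CtxRow} {N : ℕ} {mu : ℝ} {ct : ℕ → CtxD} {D : ℕ → ℕ → ℕ}
    {pl ph : ℕ} (C : Cert tab N ct D pl ph) {V : View} (hV : V.OK tab N mu) {a K i j : ℕ}
    {l : List ℕ} (hl : l ≠ []) (hi : i < 3) (hj : j < 3)
    (hs : chkStart ct D pl ph a K i j l = true)
    {w : List (Fin 3)} (hw : V.ctx w = a) : V.T.Full (cw i w) (cw j w) := by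
  subst hw
  have hc := ctOK_of_chk hV C.ctxOK
  have hlt := hV.lt w
  obtain ⟨hok, hfull⟩ := fin_an hs
  have hA := hV.A_pos
  have hrat := ratio_left hV C.pow (u := w) (w := w) (i := i) (j := j)
    (sa := (ct (V.ctx w)).sd.get i) (sb := (ct (V.ctx w)).sd.get j)
    (hc.sdL w i (by omega)) (hc.sdL w j (by omega)) (hc.bd _ hlt i (by omega) false).upos D _ _
    (a0 := Nat.beq (Nat.add i j) 0) ?_
    (ks := (mkMv ct D pl ph (V.ctx w) (V.ctx w) K i j false).ks)
    (ke := (mkMv ct D pl ph (V.ctx w) (V.ctx w) K i j false).ke)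
    (fin_land_4095 _) (fin_land_4095 _) hok (k0 := 2048) (k1 := 2048) (by omega)
    (by rw [gk_one, one_mul]) (by rw [gk_one, one_mul])
  · obtain ⟨r1, r2⟩ := hrat
    rw [show 2048 + (mkMv ct D pl ph (V.ctx w) (V.ctx w) K i j false).ks - 2048 =
      (mkMv ct D pl ph (V.ctx w) (V.ctx w) K i j false).ks by omega] at r1
    have r3 := r2 (mkMv ct D pl ph (V.ctx w) (V.ctx w) K i j false).ke (by omega)
    intro t h1 h2
    obtain ⟨idx, hpos, hin⟩ := fin_full hA (fun c => (tab c).mir)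
      (mv := mkMv ct D pl ph (V.ctx w) (V.ctx w) K i j false) rfl r3 h1 h2 l _ hfull r1 (Or.inl hl)
    apply Pt.sum C hV (D := D)
    have ea : (mkMv ct D pl ph (V.ctx w) (V.ctx w) K i j false).sw =
        Nat.blt (V.ctx (cw j w)) (V.ctx (cw i w)) := by
      rw [← fin_nx hV hc w (show i < 4 by omega), ← fin_nx hV hc w (show j < 4 by omega)]; rfl
    have eb : (mkMv ct D pl ph (V.ctx w) (V.ctx w) K i j false).cl =
        cd (Nat.blt (V.ctx (cw j w)) (V.ctx (cw i w))) (D (V.ctx (cw j w)) (V.ctx (cw i w)))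
          (D (V.ctx (cw i w)) (V.ctx (cw j w))) := by
      rw [← fin_nx hV hc w (show i < 4 by omega), ← fin_nx hV hc w (show j < 4 by omega)]; rfl
    rw [ea, eb] at hin
    rw [eb] at hpos
    cases hb : Nat.blt (V.ctx (cw j w)) (V.ctx (cw i w)) with
    | false =>
      rw [hb] at hin hpos
      have hle' : V.ctx (cw i w) ≤ V.ctx (cw j w) := by
        by_contra hcon
        have : Nat.blt (V.ctx (cw j w)) (V.ctx (cw i w)) = true := by
          rw [Nat.blt_eq]; exact not_le.1 hcon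
        rw [hb] at this
        exact Bool.false_ne_true this
      exact ⟨_, Or.inl ⟨hle', ⟨hpos, idx, rfl⟩, hin⟩⟩
    | true =>
      rw [hb] at hin hpos
      have hle' : V.ctx (cw j w) ≤ V.ctx (cw i w) := by
        rw [Nat.blt_eq] at hb
        exact hb.le
      exact ⟨_, Or.inr ⟨hle', ⟨hpos, idx, rfl⟩, hin⟩⟩
  · intro h
    have h' : i + j = 0 := Nat.eq_of_beq_eq_true h
    omega

/-- The same for a family of `Interface.lean`. -/
theorem full_of_fam {tab : ℕ → CtxRow} {N : ℕ} {ct : ℕ → CtxD} {D : ℕ → ℕ → ℕ}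
    {pl ph : ℕ} (C : Cert tab N ct D pl ph) {c0 : ℕ} (hc0 : c0 < N) {T : HTree}
    {A B : List (Fin 3) → ℝ} {mu : ℝ} {ctx : List (Fin 3) → ℕ} {x n : List (Fin 3) → ℝ}
    (F : Fam tab c0 T A B mu ctx x n) {K i j : ℕ} {l : List ℕ} (hl : l ≠ []) (hi : i < 3)
    (hj : j < 3) (w : List (Fin 3)) (hs : chkStart ct D pl ph (ctx w) K i j l = true) :
    T.Full (cw i w) (cw j w) := by
  have hlt : ∀ w, ctx w < N := by
    intro w
    induction w with
    | nil => rw [F.root]; exact hc0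
    | cons i w ih => rw [F.step]; exact C.tabOK.nx_lt _ ih i
  exact full_of_cert C (V := ⟨T, A, B, ctx, x, n⟩) (mu := mu)
    ⟨by have := F.mu_gt; linarith, F.A_pos, F.B_pos, F.A_zero, F.B_two, F.abs_x, F.abs_n, hlt,
      F.step, F.half, F.left, F.right⟩ hl hi hj hs rfl

end Pool.Agent.H68.FibC
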