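import Pool.Agent.H68.FibC.Sem

/-!
# FC-5: the mirror image of a view
-/

namespace Pool.Agent.H68.FibC

open Pool.Agent.H98.Fib Pool.Agent.H98.Fib.HTree

theorem mw_mw (w : List (Fin 3)) : mw (mw w) = w := map_mirL_mirL w

theorem mirror_mirror (T : HTree) : T.mirror.mirror = T := by
  have h1 : T.mirror.mirror.hl = T.hl := by
    funext w
    change - (- T.hl ((w.map mirL).map mirL)) = T.hl w
    rw [map_mirL_mirL, neg_neg]
  have h2 : T.mirror.mirror.hr = T.hr := by
    funext w
    change - (- T.hr ((w.map mirL).map mirL)) = T.hr w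
    rw [map_mirL_mirL, neg_neg]
  generalize T.mirror.mirror = S at h1 h2
  cases S
  cases T
  simp only at h1 h2
  subst h1 h2
  rfl

/-- The mirror image of a child is a child of the mirror image. -/
theorem mw_cw (i : ℕ) (w : List (Fin 3)) : mw (cw i w) = cw (if i < 3 then 2 - i else i) (mw w) := by
  match i with
  | 0 => rfl
  | 1 => rfl
  | 2 => rfl
  | i + 3 =>
    rw [if_neg (by omega)]
    rfl

theorem View.mir_mir {tab : ℕ → CtxRow} {N : ℕ} {mu : ℝ} {V : View} (hV : V.OK tab N mu)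
    (hT : TabOK tab N) : (V.mir fun c => (tab c).mir).mir (fun c => (tab c).mir) = V := by
  have hA : (fun w => V.A (mw (mw w))) = V.A := by funext w; rw [mw_mw]
  have hB : (fun w => V.B (mw (mw w))) = V.B := by funext w; rw [mw_mw]
  have hc : (fun w => (tab (tab (V.ctx (mw (mw w)))).mir).mir) = V.ctx := by
    funext w
    rw [mw_mw, hT.mir_mir _ (hV.lt w)]
  have hx : (fun w => -(-(V.x (mw (mw w))))) = V.x := by funext w; rw [mw_mw, neg_neg]
  have hn : (fun w => -(-(V.n (mw (mw w))))) = V.n := by funext w; rw [mw_mw, neg_neg]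
  change View.mk V.T.mirror.mirror (fun w => V.A (mw (mw w))) (fun w => V.B (mw (mw w)))
    (fun w => (tab (tab (V.ctx (mw (mw w)))).mir).mir) (fun w => -(-(V.x (mw (mw w)))))
    (fun w => -(-(V.n (mw (mw w))))) = V
  rw [hA, hB, hc, hx, hn, mirror_mirror]

theorem View.mir_ok {tab : ℕ → CtxRow} {N : ℕ} {mu : ℝ} {V : View} (hV : V.OK tab N mu)
    (hT : TabOK tab N) : (V.mir fun c => (tab c).mir).OK tab N mu where
  mu_pos := hV.mu_pos
  A_pos w := hV.B_pos (mw w)
  B_pos w := hV.A_pos (mw w)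
  A_zero w := hV.B_two (mw w)
  B_two w := hV.A_zero (mw w)
  abs_x w := by
    change |-(V.x (mw w))| ≤ 1
    rw [abs_neg]
    exact hV.abs_x _
  abs_n w := by
    change |-(V.n (mw w))| ≤ 1
    rw [abs_neg]
    exact hV.abs_n _
  lt w := hT.mir_lt _ (hV.lt _)
  step w i := by
    change (tab (V.ctx (mirL i :: mw w))).mir = (tab (tab (V.ctx (mw w))).mir).nx i
    rw [hV.step, hT.mir_nx _ (hV.lt _)]
  half w i := by
    change 2 * V.T.mirror.len (i :: w) ≤ V.T.mirror.len w
    rw [mirror_len, mirror_len]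
    exact hV.half (w.map mirL) (mirL i)
  left w := by
    have h := hV.right (mw w)
    have e : (mw w).map mirL = w := mw_mw w
    rw [e] at h
    exact h
  right w := by
    have h := hV.left (mw w)
    have hA : (fun v : List (Fin 3) => V.A (mw (v.map mirL))) = V.A := by
      funext v
      exact congrArg V.A (mw_mw v)
    have hB : (fun v : List (Fin 3) => V.B (mw (v.map mirL))) = V.B := by
      funext v
      exact congrArg V.B (mw_mw v)
    change (tab (tab (tab (V.ctx (mw w))).mir).mir).Holds V.T.mirror.mirror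
      (fun v => V.A (mw (v.map mirL))) (fun v => V.B (mw (v.map mirL))) (mw w)
      (-(-(V.x (mw w)))) (-(-(V.n (mw w))))
    rw [hA, hB, mirror_mirror, neg_neg, neg_neg, hT.mir_mir _ (hV.lt _)]
    exact h

/-- Bounds of the length in terms of the edge constant. -/
theorem View.len_bd {tab : ℕ → CtxRow} {N : ℕ} {mu : ℝ} {V : View} (hV : V.OK tab N mu)
    (hT : TabOK tab N) (w : List (Fin 3)) :
    V.A w ≤ 1024 * V.T.len w ∧ V.T.len w ≤ 8 * V.A w := by
  have h := (hV.left w).len
  have hA := hV.A_pos w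
  have hlo := hT.len_lo _ (hV.lt w)
  have hhi := hT.len_hi _ (hV.lt w)
  unfold Aff.Holds at h
  set f := (tab (V.ctx w)).len with hf
  have hlo' : (1024 : ℝ) ≤ f.c - |(f.s : ℝ)| - |(f.t : ℝ)| - f.e := by exact_mod_cast hlo
  have hhi' : (f.c : ℝ) + |(f.s : ℝ)| + |(f.t : ℝ)| + f.e ≤ 8388608 := by exact_mod_cast hhi
  have hx : |(f.s : ℝ) * V.x w| ≤ |(f.s : ℝ)| := by
    rw [abs_mul]
    exact mul_le_of_le_one_right (abs_nonneg _) (hV.abs_x w)
  have hn : |(f.t : ℝ) * V.n w| ≤ |(f.t : ℝ)| := by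
    rw [abs_mul]
    exact mul_le_of_le_one_right (abs_nonneg _) (hV.abs_n w)
  rw [abs_le] at hx hn h
  have h1 : 1 / 1024 ≤ V.T.len w / V.A w := by linarith
  have h2 : V.T.len w / V.A w ≤ 8 := by linarith
  rw [div_le_div_iff₀ (by norm_num) hA] at h1
  rw [div_le_iff₀ hA] at h2
  constructor <;> linarith

end Pool.Agent.H68.FibC
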