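import Pool.Agent.H68.FibC.Sem

/-!
# FC-1: the packed comparison
-/

namespace Pool.Agent.H68.FibC

/-- The vertex values as a function. -/
def Q4.at (q : Q4) : Fin 4 → ℕ
  | 0 => q.v0
  | 1 => q.v1
  | 2 => q.v2
  | 3 => q.v3

/-- The packed ends of the range of the ratio. -/
def rrP (R0 R1 : ℕ) : ℕ := (R0 + R1 * 2 ^ 64) * onW

/-- Packing of fields of 64 bits. -/
def pk : List ℕ → ℕ
  | [] => 0
  | x :: l => x + 18446744073709551616 * pk l

theorem land_field (a b c d : ℕ) (ha : a < 2 ^ 64) (hc : c < 2 ^ 64) :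
    Nat.land (a + 2 ^ 64 * b) (c + 2 ^ 64 * d) = Nat.land a c + 2 ^ 64 * Nat.land b d := by
  change (a + 2 ^ 64 * b) &&& (c + 2 ^ 64 * d) = (a &&& c) + 2 ^ 64 * (b &&& d)
  have hac : a &&& c < 2 ^ 64 := lt_of_le_of_lt Nat.and_le_left ha
  apply Nat.eq_of_testBit_eq
  intro i
  rw [Nat.testBit_and, Nat.add_comm a, Nat.add_comm c, Nat.add_comm (a &&& c),
    Nat.testBit_two_pow_mul_add _ ha, Nat.testBit_two_pow_mul_add _ hc,
    Nat.testBit_two_pow_mul_add _ hac]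
  split_ifs with h
  · rw [Nat.testBit_and]
  · rw [Nat.testBit_and]

theorem pk_ge (n : ℕ) : ∀ (E S : List ℕ), E.length = n → S.length = n →
    (∀ x ∈ S, x < 2 ^ 63) → pk S ≤ pk E + pk (List.replicate n (2 ^ 63)) := by
  induction n with
  | zero =>
    intro E S hE hS _
    rw [List.length_eq_zero_iff] at hE hS
    subst hE hS
    simp [pk]
  | succ n ih =>
    intro E S hE hS hb
    obtain ⟨e, E, rfl⟩ := List.exists_cons_of_length_eq_add_one hE
    obtain ⟨s, S, rfl⟩ := List.exists_cons_of_length_eq_add_one hS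
    have h1 := ih E S (by simpa using hE) (by simpa using hS)
      (fun x hx => hb x (List.mem_cons_of_mem _ hx))
    have h2 := hb s List.mem_cons_self
    rw [List.replicate_succ, pk, pk, pk]
    omega

theorem pk_sound (n : ℕ) : ∀ (E S : List ℕ), E.length = n → S.length = n →
    (∀ x ∈ E, x < 2 ^ 63) → (∀ x ∈ S, x < 2 ^ 63) →
    Nat.land (pk E + pk (List.replicate n (2 ^ 63)) - pk S) (pk (List.replicate n (2 ^ 63))) =
      pk (List.replicate n (2 ^ 63)) → List.Forall₂ (fun s e => s ≤ e) S E := by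
  induction n with
  | zero =>
    intro E S hE hS _ _ _
    rw [List.length_eq_zero_iff] at hE hS
    subst hE hS
    exact List.Forall₂.nil
  | succ n ih =>
    intro E S hE hS hbE hbS h
    obtain ⟨e, E, rfl⟩ := List.exists_cons_of_length_eq_add_one hE
    obtain ⟨s, S, rfl⟩ := List.exists_cons_of_length_eq_add_one hS
    have hS' : S.length = n := by simpa using hS
    have hE' : E.length = n := by simpa using hE
    have h1 := pk_ge n E S hE' hS' (fun x hx => hbS x (List.mem_cons_of_mem _ hx))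
    have hs := hbS s List.mem_cons_self
    have he := hbE e List.mem_cons_self
    rw [List.replicate_succ, pk, pk, pk] at h
    generalize hG : pk (List.replicate n (2 ^ 63)) = G at *
    have h2 : e + 18446744073709551616 * pk E + (2 ^ 63 + 18446744073709551616 * G) -
        (s + 18446744073709551616 * pk S) =
        (e + 2 ^ 63 - s) + 2 ^ 64 * (pk E + G - pk S) := by omega
    have h3 : (2 ^ 63 + 18446744073709551616 * G : ℕ) = 2 ^ 63 + 2 ^ 64 * G := by norm_num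
    rw [h2, h3, land_field _ _ _ _ (by omega) (by norm_num)] at h
    have h4 : Nat.land (e + 2 ^ 63 - s) (2 ^ 63) ≤ 2 ^ 63 := Nat.and_le_right
    have h5 : Nat.land (pk E + G - pk S) G ≤ G := Nat.and_le_right
    have h6 : Nat.land (e + 2 ^ 63 - s) (2 ^ 63) = 2 ^ 63 := by omega
    have h7 : Nat.land (pk E + G - pk S) G = G := by omega
    refine List.Forall₂.cons ?_ (ih E S hE' hS' (fun x hx => hbE x (List.mem_cons_of_mem _ hx))
      (fun x hx => hbS x (List.mem_cons_of_mem _ hx)) h7)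
    have h8 : 2 ^ 63 ≤ e + 2 ^ 63 - s := by
      calc 2 ^ 63 = Nat.land (e + 2 ^ 63 - s) (2 ^ 63) := h6.symm
        _ ≤ _ := Nat.and_le_left
    omega

/-- The 32 fields. -/
def flds (R0 R1 : ℕ) (q q' : Q4) : List ℕ :=
  [65536 * q.v0 + R0 * q'.v0, 65536 * q.v0 + R1 * q'.v0,
   65536 * q.v0 + R0 * q'.v1, 65536 * q.v0 + R1 * q'.v1,
   65536 * q.v0 + R0 * q'.v2, 65536 * q.v0 + R1 * q'.v2,
   65536 * q.v0 + R0 * q'.v3, 65536 * q.v0 + R1 * q'.v3,
   65536 * q.v1 + R0 * q'.v0, 65536 * q.v1 + R1 * q'.v0,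
   65536 * q.v1 + R0 * q'.v1, 65536 * q.v1 + R1 * q'.v1,
   65536 * q.v1 + R0 * q'.v2, 65536 * q.v1 + R1 * q'.v2,
   65536 * q.v1 + R0 * q'.v3, 65536 * q.v1 + R1 * q'.v3,
   65536 * q.v2 + R0 * q'.v0, 65536 * q.v2 + R1 * q'.v0,
   65536 * q.v2 + R0 * q'.v1, 65536 * q.v2 + R1 * q'.v1,
   65536 * q.v2 + R0 * q'.v2, 65536 * q.v2 + R1 * q'.v2,
   65536 * q.v2 + R0 * q'.v3, 65536 * q.v2 + R1 * q'.v3,
   65536 * q.v3 + R0 * q'.v0, 65536 * q.v3 + R1 * q'.v0,
   65536 * q.v3 + R0 * q'.v1, 65536 * q.v3 + R1 * q'.v1,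
   65536 * q.v3 + R0 * q'.v2, 65536 * q.v3 + R1 * q'.v2,
   65536 * q.v3 + R0 * q'.v3, 65536 * q.v3 + R1 * q'.v3]

theorem onW_eq : onW = 1 + 2 ^ 512 + (2 ^ 1024 + 2 ^ 1536) := by
  change 1 + 1 <<< 512 + (1 <<< 1024 + 1 <<< 1536) = _
  rw [Nat.shiftLeft_eq, Nat.shiftLeft_eq, Nat.shiftLeft_eq, one_mul, one_mul, one_mul]

theorem onU_eq : onU = 2 ^ 16 * (1 + 2 ^ 64 + 2 ^ 128 + 2 ^ 192 + 2 ^ 256 + 2 ^ 320 + 2 ^ 384 +
    2 ^ 448) := by rfl

theorem GD_eq : GD = pk (List.replicate 32 (2 ^ 63)) := by rfl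

theorem u_eq (q : Q4) : q.u = q.v0 + q.v1 * 2 ^ 512 + (q.v2 + q.v3 * 2 ^ 512) * 2 ^ 1024 := by
  change q.v0 + q.v1 <<< 512 + (q.v2 + q.v3 <<< 512) <<< 1024 = _
  rw [Nat.shiftLeft_eq, Nat.shiftLeft_eq, Nat.shiftLeft_eq]

theorem w_eq (q : Q4) : q.w = q.v0 + q.v1 * 2 ^ 128 + (q.v2 + q.v3 * 2 ^ 128) * 2 ^ 256 := by
  change q.v0 + q.v1 <<< 128 + (q.v2 + q.v3 <<< 128) <<< 256 = _
  rw [Nat.shiftLeft_eq, Nat.shiftLeft_eq, Nat.shiftLeft_eq]

theorem comb_eq (R0 R1 : ℕ) (q q' : Q4) :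
    comb (rrP R0 R1) q.u q'.w = pk (flds R0 R1 q q') := by
  change q.u * onU + q'.w * ((R0 + R1 * 2 ^ 64) * onW) = _
  rw [u_eq, w_eq, onU_eq, onW_eq]
  simp only [flds, pk]
  have e64 : (18446744073709551616 : ℕ) = 2 ^ 64 := by rfl
  have e128 : (2 : ℕ) ^ 128 = (2 ^ 64) ^ 2 := by rw [← pow_mul]
  have e192 : (2 : ℕ) ^ 192 = (2 ^ 64) ^ 3 := by rw [← pow_mul]
  have e256 : (2 : ℕ) ^ 256 = (2 ^ 64) ^ 4 := by rw [← pow_mul]
  have e320 : (2 : ℕ) ^ 320 = (2 ^ 64) ^ 5 := by rw [← pow_mul]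
  have e384 : (2 : ℕ) ^ 384 = (2 ^ 64) ^ 6 := by rw [← pow_mul]
  have e448 : (2 : ℕ) ^ 448 = (2 ^ 64) ^ 7 := by rw [← pow_mul]
  have e512 : (2 : ℕ) ^ 512 = (2 ^ 64) ^ 8 := by rw [← pow_mul]
  have e1024 : (2 : ℕ) ^ 1024 = (2 ^ 64) ^ 16 := by rw [← pow_mul]
  have e1536 : (2 : ℕ) ^ 1536 = (2 ^ 64) ^ 24 := by rw [← pow_mul]
  rw [e64, e128, e192, e256, e320, e384, e448, e512, e1024, e1536]
  generalize ((2 : ℕ) ^ 64) = t
  ring

theorem flds_bd {R0 R1 : ℕ} (hR0 : R0 < 4194304) (hR1 : R1 < 4194304) {q q' : Q4}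
    (hq : q.Bd) (hq' : q'.Bd) : ∀ x ∈ flds R0 R1 q q', x < 2 ^ 63 := by
  obtain ⟨a0, a1, a2, a3⟩ := hq
  obtain ⟨b0, b1, b2, b3⟩ := hq'
  have key : ∀ R < 4194304, ∀ v < 549755813888, ∀ v' < 549755813888,
      65536 * v + R * v' < 2 ^ 63 := by
    intro R hR v hv v' hv'
    have h1 : R * v' ≤ 4194304 * 549755813888 := Nat.mul_le_mul hR.le hv'.le
    have h2 : 65536 * v ≤ 65536 * 549755813888 := Nat.mul_le_mul le_rfl hv.le
    have h3 : 65536 * 549755813888 + 4194304 * 549755813888 < 2 ^ 63 := by norm_num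
    omega
  intro x hx
  simp only [flds, List.mem_cons, List.not_mem_nil, or_false] at hx
  rcases hx with h | h | h | h | h | h | h | h | h | h | h | h | h | h | h | h | h | h | h | h | h |
    h | h | h | h | h | h | h | h | h | h | h <;> rw [h] <;> apply key <;> assumption

theorem flds_le {R0 R1 : ℕ} {q q' p p' : Q4}
    (h : List.Forall₂ (fun s e => s ≤ e) (flds R0 R1 p p') (flds R0 R1 q q')) (a b : Fin 4) :
    65536 * p.at a + R0 * p'.at b ≤ 65536 * q.at a + R0 * q'.at b ∧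
      65536 * p.at a + R1 * p'.at b ≤ 65536 * q.at a + R1 * q'.at b := by
  simp only [flds, List.forall₂_cons, List.forall₂_nil_left_iff, and_true] at h
  obtain ⟨h0, h1, h2, h3, h4, h5, h6, h7, h8, h9, h10, h11, h12, h13, h14, h15, h16, h17, h18,
    h19, h20, h21, h22, h23, h24, h25, h26, h27, h28, h29, h30, h31⟩ := h
  fin_cases a <;> fin_cases b <;> constructor <;> assumption

/-- FC-1. The packed comparison implies the 32 comparisons of the fields.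
Proof: `comb (rrP R0 R1) q.u q'.w = ∑ a b e, 2 ^ (512 a + 128 b + 64 e) * (65536 q_a + R_e q'_b)`
(`ring` after unfolding `onU`, `onW`, `Q4.u`, `Q4.w`); every field is `< 2 ^ 63`; `GD` is the sum of
`2 ^ (64 f + 63)`, `f < 32`; if `land (E + GD - S) GD = GD` then bit 63 of every field
`E_f + 2 ^ 63 - S_f` (which lies in `(0, 2 ^ 64)`) is one, so `S_f ≤ E_f`. Induction on the number
of fields: `land X G = G` with `X = x + 2 ^ 64 X'`, `G = 2 ^ 63 + 2 ^ 64 G'`, `x < 2 ^ 64` gives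
`land x (2 ^ 63) = 2 ^ 63` and `land X' G' = G'`. -/
theorem geV_sound {R0 R1 : ℕ} (hR0 : R0 < 4194304) (hR1 : R1 < 4194304) {q q' p p' : Q4}
    (hq : q.Bd) (hq' : q'.Bd) (hp : p.Bd) (hp' : p'.Bd)
    (h : geV (comb (rrP R0 R1) q.u q'.w) (comb (rrP R0 R1) p.u p'.w) = true) (a b : Fin 4) :
    65536 * p.at a + R0 * p'.at b ≤ 65536 * q.at a + R0 * q'.at b ∧
      65536 * p.at a + R1 * p'.at b ≤ 65536 * q.at a + R1 * q'.at b := by
  have h1 : Nat.land (Nat.sub (Nat.add (comb (rrP R0 R1) q.u q'.w) GD)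
      (comb (rrP R0 R1) p.u p'.w)) GD = GD := Nat.eq_of_beq_eq_true h
  rw [comb_eq, comb_eq, GD_eq] at h1
  exact flds_le (pk_sound 32 _ _ rfl rfl (flds_bd hR0 hR1 hq hq') (flds_bd hR0 hR1 hp hp') h1) a b

end Pool.Agent.H68.FibC
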