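import Pool.Agent.H68.FibC.Sem

/-!
# FC-4: the range of the ratio of the children
-/

namespace Pool.Agent.H68.FibC

open Pool.Agent.H98.Fib Pool.Agent.H98.Fib.HTree

theorem gk_pos (k : ℕ) : 0 < gk k := zpow_pos (by norm_num) _

theorem gk_mono {k l : ℕ} (h : k ≤ l) : gk k ≤ gk l :=
  zpow_le_zpow_right₀ (by norm_num) (by omega)

theorem gk_strict {k l : ℕ} (h : k < l) : gk k < gk l :=
  zpow_lt_zpow_right₀ (by norm_num) (by omega)

/-- `γ^(k + l - 4096) = γ^(k - 2048) γ^(l - 2048)` -/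
theorem gk_mul {k l m : ℕ} (h : m + 2048 = k + l) : gk m = gk k * gk l := by
  unfold gk
  rw [← zpow_add₀ (by norm_num)]
  congr 1
  omega

/-- `1 / γ^(k - 2048) = γ^(2048 - k)` -/
theorem gk_inv {k l : ℕ} (h : k + l = 4096) : gk k * gk l = 1 := by
  unfold gk
  rw [← zpow_add₀ (by norm_num)]
  have : ((k : ℤ) - 2048 + ((l : ℤ) - 2048)) = 0 := by omega
  rw [this, zpow_zero]

theorem gk_one : gk 2048 = 1 := by
  unfold gk
  norm_num

theorem gk_mul_le {k l m : ℕ} (h : k + l ≤ m + 2048) : gk k * gk l ≤ gk m := by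
  unfold gk
  rw [← zpow_add₀ (by norm_num)]
  exact zpow_le_zpow_right₀ (by norm_num) (by omega)

theorem ratio_an {x y : Bool} (h : an x y = true) : x = true ∧ y = true := by
  cases x
  · exact absurd h (by simp [an])
  · exact ⟨rfl, h⟩

/-- The estimate for the ratios. -/
theorem ratio_aux {pl ph : ℕ} (hP : PowOK pl ph) {Au Aw au aw : ℝ} {alo ahi blo bhi : ℕ}
    (hAu : 0 < Au) (ha1 : (alo : ℝ) * Au ≤ 1048576 * au) (ha2 : 1048576 * au ≤ (ahi : ℝ) * Au)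
    (hb1 : (blo : ℝ) * Aw ≤ 1048576 * aw) (hb2 : 1048576 * aw ≤ (bhi : ℝ) * Aw)
    {ks ke : ℕ} (hks : ks < 4096) (hke : ke < 4096)
    (h1 : pLo ph ks * ahi ≤ blo * 2 ^ 30) (h2 : bhi * 2 ^ 30 ≤ pLo pl ke * alo)
    {k0 k1 : ℕ} (hk : 2048 ≤ k0 + ks) (hr0 : gk k0 * Au ≤ Aw) (hr1 : Aw ≤ gk k1 * Au) :
    gk (k0 + ks - 2048) * au ≤ aw ∧ ∀ kk, k1 + ke ≤ kk + 2048 → aw ≤ gk kk * au := by
  have e1 : gk ks * (ahi : ℝ) ≤ blo := by
    have h3 := hP.hi ks hks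
    have h4 : ((pLo ph ks * ahi : ℕ) : ℝ) ≤ ((blo * 2 ^ 30 : ℕ) : ℝ) := by exact_mod_cast h1
    push_cast at h4
    have h5 : 1073741824 * gk ks * (ahi : ℝ) ≤ (pLo ph ks : ℝ) * ahi :=
      mul_le_mul_of_nonneg_right h3 (Nat.cast_nonneg _)
    nlinarith
  have e2 : (bhi : ℝ) ≤ gk ke * alo := by
    have h3 := hP.lo ke hke
    have h4 : ((bhi * 2 ^ 30 : ℕ) : ℝ) ≤ ((pLo pl ke * alo : ℕ) : ℝ) := by exact_mod_cast h2
    push_cast at h4
    have h5 : (pLo pl ke : ℝ) * alo ≤ 1073741824 * gk ke * (alo : ℝ) :=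
      mul_le_mul_of_nonneg_right h3 (Nat.cast_nonneg _)
    nlinarith
  have g0 := gk_pos k0
  have gs := gk_pos ks
  have g1 := gk_pos k1
  have ge := gk_pos ke
  have hau : 0 ≤ au := by
    have : (0 : ℝ) ≤ (alo : ℝ) * Au := mul_nonneg (Nat.cast_nonneg _) hAu.le
    linarith
  constructor
  · rw [gk_mul (k := k0) (l := ks) (m := k0 + ks - 2048) (by omega)]
    have s1 : gk k0 * gk ks * (1048576 * au) ≤ gk k0 * gk ks * ((ahi : ℝ) * Au) :=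
      mul_le_mul_of_nonneg_left ha2 (mul_pos g0 gs).le
    have s2 : gk k0 * Au * (gk ks * (ahi : ℝ)) ≤ gk k0 * Au * blo :=
      mul_le_mul_of_nonneg_left e1 (mul_pos g0 hAu).le
    have s3 : gk k0 * Au * (blo : ℝ) ≤ Aw * blo :=
      mul_le_mul_of_nonneg_right hr0 (Nat.cast_nonneg _)
    nlinarith
  · intro kk hkk
    have s0 : gk k1 * gk ke ≤ gk kk := gk_mul_le hkk
    have hAw : 0 ≤ gk k1 * Au := (mul_pos g1 hAu).le
    have s1 : (bhi : ℝ) * Aw ≤ (bhi : ℝ) * (gk k1 * Au) :=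
      mul_le_mul_of_nonneg_left hr1 (Nat.cast_nonneg _)
    have s2 : (bhi : ℝ) * (gk k1 * Au) ≤ gk ke * alo * (gk k1 * Au) :=
      mul_le_mul_of_nonneg_right e2 hAw
    have s3 : gk k1 * gk ke * ((alo : ℝ) * Au) ≤ gk k1 * gk ke * (1048576 * au) :=
      mul_le_mul_of_nonneg_left ha1 (mul_pos g1 ge).le
    have s4 : gk k1 * gk ke * au ≤ gk kk * au := mul_le_mul_of_nonneg_right s0 hau
    nlinarith

/-- FC-4a. Left representation. -/
theorem ratio_left {tab : ℕ → CtxRow} {N : ℕ} {mu : ℝ} {V : View} (hV : V.OK tab N mu)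
    {pl ph : ℕ} (hP : PowOK pl ph) {u w : List (Fin 3)} {i j : ℕ} {sa sb : Sd}
    (ha : SdL V u i sa) (hb : SdL V w j sb) (hpos : 0 < sa.ulo) (D : ℕ → ℕ → ℕ) (xa xb : ℕ)
    {a0 ns fin : Bool} {ks ke : ℕ} (ha0 : a0 = true → i = 0 ∧ j = 0) (hks : ks < 4096)
    (hke : ke < 4096) (hok : (mkMv' D pl ph sa sb xa xb false a0 ns fin ks ke).ok = true)
    {k0 k1 : ℕ} (hk : 2048 ≤ k0 + ks) (h0 : gk k0 * V.A u ≤ V.A w) (h1 : V.A w ≤ gk k1 * V.A u) :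
    gk (k0 + ks - 2048) * V.A (cw i u) ≤ V.A (cw j w) ∧
      ∀ kk, k1 + ke ≤ kk + 2048 → V.A (cw j w) ≤ gk kk * V.A (cw i u) := by
  have hok' := (ratio_an hok).2
  cases a0 with
  | true =>
    obtain ⟨rfl, rfl⟩ := ha0 rfl
    have h2 := ratio_an (x := Nat.beq ks 2048) (y := Nat.beq ke 2048) hok'
    have hks' : ks = 2048 := Nat.eq_of_beq_eq_true h2.1
    have hke' : ke = 2048 := Nat.eq_of_beq_eq_true h2.2
    subst hks' hke'
    have hu := hV.A_zero u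
    have hw := hV.A_zero w
    rw [← hu, ← hw] at h0 h1
    change gk (k0 + 2048 - 2048) * V.A (0 :: u) ≤ V.A (0 :: w) ∧
      ∀ kk, k1 + 2048 ≤ kk + 2048 → V.A (0 :: w) ≤ gk kk * V.A (0 :: u)
    rw [Nat.add_sub_cancel]
    constructor
    · refine le_of_mul_le_mul_left ?_ hV.mu_pos
      calc mu * (gk k0 * V.A (0 :: u)) = gk k0 * (mu * V.A (0 :: u)) := by ring
        _ ≤ _ := h0
    · intro kk hkk
      have h3 : gk k1 ≤ gk kk := gk_mono (by omega)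
      refine le_of_mul_le_mul_left ?_ hV.mu_pos
      calc mu * V.A (0 :: w) ≤ gk k1 * (mu * V.A (0 :: u)) := h1
        _ ≤ gk kk * (mu * V.A (0 :: u)) :=
          mul_le_mul_of_nonneg_right h3 (mul_pos hV.mu_pos (hV.A_pos _)).le
        _ = mu * (gk kk * V.A (0 :: u)) := by ring
  | false =>
    have h2 := ratio_an (x := Nat.ble (Nat.mul (pLo ph ks) sa.uhi) (Nat.shiftLeft sb.ulo 30))
      (y := Nat.ble (Nat.shiftLeft sb.uhi 30) (Nat.mul (pLo pl ke) sa.ulo)) hok'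
    have h3 := Nat.le_of_ble_eq_true h2.1
    have h4 := Nat.le_of_ble_eq_true h2.2
    change pLo ph ks * sa.uhi ≤ sb.ulo <<< 30 at h3
    change sb.uhi <<< 30 ≤ pLo pl ke * sa.ulo at h4
    rw [Nat.shiftLeft_eq] at h3 h4
    exact ratio_aux hP (hV.A_pos u) ha.ulo ha.uhi hb.ulo hb.uhi hks hke h3 h4 hk h0 h1

/-- FC-4b. Right representation. -/
theorem ratio_right {tab : ℕ → CtxRow} {N : ℕ} {mu : ℝ} {V : View} (hV : V.OK tab N mu)
    {pl ph : ℕ} (hP : PowOK pl ph) {u w : List (Fin 3)} {i j : ℕ} {sa sb : Sd}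
    (ha : SdR V u i sa) (hb : SdR V w j sb) (hpos : 0 < sa.ulo) (D : ℕ → ℕ → ℕ) (xa xb : ℕ)
    {ns fin : Bool} {ks ke : ℕ} (hks : ks < 4096)
    (hke : ke < 4096) (hok : (mkMv' D pl ph sa sb xa xb true false ns fin ks ke).ok = true)
    {k0 k1 : ℕ} (hk : 2048 ≤ k0 + ks) (h0 : gk k0 * V.A u ≤ V.A w) (h1 : V.A w ≤ gk k1 * V.A u) :
    gk (k0 + ks - 2048) * V.B (cw i u) ≤ V.B (cw j w) ∧
      ∀ kk, k1 + ke ≤ kk + 2048 → V.B (cw j w) ≤ gk kk * V.B (cw i u) := by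
  have hok' := (ratio_an hok).2
  have h2 := ratio_an (x := Nat.ble (Nat.mul (pLo ph ks) sa.uhi) (Nat.shiftLeft sb.ulo 30))
    (y := Nat.ble (Nat.shiftLeft sb.uhi 30) (Nat.mul (pLo pl ke) sa.ulo)) hok'
  have h3 := Nat.le_of_ble_eq_true h2.1
  have h4 := Nat.le_of_ble_eq_true h2.2
  change pLo ph ks * sa.uhi ≤ sb.ulo <<< 30 at h3
  change sb.uhi <<< 30 ≤ pLo pl ke * sa.ulo at h4
  rw [Nat.shiftLeft_eq] at h3 h4
  exact ratio_aux hP (hV.A_pos u) ha.ulo ha.uhi hb.ulo hb.uhi hks hke h3 h4 hk h0 h1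

end Pool.Agent.H68.FibC
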