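import Pool.Agent.H68.FibC.Fin
import Pool.Agent.H68.FibC.Pow

/-!
# Rows of the certificate (problem MP_9069b3_mp, part C)
-/

namespace Pool.Agent.H68.FibC

open Pool.Agent.H98.Fib Pool.Agent.H98.Fib.HTree

theorem chkRow_sound {ct : ℕ → CtxD} {D : ℕ → ℕ → ℕ} {pl ph a : ℕ} : ∀ {l : List (ℕ × ℕ)} {b0 : ℕ},
    chkRow ct D pl ph a l b0 = true → ∀ b, b0 ≤ b → b < b0 + l.length →
      ∃ K strm, chkPair ct D pl ph a b K strm = true
  | [], b0, _, b, h1, h2 => by
    simp only [List.length_nil] at h2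
    omega
  | p :: l, b0, h, b, h1, h2 => by
    have h' : an (chkPair ct D pl ph a b0 p.1 p.2) (chkRow ct D pl ph a l (Nat.succ b0)) = true := h
    obtain ⟨h3, h4⟩ := an_true.mp h'
    rcases Nat.eq_or_lt_of_le h1 with rfl | h5
    · exact ⟨_, _, h3⟩
    · exact chkRow_sound h4 b h5 (by
        simp only [List.length_cons] at h2
        omega)

/-- The same for a list of a definite length. -/
theorem chkRow_sound' {ct : ℕ → CtxD} {D : ℕ → ℕ → ℕ} {pl ph a : ℕ} {l : List (ℕ × ℕ)} {b0 n : ℕ}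
    (h : chkRow ct D pl ph a l b0 = true) (hn : l.length = n) (b : ℕ) (h1 : b0 ≤ b)
    (h2 : b < b0 + n) : ∃ K strm, chkPair ct D pl ph a b K strm = true :=
  chkRow_sound h b h1 (by rw [hn]; exact h2)

end Pool.Agent.H68.FibC
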