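import Pool.Agent.H68.FibC.Chk

/-!
# Semantics of the coverage certificate (problem MP_9069b3_mp, part C)

* `View`: a hull tree with edge constants, contexts and parameters (used for the tree and for its
  mirror image).
* `InC V r u w t`: the point `t` lies in the interval of the claim with record `r` for the pair
  `(u, w)` of words of the view `V`.
* `Low`, `Up`: packed vectors as lower / upper bounds of real positions.
-/

namespace Pool.Agent.H68.FibC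

open Pool.Agent.H98.Fib Pool.Agent.H98.Fib.HTree

/-- The value at `(x, n)` of the bilinear interpolation of the vertex values. -/
noncomputable def Q4.ev (q : Q4) (x n : ℝ) : ℝ :=
  (1 + x) * (1 + n) / 4 * q.v0 + (1 + x) * (1 - n) / 4 * q.v1 +
    (1 - x) * (1 + n) / 4 * q.v2 + (1 - x) * (1 - n) / 4 * q.v3

/-- The child `i` of a word, the word itself for `i ≥ 3`. -/
def cw (i : ℕ) (w : List (Fin 3)) : List (Fin 3) :=
  match i with
  | 0 => 0 :: w
  | 1 => 1 :: w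
  | 2 => 2 :: w
  | _ => w

/-- A tree with edge constants, contexts and parameters. -/
structure View where
  T : HTree
  A : List (Fin 3) → ℝ
  B : List (Fin 3) → ℝ
  ctx : List (Fin 3) → ℕ
  x : List (Fin 3) → ℝ
  n : List (Fin 3) → ℝ

/-- The mirror image of a word. -/
def mw (w : List (Fin 3)) : List (Fin 3) := w.map mirL

/-- The mirror image of a view; `mc`: mirror images of the contexts. -/
def View.mir (V : View) (mc : ℕ → ℕ) : View where
  T := V.T.mirror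
  A w := V.B (mw w)
  B w := V.A (mw w)
  ctx w := mc (V.ctx (mw w))
  x w := -(V.x (mw w))
  n w := -(V.n (mw w))

/-- The view is described by the table `tab` with `N` contexts. -/
structure View.OK (tab : ℕ → CtxRow) (N : ℕ) (mu : ℝ) (V : View) : Prop where
  mu_pos : 0 < mu
  A_pos : ∀ w, 0 < V.A w
  B_pos : ∀ w, 0 < V.B w
  A_zero : ∀ w, mu * V.A (0 :: w) = V.A w
  B_two : ∀ w, mu * V.B (2 :: w) = V.B w
  abs_x : ∀ w, |V.x w| ≤ 1
  abs_n : ∀ w, |V.n w| ≤ 1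
  lt : ∀ w, V.ctx w < N
  step : ∀ w i, V.ctx (i :: w) = (tab (V.ctx w)).nx i
  half : ∀ w i, 2 * V.T.len (i :: w) ≤ V.T.len w
  left : ∀ w, (tab (V.ctx w)).Holds V.T V.A V.B w (V.x w) (V.n w)
  right : ∀ w, (tab (tab (V.ctx w)).mir).Holds V.T.mirror (fun v => V.B (v.map mirL))
    (fun v => V.A (v.map mirL)) (w.map mirL) (-(V.x w)) (-(V.n w))

/-- Properties of the table of contexts, checked by evaluation. -/
structure TabOK (tab : ℕ → CtxRow) (N : ℕ) : Prop where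
  nx_lt : ∀ c, c < N → ∀ i, (tab c).nx i < N
  mir_lt : ∀ c, c < N → (tab c).mir < N
  mir_mir : ∀ c, c < N → (tab (tab c).mir).mir = c
  mir_nx : ∀ c, c < N → ∀ i, (tab ((tab c).nx (mirL i))).mir = (tab (tab c).mir).nx i
  len_lo : ∀ c, c < N → 1024 ≤ (tab c).len.c - |(tab c).len.s| - |(tab c).len.t| - (tab c).len.e
  len_hi : ∀ c, c < N → (tab c).len.c + |(tab c).len.s| + |(tab c).len.t| + (tab c).len.e ≤ 8388608

/-- `γ^(k - 2048)`, `γ = 401/400` -/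
noncomputable def gk (k : ℕ) : ℝ := (401 / 400 : ℝ) ^ ((k : ℤ) - 2048)

/-- `t` lies in the interval of the claim `r` for the pair `(u, w)`. -/
def InC (V : View) (r : ℕ) (u w : List (Fin 3)) (t : ℝ) : Prop :=
  gk (fk0 r) * V.A u ≤ V.A w ∧ V.A w ≤ gk (fk0 r + fkl r) * V.A u ∧
  (fSu r : ℝ) / 4096 * V.A u + (fSw r : ℝ) / 4096 * V.A w ≤ t - V.T.hl u - V.T.hl w ∧
  ((fEnd r = true ∧ t ≤ V.T.hr u + V.T.hr w) ∨ (fEnd r = false ∧
    t - V.T.hl u - V.T.hl w ≤ (fEu r : ℝ) / 4096 * V.A u + (fEw r : ℝ) / 4096 * V.A w))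

/-- The bias `2^37`. -/
def bias : ℝ := 137438953472

/-- Bounds of the vertex values. -/
def Q4.Bd (q : Q4) : Prop :=
  q.v0 < 549755813888 ∧ q.v1 < 549755813888 ∧ q.v2 < 549755813888 ∧ q.v3 < 549755813888

/-- The vector `e` (for the words `u`, `w`) represents a lower bound of the position `y`. -/
def Low (V : View) (u w : List (Fin 3)) (rr e : ℕ) (y : ℝ) : Prop :=
  ∃ q q' : Q4, q.Bd ∧ q'.Bd ∧ e = comb rr q.u q'.w ∧
    V.A u * (q.ev (V.x u) (V.n u) - bias) + V.A w * (q'.ev (V.x w) (V.n w) - bias) ≤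
      4294967296 * y

/-- The vector `e` represents an upper bound of the position `y`. -/
def Up (V : View) (u w : List (Fin 3)) (rr e : ℕ) (y : ℝ) : Prop :=
  ∃ q q' : Q4, q.Bd ∧ q'.Bd ∧ e = comb rr q.u q'.w ∧
    4294967296 * y ≤ V.A u * (q.ev (V.x u) (V.n u) - bias) +
      V.A w * (q'.ev (V.x w) (V.n w) - bias)

/-- Bounds of the factors. -/
def Q4.Bd1 (q : Q4) : Prop :=
  q.v0 < 8388608 ∧ q.v1 < 8388608 ∧ q.v2 < 8388608 ∧ q.v3 < 8388608

/-- The side data `sd` are correct for the child `i` (`rep = false`: left) of the word `w`. -/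
structure SdL (V : View) (w : List (Fin 3)) (i : ℕ) (sd : Sd) : Prop where
  start : ∀ c : ℕ, c ≤ 8191 →
    4294967296 * ((V.T.hl (cw i w) - V.T.hl w) + (c : ℝ) / 4096 * V.A (cw i w)) ≤
      V.A w * (sd.s0.ev (V.x w) (V.n w) + c * sd.s1.ev (V.x w) (V.n w) - bias)
  stop : ∀ c : ℕ, c ≤ 8191 →
    V.A w * (sd.e0.ev (V.x w) (V.n w) + c * sd.e1.ev (V.x w) (V.n w) - bias) ≤
      4294967296 * ((V.T.hl (cw i w) - V.T.hl w) + (c : ℝ) / 4096 * V.A (cw i w))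
  stopE : V.A w * (sd.ee.ev (V.x w) (V.n w) - bias) ≤ 4294967296 * (V.T.hr (cw i w) - V.T.hl w)
  ulo : (sd.ulo : ℝ) * V.A w ≤ 1048576 * V.A (cw i w)
  uhi : 1048576 * V.A (cw i w) ≤ (sd.uhi : ℝ) * V.A w

/-- The side data `sd` are correct for the child `i` (right representation). -/
structure SdR (V : View) (w : List (Fin 3)) (i : ℕ) (sd : Sd) : Prop where
  start : ∀ c : ℕ, c ≤ 8191 →
    4294967296 * ((V.T.hr (cw i w) - V.T.hl w) - (c : ℝ) / 4096 * V.B (cw i w)) ≤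
      V.A w * (sd.s0.ev (V.x w) (V.n w) - c * sd.s1.ev (V.x w) (V.n w) - bias)
  startE : 4294967296 * (V.T.hl (cw i w) - V.T.hl w) ≤
      V.A w * (sd.se.ev (V.x w) (V.n w) - bias)
  stop : ∀ c : ℕ, c ≤ 8191 →
    V.A w * (sd.e0.ev (V.x w) (V.n w) - c * sd.e1.ev (V.x w) (V.n w) - bias) ≤
      4294967296 * ((V.T.hr (cw i w) - V.T.hl w) - (c : ℝ) / 4096 * V.B (cw i w))
  ulo : (sd.ulo : ℝ) * V.A w ≤ 1048576 * V.B (cw i w)
  uhi : 1048576 * V.B (cw i w) ≤ (sd.uhi : ℝ) * V.A w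

/-- Size conditions on side data. -/
structure SdB (sd : Sd) (rep : Bool) : Prop where
  s1 : sd.s1.Bd1
  e1 : sd.e1.Bd1
  s0 : sd.s0.v0 < 274877906944 ∧ sd.s0.v1 < 274877906944 ∧ sd.s0.v2 < 274877906944 ∧
    sd.s0.v3 < 274877906944
  e0 : sd.e0.v0 < 274877906944 ∧ sd.e0.v1 < 274877906944 ∧ sd.e0.v2 < 274877906944 ∧
    sd.e0.v3 < 274877906944
  se : sd.se.Bd
  ee : sd.ee.Bd
  sub_s : rep = true → 8191 * sd.s1.v0 ≤ sd.s0.v0 ∧ 8191 * sd.s1.v1 ≤ sd.s0.v1 ∧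
    8191 * sd.s1.v2 ≤ sd.s0.v2 ∧ 8191 * sd.s1.v3 ≤ sd.s0.v3
  sub_e : rep = true → 8191 * sd.e1.v0 ≤ sd.e0.v0 ∧ 8191 * sd.e1.v1 ≤ sd.e0.v1 ∧
    8191 * sd.e1.v2 ≤ sd.e0.v2 ∧ 8191 * sd.e1.v3 ≤ sd.e0.v3
  upos : 0 < sd.ulo

/-- index of the side data -/
def sidx (i : ℕ) (rep : Bool) : ℕ := cd rep (i + 4) i

/-- The table `ct` of side data is correct for the view `V`. -/
structure CtOK (tab : ℕ → CtxRow) (N : ℕ) (ct : ℕ → CtxD) (V : View) : Prop where
  mir : ∀ c, c < N → (ct c).mir = (tab c).mir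
  nx : ∀ c, c < N → ∀ i : Fin 3, (ct c).nx.get i = (tab c).nx i
  nx3 : ∀ c, c < N → (ct c).nx.get 3 = c
  bd : ∀ c, c < N → ∀ i, i < 4 → ∀ rep, SdB ((ct c).sd.get (sidx i rep)) rep
  sdL : ∀ w i, i < 4 → SdL V w i ((ct (V.ctx w)).sd.get (sidx i false))
  sdR : ∀ w i, i < 4 → SdR V w i ((ct (V.ctx w)).sd.get (sidx i true))

/-- The tables of powers are correct. -/
structure PowOK (pl ph : ℕ) : Prop where
  lo : ∀ k, k < 4096 → (pLo pl k : ℝ) ≤ 1073741824 * gk k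
  hi : ∀ k, k < 4096 → 1073741824 * gk k ≤ (pLo ph k : ℝ)
  bd : ∀ k, k ≤ 3440 → pLo ph k < 68000000000

/-- `r` is one of the records of the pair `(a, b)`. -/
def Cl (D : ℕ → ℕ → ℕ) (a b r : ℕ) : Prop := 0 < fkl r ∧ ∃ idx, r = recOf (D a b) idx

/-- `t` lies in the interval of a claim for the pair `(u, w)` or `(w, u)`. -/
def Pt (D : ℕ → ℕ → ℕ) (V : View) (u w : List (Fin 3)) (t : ℝ) : Prop :=
  ∃ r, (V.ctx u ≤ V.ctx w ∧ Cl D (V.ctx u) (V.ctx w) r ∧ InC V r u w t) ∨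
    (V.ctx w ≤ V.ctx u ∧ Cl D (V.ctx w) (V.ctx u) r ∧ InC V r w u t)

end Pool.Agent.H68.FibC
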