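import Pool.Agent.H68.FibC.Pack

/-!
# FC-3: the vectors `selfV`, `startV`, `endV` bound the real positions
-/

namespace Pool.Agent.H68.FibC

open Pool.Agent.H98.Fib Pool.Agent.H98.Fib.HTree

/-- `q + c p` -/
def Q4.addM (q : Q4) (c : ℕ) (p : Q4) : Q4 :=
  ⟨q.v0 + c * p.v0, q.v1 + c * p.v1, q.v2 + c * p.v2, q.v3 + c * p.v3⟩

/-- `q - c p` -/
def Q4.subM (q : Q4) (c : ℕ) (p : Q4) : Q4 :=
  ⟨q.v0 - c * p.v0, q.v1 - c * p.v1, q.v2 - c * p.v2, q.v3 - c * p.v3⟩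

theorem Q4.u_add (q : Q4) (c : ℕ) (p : Q4) : Nat.add q.u (Nat.mul c p.u) = (q.addM c p).u := by
  show q.u + c * p.u = _
  rw [u_eq, u_eq, u_eq]
  simp only [Q4.addM]
  generalize (2 : ℕ) ^ 512 = s
  generalize (2 : ℕ) ^ 1024 = t
  ring

theorem Q4.w_add (q : Q4) (c : ℕ) (p : Q4) : Nat.add q.w (Nat.mul c p.w) = (q.addM c p).w := by
  show q.w + c * p.w = _
  rw [w_eq, w_eq, w_eq]
  simp only [Q4.addM]
  generalize (2 : ℕ) ^ 128 = s
  generalize (2 : ℕ) ^ 256 = t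
  ring

theorem Q4.u_sub (q : Q4) (c : ℕ) (p : Q4) (h0 : c * p.v0 ≤ q.v0) (h1 : c * p.v1 ≤ q.v1)
    (h2 : c * p.v2 ≤ q.v2) (h3 : c * p.v3 ≤ q.v3) :
    Nat.sub q.u (Nat.mul c p.u) = (q.subM c p).u := by
  show q.u - c * p.u = _
  have h : q.u = (q.subM c p).u + c * p.u := by
    rw [u_eq, u_eq, u_eq]
    simp only [Q4.subM]
    obtain ⟨r0, hr0⟩ := Nat.exists_eq_add_of_le h0
    obtain ⟨r1, hr1⟩ := Nat.exists_eq_add_of_le h1
    obtain ⟨r2, hr2⟩ := Nat.exists_eq_add_of_le h2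
    obtain ⟨r3, hr3⟩ := Nat.exists_eq_add_of_le h3
    rw [hr0, hr1, hr2, hr3, Nat.add_sub_cancel_left, Nat.add_sub_cancel_left,
      Nat.add_sub_cancel_left, Nat.add_sub_cancel_left]
    generalize (2 : ℕ) ^ 512 = s
    generalize (2 : ℕ) ^ 1024 = t
    ring
  rw [h, Nat.add_sub_cancel]

theorem Q4.w_sub (q : Q4) (c : ℕ) (p : Q4) (h0 : c * p.v0 ≤ q.v0) (h1 : c * p.v1 ≤ q.v1)
    (h2 : c * p.v2 ≤ q.v2) (h3 : c * p.v3 ≤ q.v3) :
    Nat.sub q.w (Nat.mul c p.w) = (q.subM c p).w := by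
  show q.w - c * p.w = _
  have h : q.w = (q.subM c p).w + c * p.w := by
    rw [w_eq, w_eq, w_eq]
    simp only [Q4.subM]
    obtain ⟨r0, hr0⟩ := Nat.exists_eq_add_of_le h0
    obtain ⟨r1, hr1⟩ := Nat.exists_eq_add_of_le h1
    obtain ⟨r2, hr2⟩ := Nat.exists_eq_add_of_le h2
    obtain ⟨r3, hr3⟩ := Nat.exists_eq_add_of_le h3
    rw [hr0, hr1, hr2, hr3, Nat.add_sub_cancel_left, Nat.add_sub_cancel_left,
      Nat.add_sub_cancel_left, Nat.add_sub_cancel_left]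
    generalize (2 : ℕ) ^ 128 = s
    generalize (2 : ℕ) ^ 256 = t
    ring
  rw [h, Nat.add_sub_cancel]

theorem Q4.ev_add (q : Q4) (c : ℕ) (p : Q4) (x n : ℝ) :
    (q.addM c p).ev x n = q.ev x n + c * p.ev x n := by
  simp only [Q4.ev, Q4.addM]
  push_cast
  ring

theorem Q4.ev_sub (q : Q4) (c : ℕ) (p : Q4) (h0 : c * p.v0 ≤ q.v0) (h1 : c * p.v1 ≤ q.v1)
    (h2 : c * p.v2 ≤ q.v2) (h3 : c * p.v3 ≤ q.v3) (x n : ℝ) :
    (q.subM c p).ev x n = q.ev x n - c * p.ev x n := by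
  simp only [Q4.ev, Q4.subM]
  rw [Nat.cast_sub h0, Nat.cast_sub h1, Nat.cast_sub h2, Nat.cast_sub h3]
  push_cast
  ring

/-- the constant vector -/
def Q4.cst (s : ℕ) : Q4 := ⟨s, s, s, s⟩

theorem Q4.cst_ev (s : ℕ) (x n : ℝ) : (Q4.cst s).ev x n = s := by
  simp only [Q4.ev, Q4.cst]
  ring

theorem on4_eq : on4 = 1 + 2 ^ 128 + (2 ^ 256 + 2 ^ 384) := by
  change 1 + 1 <<< 128 + (1 <<< 256 + 1 <<< 384) = _
  rw [Nat.shiftLeft_eq, Nat.shiftLeft_eq, Nat.shiftLeft_eq, one_mul, one_mul, one_mul]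

theorem Q4.cst_u (s : ℕ) : Nat.mul onW s = (Q4.cst s).u := by
  show onW * s = _
  rw [u_eq, onW_eq]
  simp only [Q4.cst]
  have h : (2 : ℕ) ^ 1536 = 2 ^ 512 * 2 ^ 1024 := by rw [← pow_add]
  rw [h]
  generalize (2 : ℕ) ^ 512 = a
  generalize (2 : ℕ) ^ 1024 = b
  ring

theorem Q4.cst_w (s : ℕ) : Nat.mul on4 s = (Q4.cst s).w := by
  show on4 * s = _
  rw [w_eq, on4_eq]
  simp only [Q4.cst]
  have h : (2 : ℕ) ^ 384 = 2 ^ 128 * 2 ^ 256 := (pow_add 2 128 256)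
  rw [h]
  generalize (2 : ℕ) ^ 128 = a
  generalize (2 : ℕ) ^ 256 = b
  ring

theorem selfV_eq (rr c c' : ℕ) : selfV rr c c' =
    comb rr (Q4.cst (137438953472 + c * 1048576)).u (Q4.cst (137438953472 + c' * 1048576)).w := by
  have h : ∀ d : ℕ, Nat.add 137438953472 (Nat.shiftLeft d 20) = 137438953472 + d * 1048576 := by
    intro d
    show 137438953472 + d <<< 20 = _
    rw [Nat.shiftLeft_eq]
  rw [← Q4.cst_u, ← Q4.cst_w, ← h, ← h]
  rfl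

theorem Q4.cst_bd {c : ℕ} (hc : c ≤ 8191) : (Q4.cst (137438953472 + c * 1048576)).Bd := by
  simp only [Q4.Bd, Q4.cst]
  refine ⟨?_, ?_, ?_, ?_⟩ <;> omega

theorem vec_fSu (r : ℕ) : fSu r ≤ 8191 := Nat.and_le_right
theorem vec_fSw (r : ℕ) : fSw r ≤ 8191 := Nat.and_le_right
theorem vec_fEu (r : ℕ) : fEu r ≤ 8191 := Nat.and_le_right
theorem vec_fEw (r : ℕ) : fEw r ≤ 8191 := Nat.and_le_right

theorem vec_cd (b : Bool) {x y N : ℕ} (hx : x ≤ N) (hy : y ≤ N) : cd b x y ≤ N := by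
  cases b
  · exact hy
  · exact hx

theorem Mv.Su_le (mv : Mv) (r : ℕ) : mv.Su r ≤ 8191 := vec_cd _ (vec_fSw r) (vec_fSu r)
theorem Mv.Sw_le (mv : Mv) (r : ℕ) : mv.Sw r ≤ 8191 := vec_cd _ (vec_fSu r) (vec_fSw r)
theorem Mv.Eu_le (mv : Mv) (r : ℕ) : mv.Eu r ≤ 8191 := vec_cd _ (vec_fEw r) (vec_fEu r)
theorem Mv.Ew_le (mv : Mv) (r : ℕ) : mv.Ew r ≤ 8191 := vec_cd _ (vec_fEu r) (vec_fEw r)

theorem Q4.addM_bd {q p : Q4} {c : ℕ} (hc : c ≤ 8191)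
    (hq : q.v0 < 274877906944 ∧ q.v1 < 274877906944 ∧ q.v2 < 274877906944 ∧ q.v3 < 274877906944)
    (hp : p.Bd1) : (q.addM c p).Bd := by
  obtain ⟨a0, a1, a2, a3⟩ := hq
  obtain ⟨b0, b1, b2, b3⟩ := hp
  have key : ∀ v, v < 8388608 → c * v ≤ 8191 * 8388608 := fun v hv => Nat.mul_le_mul hc hv.le
  have k0 := key _ b0
  have k1 := key _ b1
  have k2 := key _ b2
  have k3 := key _ b3
  simp only [Q4.Bd, Q4.addM]
  refine ⟨?_, ?_, ?_, ?_⟩ <;> omega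

theorem Q4.subM_bd {q p : Q4} {c : ℕ}
    (hq : q.v0 < 274877906944 ∧ q.v1 < 274877906944 ∧ q.v2 < 274877906944 ∧ q.v3 < 274877906944) :
    (q.subM c p).Bd := by
  obtain ⟨a0, a1, a2, a3⟩ := hq
  simp only [Q4.Bd, Q4.subM]
  refine ⟨?_, ?_, ?_, ?_⟩ <;> omega

theorem vec_sub {c : ℕ} (hc : c ≤ 8191) {v w : ℕ} (h : 8191 * v ≤ w) : c * v ≤ w :=
  (Nat.mul_le_mul_right v hc).trans h

theorem vec_cdf {α : Type} (x y : α) : cd false x y = y := rfl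
theorem vec_cdt {α : Type} (x y : α) : cd true x y = x := rfl

theorem Mv.startV_f (mv : Mv) (rr r : ℕ) (h : mv.rep = false) : mv.startV rr r =
    comb rr (Nat.add mv.s0u (Nat.mul (mv.Su r) mv.s1u)) (Nat.add mv.s0w (Nat.mul (mv.Sw r) mv.s1w)) := by
  unfold Mv.startV
  rw [h, vec_cdf]

theorem Mv.startV_t (mv : Mv) (rr r : ℕ) (h : mv.rep = true) (h' : fEnd r = false) : mv.startV rr r =
    comb rr (Nat.sub mv.s0u (Nat.mul (mv.Eu r) mv.s1u)) (Nat.sub mv.s0w (Nat.mul (mv.Ew r) mv.s1w)) := by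
  unfold Mv.startV
  rw [h, h', vec_cdt, vec_cdf]

theorem Mv.startV_te (mv : Mv) (rr r : ℕ) (h : mv.rep = true) (h' : fEnd r = true) : mv.startV rr r =
    comb rr mv.seu mv.sew := by
  unfold Mv.startV
  rw [h, h', vec_cdt, vec_cdt]

theorem Mv.endV_t (mv : Mv) (rr r : ℕ) (h : mv.rep = true) : mv.endV rr r =
    comb rr (Nat.sub mv.e0u (Nat.mul (mv.Su r) mv.e1u)) (Nat.sub mv.e0w (Nat.mul (mv.Sw r) mv.e1w)) := by
  unfold Mv.endV
  rw [h, vec_cdt]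

theorem Mv.endV_f (mv : Mv) (rr r : ℕ) (h : mv.rep = false) (h' : fEnd r = false) : mv.endV rr r =
    comb rr (Nat.add mv.e0u (Nat.mul (mv.Eu r) mv.e1u)) (Nat.add mv.e0w (Nat.mul (mv.Ew r) mv.e1w)) := by
  unfold Mv.endV
  rw [h, h', vec_cdf, vec_cdf]

theorem Mv.endV_fe (mv : Mv) (rr r : ℕ) (h : mv.rep = false) (h' : fEnd r = true) : mv.endV rr r =
    comb rr mv.eeu mv.eew := by
  unfold Mv.endV
  rw [h, h', vec_cdf, vec_cdt]

attribute [local irreducible] Q4.u Q4.w comb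

/-- A position `(c, c')` of the pair itself, as a lower and as an upper bound. -/
theorem selfV_low (V : View) (u w : List (Fin 3)) (rr c c' : ℕ) (hc : c ≤ 8191) (hc' : c' ≤ 8191) :
    Low V u w rr (selfV rr c c') ((c : ℝ) / 4096 * V.A u + (c' : ℝ) / 4096 * V.A w) := by
  refine ⟨_, _, Q4.cst_bd hc, Q4.cst_bd hc', selfV_eq rr c c', le_of_eq ?_⟩
  rw [Q4.cst_ev, Q4.cst_ev, bias]
  push_cast
  ring

theorem selfV_up (V : View) (u w : List (Fin 3)) (rr c c' : ℕ) (hc : c ≤ 8191) (hc' : c' ≤ 8191) :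
    Up V u w rr (selfV rr c c') ((c : ℝ) / 4096 * V.A u + (c' : ℝ) / 4096 * V.A w) := by
  refine ⟨_, _, Q4.cst_bd hc, Q4.cst_bd hc', selfV_eq rr c c', le_of_eq ?_⟩
  rw [Q4.cst_ev, Q4.cst_ev, bias]
  push_cast
  ring

/-- Left representation: start of the interval of a record. -/
theorem startV_left {V : View} {u w : List (Fin 3)} {i j : ℕ} {sa sb : Sd} (hA : 0 < V.A u)
    (hA' : 0 < V.A w) (ha : SdL V u i sa) (hb : SdL V w j sb) (ha' : SdB sa false)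
    (hb' : SdB sb false) (D : ℕ → ℕ → ℕ) (pl ph xa xb : ℕ) (a0 ns fin : Bool) (ks ke rr r : ℕ) :
    Up V u w rr ((mkMv' D pl ph sa sb xa xb false a0 ns fin ks ke).startV rr r)
      ((V.T.hl (cw i u) - V.T.hl u) + (V.T.hl (cw j w) - V.T.hl w) +
        (((mkMv' D pl ph sa sb xa xb false a0 ns fin ks ke).Su r : ℝ) / 4096 * V.A (cw i u) +
          ((mkMv' D pl ph sa sb xa xb false a0 ns fin ks ke).Sw r : ℝ) / 4096 * V.A (cw j w))) := by
  refine ⟨sa.s0.addM ((mkMv' D pl ph sa sb xa xb false a0 ns fin ks ke).Su r) sa.s1, sb.s0.addM ((mkMv' D pl ph sa sb xa xb false a0 ns fin ks ke).Sw r) sb.s1,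
    Q4.addM_bd (Mv.Su_le _ r) ha'.s0 ha'.s1, Q4.addM_bd (Mv.Sw_le _ r) hb'.s0 hb'.s1, ?_, ?_⟩
  · rw [← Q4.u_add, ← Q4.w_add, Mv.startV_f _ _ _ rfl]
    rfl
  · rw [Q4.ev_add, Q4.ev_add]
    have h1 := ha.start _ (Mv.Su_le (mkMv' D pl ph sa sb xa xb false a0 ns fin ks ke) r)
    have h2 := hb.start _ (Mv.Sw_le (mkMv' D pl ph sa sb xa xb false a0 ns fin ks ke) r)
    linarith

/-- Left representation: end of the interval of a record, not reaching the right end. -/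
theorem endV_left {V : View} {u w : List (Fin 3)} {i j : ℕ} {sa sb : Sd} (hA : 0 < V.A u)
    (hA' : 0 < V.A w) (ha : SdL V u i sa) (hb : SdL V w j sb) (ha' : SdB sa false)
    (hb' : SdB sb false) (D : ℕ → ℕ → ℕ) (pl ph xa xb : ℕ) (a0 ns fin : Bool) (ks ke rr r : ℕ)
    (hr : fEnd r = false) :
    Low V u w rr ((mkMv' D pl ph sa sb xa xb false a0 ns fin ks ke).endV rr r)
      ((V.T.hl (cw i u) - V.T.hl u) + (V.T.hl (cw j w) - V.T.hl w) +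
        (((mkMv' D pl ph sa sb xa xb false a0 ns fin ks ke).Eu r : ℝ) / 4096 * V.A (cw i u) +
          ((mkMv' D pl ph sa sb xa xb false a0 ns fin ks ke).Ew r : ℝ) / 4096 * V.A (cw j w))) := by
  refine ⟨sa.e0.addM ((mkMv' D pl ph sa sb xa xb false a0 ns fin ks ke).Eu r) sa.e1, sb.e0.addM ((mkMv' D pl ph sa sb xa xb false a0 ns fin ks ke).Ew r) sb.e1,
    Q4.addM_bd (Mv.Eu_le _ r) ha'.e0 ha'.e1, Q4.addM_bd (Mv.Ew_le _ r) hb'.e0 hb'.e1, ?_, ?_⟩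
  · rw [← Q4.u_add, ← Q4.w_add, Mv.endV_f _ _ _ rfl hr]
    rfl
  · rw [Q4.ev_add, Q4.ev_add]
    have h1 := ha.stop _ (Mv.Eu_le (mkMv' D pl ph sa sb xa xb false a0 ns fin ks ke) r)
    have h2 := hb.stop _ (Mv.Ew_le (mkMv' D pl ph sa sb xa xb false a0 ns fin ks ke) r)
    linarith

/-- Left representation: end of the interval of a record which reaches the right end. -/
theorem endV_left_end {V : View} {u w : List (Fin 3)} {i j : ℕ} {sa sb : Sd} (hA : 0 < V.A u)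
    (hA' : 0 < V.A w) (ha : SdL V u i sa) (hb : SdL V w j sb) (ha' : SdB sa false)
    (hb' : SdB sb false) (D : ℕ → ℕ → ℕ) (pl ph xa xb : ℕ) (a0 ns fin : Bool) (ks ke rr r : ℕ)
    (hr : fEnd r = true) :
    Low V u w rr ((mkMv' D pl ph sa sb xa xb false a0 ns fin ks ke).endV rr r)
      ((V.T.hr (cw i u) - V.T.hl u) + (V.T.hr (cw j w) - V.T.hl w)) := by
  refine ⟨sa.ee, sb.ee, ha'.ee, hb'.ee, ?_, ?_⟩
  · rw [Mv.endV_fe _ _ _ rfl hr]
    rfl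
  · have h1 := ha.stopE
    have h2 := hb.stopE
    linarith

/-- Right representation: start (the record does not reach the end of the mirror image). -/
theorem startV_right {V : View} {u w : List (Fin 3)} {i j : ℕ} {sa sb : Sd} (hA : 0 < V.A u)
    (hA' : 0 < V.A w) (ha : SdR V u i sa) (hb : SdR V w j sb) (ha' : SdB sa true)
    (hb' : SdB sb true) (D : ℕ → ℕ → ℕ) (pl ph xa xb : ℕ) (a0 ns fin : Bool) (ks ke rr r : ℕ)
    (hr : fEnd r = false) :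
    Up V u w rr ((mkMv' D pl ph sa sb xa xb true a0 ns fin ks ke).startV rr r)
      ((V.T.hr (cw i u) - V.T.hl u) + (V.T.hr (cw j w) - V.T.hl w) -
        (((mkMv' D pl ph sa sb xa xb true a0 ns fin ks ke).Eu r : ℝ) / 4096 * V.B (cw i u) +
          ((mkMv' D pl ph sa sb xa xb true a0 ns fin ks ke).Ew r : ℝ) / 4096 * V.B (cw j w))) := by
  obtain ⟨a0', a1', a2', a3'⟩ := ha'.sub_s rfl
  obtain ⟨b0', b1', b2', b3'⟩ := hb'.sub_s rfl
  have hEu := Mv.Eu_le (mkMv' D pl ph sa sb xa xb true a0 ns fin ks ke) r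
  have hEw := Mv.Ew_le (mkMv' D pl ph sa sb xa xb true a0 ns fin ks ke) r
  refine ⟨sa.s0.subM ((mkMv' D pl ph sa sb xa xb true a0 ns fin ks ke).Eu r) sa.s1, sb.s0.subM ((mkMv' D pl ph sa sb xa xb true a0 ns fin ks ke).Ew r) sb.s1,
    Q4.subM_bd ha'.s0, Q4.subM_bd hb'.s0, ?_, ?_⟩
  · rw [← Q4.u_sub _ _ _ (vec_sub hEu a0') (vec_sub hEu a1') (vec_sub hEu a2') (vec_sub hEu a3'),
      ← Q4.w_sub _ _ _ (vec_sub hEw b0') (vec_sub hEw b1') (vec_sub hEw b2') (vec_sub hEw b3'),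
      Mv.startV_t _ _ _ rfl hr]
    rfl
  · rw [Q4.ev_sub _ _ _ (vec_sub hEu a0') (vec_sub hEu a1') (vec_sub hEu a2') (vec_sub hEu a3'),
      Q4.ev_sub _ _ _ (vec_sub hEw b0') (vec_sub hEw b1') (vec_sub hEw b2') (vec_sub hEw b3')]
    have h1 := ha.start _ hEu
    have h2 := hb.start _ hEw
    linarith

theorem startV_right_end {V : View} {u w : List (Fin 3)} {i j : ℕ} {sa sb : Sd} (hA : 0 < V.A u)
    (hA' : 0 < V.A w) (ha : SdR V u i sa) (hb : SdR V w j sb) (ha' : SdB sa true)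
    (hb' : SdB sb true) (D : ℕ → ℕ → ℕ) (pl ph xa xb : ℕ) (a0 ns fin : Bool) (ks ke rr r : ℕ)
    (hr : fEnd r = true) :
    Up V u w rr ((mkMv' D pl ph sa sb xa xb true a0 ns fin ks ke).startV rr r)
      ((V.T.hl (cw i u) - V.T.hl u) + (V.T.hl (cw j w) - V.T.hl w)) := by
  refine ⟨sa.se, sb.se, ha'.se, hb'.se, ?_, ?_⟩
  · rw [Mv.startV_te _ _ _ rfl hr]
    rfl
  · have h1 := ha.startE
    have h2 := hb.startE
    linarith

/-- Right representation: end. -/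
theorem endV_right {V : View} {u w : List (Fin 3)} {i j : ℕ} {sa sb : Sd} (hA : 0 < V.A u)
    (hA' : 0 < V.A w) (ha : SdR V u i sa) (hb : SdR V w j sb) (ha' : SdB sa true)
    (hb' : SdB sb true) (D : ℕ → ℕ → ℕ) (pl ph xa xb : ℕ) (a0 ns fin : Bool) (ks ke rr r : ℕ) :
    Low V u w rr ((mkMv' D pl ph sa sb xa xb true a0 ns fin ks ke).endV rr r)
      ((V.T.hr (cw i u) - V.T.hl u) + (V.T.hr (cw j w) - V.T.hl w) -
        (((mkMv' D pl ph sa sb xa xb true a0 ns fin ks ke).Su r : ℝ) / 4096 * V.B (cw i u) +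
          ((mkMv' D pl ph sa sb xa xb true a0 ns fin ks ke).Sw r : ℝ) / 4096 * V.B (cw j w))) := by
  obtain ⟨a0', a1', a2', a3'⟩ := ha'.sub_e rfl
  obtain ⟨b0', b1', b2', b3'⟩ := hb'.sub_e rfl
  have hSu := Mv.Su_le (mkMv' D pl ph sa sb xa xb true a0 ns fin ks ke) r
  have hSw := Mv.Sw_le (mkMv' D pl ph sa sb xa xb true a0 ns fin ks ke) r
  refine ⟨sa.e0.subM ((mkMv' D pl ph sa sb xa xb true a0 ns fin ks ke).Su r) sa.e1, sb.e0.subM ((mkMv' D pl ph sa sb xa xb true a0 ns fin ks ke).Sw r) sb.e1,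
    Q4.subM_bd ha'.e0, Q4.subM_bd hb'.e0, ?_, ?_⟩
  · rw [← Q4.u_sub _ _ _ (vec_sub hSu a0') (vec_sub hSu a1') (vec_sub hSu a2') (vec_sub hSu a3'),
      ← Q4.w_sub _ _ _ (vec_sub hSw b0') (vec_sub hSw b1') (vec_sub hSw b2') (vec_sub hSw b3'),
      Mv.endV_t _ _ _ rfl]
    rfl
  · rw [Q4.ev_sub _ _ _ (vec_sub hSu a0') (vec_sub hSu a1') (vec_sub hSu a2') (vec_sub hSu a3'),
      Q4.ev_sub _ _ _ (vec_sub hSw b0') (vec_sub hSw b1') (vec_sub hSw b2') (vec_sub hSw b3')]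
    have h1 := ha.stop _ hSu
    have h2 := hb.stop _ hSw
    linarith

end Pool.Agent.H68.FibC
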