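import Pool.Agent.H68.FibC.Core
import Pool.Agent.H68.FibC.Vec
import Pool.Agent.H68.FibC.Ratio
import Pool.Agent.H68.FibC.Mir

/-!
# FC-6: a checked claim is covered by claims of the children
-/

namespace Pool.Agent.H68.FibC

open Pool.Agent.H98.Fib Pool.Agent.H98.Fib.HTree

/-- `t` lies in the interval of the record `r` of the children `(i, j)` of `(u, w)`; `rep = true`:
in the mirror image, `sw = true`: with exchanged words. -/
def InM (mc : ℕ → ℕ) (V : View) (u w : List (Fin 3)) (i j : ℕ) (rep sw : Bool) (r : ℕ) (t : ℝ) :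
    Prop :=
  match rep, sw with
  | false, false => InC V r (cw i u) (cw j w) t
  | false, true => InC V r (cw j w) (cw i u) t
  | true, false => InC (V.mir mc) r (mw (cw i u)) (mw (cw j w)) (-t)
  | true, true => InC (V.mir mc) r (mw (cw j w)) (mw (cw i u)) (-t)

theorem step_fk0_le (r : ℕ) : fk0 r ≤ 4095 := by
  unfold fk0
  exact Nat.and_le_right

/-- exchange of the two words of a claim -/
theorem step_swap {r lo hi : ℕ} {a b : ℝ} (ha : 0 < a)
    (hlo' : lo = 4096 - (fk0 r + fkl r)) (hhi' : hi = 4096 - fk0 r)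
    (hlo : gk lo * a ≤ b) (hhi : b ≤ gk hi * a) :
    gk (fk0 r) * b ≤ a ∧ a ≤ gk (fk0 r + fkl r) * b := by
  subst hlo' hhi'
  have h0 := step_fk0_le r
  constructor
  · have e : gk (fk0 r) * gk (4096 - fk0 r) = 1 := gk_inv (by omega)
    have := mul_le_mul_of_nonneg_left hhi (gk_pos (fk0 r)).le
    rwa [← mul_assoc, e, one_mul] at this
  · have e : 1 ≤ gk (fk0 r + fkl r) * gk (4096 - (fk0 r + fkl r)) := by
      rcases Nat.lt_or_ge 4096 (fk0 r + fkl r) with h | h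
      · have e0 : 4096 - (fk0 r + fkl r) = 0 := by omega
        have e1 : gk 4096 * gk 0 = 1 := gk_inv rfl
        rw [e0, ← e1]
        exact mul_le_mul_of_nonneg_right (gk_mono h.le) (gk_pos 0).le
      · rw [gk_inv (by omega)]
    have h1 := mul_le_mul_of_nonneg_left hlo (gk_pos (fk0 r + fkl r)).le
    have h2 := mul_le_mul_of_nonneg_right e ha.le
    rw [one_mul, mul_assoc] at h2
    exact h2.trans h1

/-- FC-6a. Left representation: from positions to the claim of the child. -/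
theorem inM_left (mc : ℕ → ℕ) {V : View} (hA : ∀ w, 0 < V.A w) {u w : List (Fin 3)} {i j : ℕ}
    {mv : Mv} {r : ℕ} (hrep : mv.rep = false)
    (hlo : gk (mv.lo r) * V.A (cw i u) ≤ V.A (cw j w))
    (hhi : V.A (cw j w) ≤ gk (mv.hi r) * V.A (cw i u)) {t : ℝ}
    (hs : (V.T.hl (cw i u) - V.T.hl u) + (V.T.hl (cw j w) - V.T.hl w) +
      ((mv.Su r : ℝ) / 4096 * V.A (cw i u) + (mv.Sw r : ℝ) / 4096 * V.A (cw j w)) ≤
        t - V.T.hl u - V.T.hl w)
    (he : (fEnd r = true ∧ t ≤ V.T.hr (cw i u) + V.T.hr (cw j w)) ∨ (fEnd r = false ∧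
      t - V.T.hl u - V.T.hl w ≤ (V.T.hl (cw i u) - V.T.hl u) + (V.T.hl (cw j w) - V.T.hl w) +
        ((mv.Eu r : ℝ) / 4096 * V.A (cw i u) + (mv.Ew r : ℝ) / 4096 * V.A (cw j w)))) :
    InM mc V u w i j mv.rep mv.sw r t := by
  rw [hrep]
  cases hsw : mv.sw with
  | false =>
    simp only [Mv.lo, Mv.hi, Mv.Su, Mv.Sw, Mv.Eu, Mv.Ew, hsw, cd] at hlo hhi hs he
    refine ⟨hlo, hhi, by linarith, ?_⟩
    rcases he with he | he
    · exact Or.inl he
    · exact Or.inr ⟨he.1, by linarith [he.2]⟩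
  | true =>
    obtain ⟨h1, h2⟩ := step_swap (r := r) (hA (cw i u))
      (by simp [Mv.lo, hsw, cd]) (by simp [Mv.hi, hsw, cd]) hlo hhi
    simp only [Mv.Su, Mv.Sw, Mv.Eu, Mv.Ew, hsw, cd] at hs he
    refine ⟨h1, h2, by linarith, ?_⟩
    rcases he with he | he
    · exact Or.inl ⟨he.1, by linarith [he.2]⟩
    · exact Or.inr ⟨he.1, by linarith [he.2]⟩

/-- FC-6b. Right representation. -/
theorem inM_right (mc : ℕ → ℕ) {V : View} (hB : ∀ w, 0 < V.B w) {u w : List (Fin 3)} {i j : ℕ}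
    {mv : Mv} {r : ℕ} (hrep : mv.rep = true)
    (hlo : gk (mv.lo r) * V.B (cw i u) ≤ V.B (cw j w))
    (hhi : V.B (cw j w) ≤ gk (mv.hi r) * V.B (cw i u)) {t : ℝ}
    (hs : t - V.T.hl u - V.T.hl w ≤ (V.T.hr (cw i u) - V.T.hl u) + (V.T.hr (cw j w) - V.T.hl w) -
      ((mv.Su r : ℝ) / 4096 * V.B (cw i u) + (mv.Sw r : ℝ) / 4096 * V.B (cw j w)))
    (he : (fEnd r = true ∧ V.T.hl (cw i u) + V.T.hl (cw j w) ≤ t) ∨ (fEnd r = false ∧
      (V.T.hr (cw i u) - V.T.hl u) + (V.T.hr (cw j w) - V.T.hl w) -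
        ((mv.Eu r : ℝ) / 4096 * V.B (cw i u) + (mv.Ew r : ℝ) / 4096 * V.B (cw j w)) ≤
          t - V.T.hl u - V.T.hl w)) :
    InM mc V u w i j mv.rep mv.sw r t := by
  have eA : ∀ v, (V.mir mc).A (mw v) = V.B v := fun v => by
    show V.B (mw (mw v)) = V.B v
    rw [mw_mw]
  have el : ∀ v, (V.mir mc).T.hl (mw v) = - V.T.hr v := fun v => by
    show - V.T.hr (mw (mw v)) = - V.T.hr v
    rw [mw_mw]
  have er : ∀ v, (V.mir mc).T.hr (mw v) = - V.T.hl v := fun v => by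
    show - V.T.hl (mw (mw v)) = - V.T.hl v
    rw [mw_mw]
  rw [hrep]
  cases hsw : mv.sw with
  | false =>
    simp only [Mv.lo, Mv.hi, Mv.Su, Mv.Sw, Mv.Eu, Mv.Ew, hsw, cd] at hlo hhi hs he
    show InC _ _ _ _ _
    unfold InC
    rw [eA, eA, el, el, er, er]
    refine ⟨hlo, hhi, by linarith, ?_⟩
    rcases he with he | he
    · exact Or.inl ⟨he.1, by linarith [he.2]⟩
    · exact Or.inr ⟨he.1, by linarith [he.2]⟩
  | true =>
    obtain ⟨h1, h2⟩ := step_swap (r := r) (hB (cw i u))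
      (by simp [Mv.lo, hsw, cd]) (by simp [Mv.hi, hsw, cd]) hlo hhi
    simp only [Mv.Su, Mv.Sw, Mv.Eu, Mv.Ew, hsw, cd] at hs he
    show InC _ _ _ _ _
    unfold InC
    rw [eA, eA, el, el, er, er]
    refine ⟨h1, h2, by linarith, ?_⟩
    rcases he with he | he
    · exact Or.inl ⟨he.1, by linarith [he.2]⟩
    · exact Or.inr ⟨he.1, by linarith [he.2]⟩

/-- The hypotheses on the tables. -/
structure Hyp (tab : ℕ → CtxRow) (N : ℕ) (mu : ℝ) (ct : ℕ → CtxD) (pl ph : ℕ) (V : View) : Prop where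
  ok : V.OK tab N mu
  ct : CtOK tab N ct V
  pow : PowOK pl ph

theorem mt_get (f : ℕ → ℕ → Bool → Mv) (m : ℕ) (hm : m < 32) :
    (mt f).get m = f (m / 8) (m / 2 % 4) (decide (m % 2 = 1)) := by
  interval_cases m <;> rfl

theorem land_lt (a : ℕ) : Nat.land a 4095 < 4096 := Nat.lt_succ_of_le Nat.and_le_right

theorem mkMv_left (ct : ℕ → CtxD) (D : ℕ → ℕ → ℕ) (pl ph a b K i j : ℕ) :
    ∃ (a0 ns fin : Bool) (ks ke : ℕ), mkMv ct D pl ph a b K i j false =
      mkMv' D pl ph ((ct a).sd.get (sidx i false)) ((ct b).sd.get (sidx j false))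
        ((ct a).nx.get i) ((ct b).nx.get j) false a0 ns fin ks ke ∧
      (a0 = true → i = 0 ∧ j = 0) ∧ (ns = true → i + j < 6) ∧ (fin = true → 2 ≤ i ∧ 2 ≤ j) ∧
      ks < 4096 ∧ ke < 4096 := by
  refine ⟨_, _, _, _, _, rfl, ?_, ?_, ?_, land_lt _, land_lt _⟩
  · intro h
    have h' := Nat.beq_eq.mp (show Nat.beq (Nat.add i j) 0 = true from h)
    simp only [Nat.add_eq] at h'
    omega
  · intro h
    have h' := Nat.ble_eq.mp h
    simp only [Nat.add_eq] at h'
    omega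
  · intro h
    obtain ⟨h1, h2⟩ := an_true.mp h
    exact ⟨Nat.ble_eq.mp h1, Nat.ble_eq.mp h2⟩

theorem mkMv_right (ct : ℕ → CtxD) (D : ℕ → ℕ → ℕ) (pl ph a b K i j : ℕ) :
    ∃ (ns fin : Bool) (ks ke : ℕ), mkMv ct D pl ph a b K i j true =
      mkMv' D pl ph ((ct a).sd.get (sidx i true)) ((ct b).sd.get (sidx j true))
        (ct ((ct a).nx.get i)).mir (ct ((ct b).nx.get j)).mir true false ns fin ks ke ∧
      (ns = true → i + j < 6) ∧ (fin = true → 2 ≤ i ∧ 2 ≤ j) ∧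
      ks < 4096 ∧ ke < 4096 := by
  refine ⟨_, _, _, _, rfl, ?_, ?_, land_lt _, land_lt _⟩
  · intro h
    have h' := Nat.ble_eq.mp h
    simp only [Nat.add_eq] at h'
    omega
  · intro h
    obtain ⟨h1, h2⟩ := an_true.mp h
    exact ⟨Nat.ble_eq.mp h1, Nat.ble_eq.mp h2⟩

theorem mkMv'_ok {D : ℕ → ℕ → ℕ} {pl ph : ℕ} {sa sb : Sd} {xa xb : ℕ} {rep a0 ns fin : Bool}
    {ks ke : ℕ} (h : (mkMv' D pl ph sa sb xa xb rep a0 ns fin ks ke).ok = true) : ns = true :=
  (an_true.mp h).1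

theorem hr_cw {T : HTree} {i : ℕ} (hi : 2 ≤ i) (w : List (Fin 3)) : T.hr (cw i w) = T.hr w := by
  rcases Nat.lt_or_ge i 3 with h | h
  · have : i = 2 := by omega
    subst this
    exact T.hr2 w
  · obtain ⟨i, rfl⟩ := Nat.exists_eq_add_of_le h
    rw [Nat.add_comm]
    rfl

theorem fin_left {ct : ℕ → CtxD} {D : ℕ → ℕ → ℕ} {pl ph a b K i j r : ℕ} {rep : Bool}
    (h : (mkMv ct D pl ph a b K i j rep).exact r = true) : 2 ≤ i ∧ 2 ≤ j ∧
      (rep = false → fEnd r = true) ∧ (rep = true → fSu r = 0 ∧ fSw r = 0) := by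
  obtain ⟨h1, h2⟩ := an_true.mp h
  obtain ⟨h3, h4⟩ := an_true.mp (show an (Nat.ble 2 i) (Nat.ble 2 j) = true from h1)
  rw [show (mkMv ct D pl ph a b K i j rep).rep = rep from rfl, cd_eq] at h2
  refine ⟨Nat.ble_eq.mp h3, Nat.ble_eq.mp h4, fun h => ?_, fun h => ?_⟩
  · rw [if_neg (by simp [h])] at h2
    exact h2
  · rw [if_pos h] at h2
    have h5 := Nat.beq_eq.mp h2
    simp only [Nat.add_eq] at h5
    omega

/-- index with `fEnd` -/
def rEnd : ℕ := 0xFFFFFFFFFFFFFFFFFFF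

theorem fEnd_rEnd : fEnd rEnd = true := by decide

theorem shl30 (x : ℕ) : Nat.shiftLeft x 30 = x * 2 ^ 30 := Nat.shiftLeft_eq x 30

theorem lineGe_sound {al x y x' y' : ℕ} (h : lineGe al x y x' y' = true) :
    (x' : ℝ) * 1073741824 + al * y' ≤ (x : ℝ) * 1073741824 + al * y := by
  unfold lineGe at h
  rw [Nat.ble_eq, shl30, shl30, Nat.add_eq, Nat.add_eq, Nat.mul_eq, Nat.mul_eq] at h
  have h3 : ((x' * 2 ^ 30 + al * y' : ℕ) : ℝ) ≤ ((x * 2 ^ 30 + al * y : ℕ) : ℝ) :=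
    Nat.cast_le.mpr h
  rw [Nat.cast_add, Nat.cast_add, Nat.cast_mul, Nat.cast_mul, Nat.cast_mul, Nat.cast_mul,
    Nat.cast_pow, Nat.cast_ofNat] at h3
  have e : (2 : ℝ) ^ 30 = 1073741824 := by norm_num
  rw [e] at h3
  exact h3

/-- a linear inequality between its ends -/
theorem line_le {X Y a0 a1 x y x' y' : ℝ} (hX : 0 ≤ X) (h0 : a0 * X ≤ 1073741824 * Y)
    (h1 : 1073741824 * Y ≤ a1 * X) (e0 : x' * 1073741824 + a0 * y' ≤ x * 1073741824 + a0 * y)
    (e1 : x' * 1073741824 + a1 * y' ≤ x * 1073741824 + a1 * y) : x' * X + y' * Y ≤ x * X + y * Y := by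
  rcases le_total y' y with h | h
  · have h2 : 0 ≤ y - y' := by linarith
    have h3 := mul_le_mul_of_nonneg_left h0 h2
    have h4 := mul_le_mul_of_nonneg_right e0 hX
    nlinarith
  · have h2 : 0 ≤ y' - y := by linarith
    have h3 := mul_le_mul_of_nonneg_left h1 h2
    have h4 := mul_le_mul_of_nonneg_right e1 hX
    nlinarith

theorem fields_of_shift {r p : ℕ} (h : Nat.shiftRight r 24 = Nat.shiftRight p 24) :
    fSu r = fSu p ∧ fSw r = fSw p ∧ fEu r = fEu p ∧ fEw r = fEw p ∧ fEnd r = fEnd p := by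
  have h0 : r >>> 24 = p >>> 24 := h
  have h1 : r >>> 37 = p >>> 37 := by
    rw [show 37 = 24 + 13 from rfl, Nat.shiftRight_add, Nat.shiftRight_add, h0]
  have h2 : r >>> 50 = p >>> 50 := by
    rw [show 50 = 24 + 26 from rfl, Nat.shiftRight_add, Nat.shiftRight_add, h0]
  have h3 : r >>> 63 = p >>> 63 := by
    rw [show 63 = 24 + 39 from rfl, Nat.shiftRight_add, Nat.shiftRight_add, h0]
  have h1' : Nat.shiftRight r 37 = Nat.shiftRight p 37 := h1
  have h2' : Nat.shiftRight r 50 = Nat.shiftRight p 50 := h2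
  have h3' : Nat.shiftRight r 63 = Nat.shiftRight p 63 := h3
  refine ⟨?_, ?_, ?_, ?_, ?_⟩
  · unfold fSu; rw [h]
  · unfold fSw; rw [h1']
  · unfold fEu; rw [h2']
  · unfold fEw; rw [h3']
  · unfold fEnd; rw [h2']

theorem refOK_sound {mv : Mv} {a0 a1 p r : ℕ} (h : mv.refOK a0 a1 p r = true) {X Y : ℝ}
    (hX : 0 ≤ X) (h0 : (a0 : ℝ) * X ≤ 1073741824 * Y) (h1 : 1073741824 * Y ≤ (a1 : ℝ) * X) :
    (mv.Su r : ℝ) * X + mv.Sw r * Y ≤ mv.Su p * X + mv.Sw p * Y ∧
      (fEnd p = true → fEnd r = true) ∧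
      (fEnd r = false → (mv.Eu p : ℝ) * X + mv.Ew p * Y ≤ mv.Eu r * X + mv.Ew r * Y) := by
  rw [Mv.refOK, cd_eq] at h
  by_cases hb : Nat.beq (Nat.shiftRight r 24) (Nat.shiftRight p 24) = true
  · obtain ⟨e1, e2, e3, e4, e5⟩ := fields_of_shift (Nat.eq_of_beq_eq_true hb)
    have f1 : mv.Su r = mv.Su p := by unfold Mv.Su; rw [e1, e2]
    have f2 : mv.Sw r = mv.Sw p := by unfold Mv.Sw; rw [e1, e2]
    have f3 : mv.Eu r = mv.Eu p := by unfold Mv.Eu; rw [e3, e4]
    have f4 : mv.Ew r = mv.Ew p := by unfold Mv.Ew; rw [e3, e4]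
    rw [f1, f2, f3, f4, e5]
    exact ⟨le_refl _, id, fun _ => le_refl _⟩
  · rw [if_neg hb] at h
    obtain ⟨h2, h3⟩ := an_true.mp h
    obtain ⟨h3, h4⟩ := an_true.mp h3
    obtain ⟨h5, h6⟩ := an_true.mp h3
    obtain ⟨h7, h8⟩ := an_true.mp h4
    refine ⟨line_le hX h0 h1 (lineGe_sound h5) (lineGe_sound h7), fun hp => ?_, fun hr => ?_⟩
    · rw [cd_eq, if_pos hp] at h2
      exact h2
    · rw [cd_eq, if_neg (by rw [hr]; exact Bool.false_ne_true)] at h6 h8
      exact line_le hX h0 h1 (lineGe_sound h6) (lineGe_sound h8)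

/-- The move `(i, j)` with the left representation. -/
theorem mvOK_left {tab : ℕ → CtxRow} {N : ℕ} {mu : ℝ} {ct : ℕ → CtxD} {pl ph : ℕ} {V : View}
    (H : Hyp tab N mu ct pl ph V) (D : ℕ → ℕ → ℕ) {u w : List (Fin 3)} {K i j rr k0 k1 : ℕ}
    (hi : i < 4) (hj : j < 4) (h0 : gk k0 * V.A u ≤ V.A w) (h1 : V.A w ≤ gk k1 * V.A u)
    (hok : (mkMv ct D pl ph (V.ctx u) (V.ctx w) K i j false).ok = true)
    (hks : 2048 ≤ k0 + (mkMv ct D pl ph (V.ctx u) (V.ctx w) K i j false).ks) :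
    MvOK V u w rr k0 k1 (mkMv ct D pl ph (V.ctx u) (V.ctx w) K i j false) (V.A (cw i u))
      (V.A (cw j w)) (fun r t => InM (fun c => (tab c).mir) V u w i j false
        (mkMv ct D pl ph (V.ctx u) (V.ctx w) K i j false).sw r t) := by
  have hmv : (mkMv ct D pl ph (V.ctx u) (V.ctx w) K i j false).rep = false := rfl
  have hex : ∀ r, (mkMv ct D pl ph (V.ctx u) (V.ctx w) K i j false).exact r = true →
      2 ≤ i ∧ 2 ≤ j ∧ fEnd r = true := fun r h => by
    obtain ⟨a1, a2, a3, -⟩ := fin_left h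
    exact ⟨a1, a2, a3 rfl⟩
  have hsa := H.ct.sdL u i hi
  have hsb := H.ct.sdL w j hj
  have hba := H.ct.bd (V.ctx u) (H.ok.lt u) i hi false
  have hbb := H.ct.bd (V.ctx w) (H.ok.lt w) j hj false
  obtain ⟨a0, ns, fin, ks, ke, hM, ha0, hns, -, hks', hke'⟩ :=
    mkMv_left ct D pl ph (V.ctx u) (V.ctx w) K i j
  generalize mkMv ct D pl ph (V.ctx u) (V.ctx w) K i j false = mv at *
  subst hM
  obtain ⟨r1, r2⟩ := ratio_left H.ok H.pow hsa hsb hba.upos D _ _ ha0 hks' hke' hok hks h0 h1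
  refine ⟨H.ok.A_pos _, fun kk hkk => ?_, r2, fun p r b0 b1 t prev href hb0 hb1 hlo hhi hst hch => ?_⟩
  · exact le_trans (mul_le_mul_of_nonneg_right (gk_mono' (by
      have : kk + 2048 ≤ k0 + ks := hkk
      omega)) (H.ok.A_pos _).le) r1
  · obtain ⟨q1, q2, q3⟩ := refOK_sound href (H.ok.A_pos (cw i u)).le hb0 hb1
    have hSp := hst _ _ hch (startV_left (H.ok.A_pos u) (H.ok.A_pos w) hsa hsb hba hbb D pl ph
      ((ct (V.ctx u)).nx.get i) ((ct (V.ctx w)).nx.get j) a0 ns fin ks ke rr p)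
    have hends : (mkMv' D pl ph ((ct (V.ctx u)).sd.get (sidx i false))
        ((ct (V.ctx w)).sd.get (sidx j false)) ((ct (V.ctx u)).nx.get i) ((ct (V.ctx w)).nx.get j)
        false a0 ns fin ks ke).ends rr p = _ := rfl
    generalize hmd : mkMv' D pl ph ((ct (V.ctx u)).sd.get (sidx i false))
        ((ct (V.ctx w)).sd.get (sidx j false)) ((ct (V.ctx u)).nx.get i) ((ct (V.ctx w)).nx.get j)
        false a0 ns fin ks ke = md at *
    have hSr : (V.T.hl (cw i u) - V.T.hl u) + (V.T.hl (cw j w) - V.T.hl w) +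
        ((md.Su r : ℝ) / 4096 * V.A (cw i u) + (md.Sw r : ℝ) / 4096 * V.A (cw j w)) ≤
        t - V.T.hl u - V.T.hl w := by
      refine le_trans ?_ hSp
      have : ((md.Su r : ℝ) * V.A (cw i u) + md.Sw r * V.A (cw j w)) / 4096 ≤
        ((md.Su p : ℝ) * V.A (cw i u) + md.Sw p * V.A (cw j w)) / 4096 := by linarith
      linarith
    cases hEr : fEnd r with
    | true =>
      rcases le_or_gt (t - V.T.hl u - V.T.hl w)
        ((V.T.hr (cw i u) - V.T.hl u) + (V.T.hr (cw j w) - V.T.hl w)) with hte | hte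
      · left
        have := inM_left (fun c => (tab c).mir) H.ok.A_pos (i := i) (j := j) hmv hlo hhi hSr
          (Or.inl ⟨hEr, by linarith⟩)
        rw [hmv] at this
        exact this
      · right
        have hL := endV_left_end (H.ok.A_pos u) (H.ok.A_pos w) hsa hsb hba hbb D pl ph
          ((ct (V.ctx u)).nx.get i) ((ct (V.ctx w)).nx.get j) a0 ns fin ks ke rr r hEr
        rw [hmd] at hL
        have e1 : md.endV rr r = comb rr md.eeu md.eew := by
          rw [Mv.endV, cd_eq, cd_eq, if_neg (by rw [hmv]; exact Bool.false_ne_true), if_pos hEr]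
        refine ⟨⟨md.endV rr r, ?_, _, hL, hte⟩, fun hexp => ?_⟩
        · rw [Mv.ends, cd_eq, if_neg (by rw [hmv]; exact Bool.false_ne_true), cd_eq]
          by_cases hEp : fEnd p = true
          · rw [if_pos hEp]
            have e2 : md.endV rr p = comb rr md.eeu md.eew := by
              rw [Mv.endV, cd_eq, cd_eq, if_neg (by rw [hmv]; exact Bool.false_ne_true),
                if_pos hEp]
            rw [e1, e2]
            exact List.mem_cons_self
          · rw [if_neg hEp, e1]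
            exact List.mem_cons_of_mem _ List.mem_cons_self
        · obtain ⟨a1, a2, -⟩ := hex p hexp
          rw [hr_cw a1, hr_cw a2] at hte
          linarith
    | false =>
      have hEp : fEnd p = false := by
        cases hp : fEnd p with
        | false => rfl
        | true => rw [q2 hp] at hEr; exact absurd hEr (by simp)
      have hEE := q3 hEr
      rcases le_or_gt (t - V.T.hl u - V.T.hl w)
        ((V.T.hl (cw i u) - V.T.hl u) + (V.T.hl (cw j w) - V.T.hl w) +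
        ((md.Eu r : ℝ) / 4096 * V.A (cw i u) + (md.Ew r : ℝ) / 4096 * V.A (cw j w))) with hte | hte
      · left
        have := inM_left (fun c => (tab c).mir) H.ok.A_pos (i := i) (j := j) hmv hlo hhi hSr
          (Or.inr ⟨hEr, hte⟩)
        rw [hmv] at this
        exact this
      · right
        have hL := endV_left (H.ok.A_pos u) (H.ok.A_pos w) hsa hsb hba hbb D pl ph
          ((ct (V.ctx u)).nx.get i) ((ct (V.ctx w)).nx.get j) a0 ns fin ks ke rr p hEp
        rw [hmd] at hL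
        refine ⟨⟨md.endV rr p, ?_, _, hL, lt_of_le_of_lt ?_ hte⟩, fun hexp => ?_⟩
        · rw [Mv.ends, cd_eq, if_neg (by rw [hmv]; exact Bool.false_ne_true), cd_eq,
            if_neg (by rw [hEp]; exact Bool.false_ne_true)]
          exact List.mem_cons_self
        · have : ((md.Eu p : ℝ) * V.A (cw i u) + md.Ew p * V.A (cw j w)) / 4096 ≤
            ((md.Eu r : ℝ) * V.A (cw i u) + md.Ew r * V.A (cw j w)) / 4096 := by linarith
          linarith
        · obtain ⟨-, -, a3⟩ := hex p hexp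
          rw [hEp] at a3
          exact absurd a3 Bool.false_ne_true

/-- The move `(i, j)` with the right representation. -/
theorem mvOK_right {tab : ℕ → CtxRow} {N : ℕ} {mu : ℝ} {ct : ℕ → CtxD} {pl ph : ℕ} {V : View}
    (H : Hyp tab N mu ct pl ph V) (D : ℕ → ℕ → ℕ) {u w : List (Fin 3)} {K i j rr k0 k1 : ℕ}
    (hi : i < 4) (hj : j < 4) (h0 : gk k0 * V.A u ≤ V.A w) (h1 : V.A w ≤ gk k1 * V.A u)
    (hok : (mkMv ct D pl ph (V.ctx u) (V.ctx w) K i j true).ok = true)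
    (hks : 2048 ≤ k0 + (mkMv ct D pl ph (V.ctx u) (V.ctx w) K i j true).ks) :
    MvOK V u w rr k0 k1 (mkMv ct D pl ph (V.ctx u) (V.ctx w) K i j true) (V.B (cw i u))
      (V.B (cw j w)) (fun r t => InM (fun c => (tab c).mir) V u w i j true
        (mkMv ct D pl ph (V.ctx u) (V.ctx w) K i j true).sw r t) := by
  have hmv : (mkMv ct D pl ph (V.ctx u) (V.ctx w) K i j true).rep = true := rfl
  have hex : ∀ r, (mkMv ct D pl ph (V.ctx u) (V.ctx w) K i j true).exact r = true →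
      2 ≤ i ∧ 2 ≤ j ∧ (mkMv ct D pl ph (V.ctx u) (V.ctx w) K i j true).Su r = 0 ∧
        (mkMv ct D pl ph (V.ctx u) (V.ctx w) K i j true).Sw r = 0 := fun r h => by
    obtain ⟨a1, a2, -, a3⟩ := fin_left h
    obtain ⟨a4, a5⟩ := a3 rfl
    refine ⟨a1, a2, ?_, ?_⟩
    · rw [Mv.Su, cd_eq, a4, a5, ite_self]
    · rw [Mv.Sw, cd_eq, a4, a5, ite_self]
  have hsa := H.ct.sdR u i hi
  have hsb := H.ct.sdR w j hj
  have hba := H.ct.bd (V.ctx u) (H.ok.lt u) i hi true
  have hbb := H.ct.bd (V.ctx w) (H.ok.lt w) j hj true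
  obtain ⟨ns, fin, ks, ke, hM, hns, -, hks', hke'⟩ :=
    mkMv_right ct D pl ph (V.ctx u) (V.ctx w) K i j
  generalize mkMv ct D pl ph (V.ctx u) (V.ctx w) K i j true = mv at *
  subst hM
  obtain ⟨r1, r2⟩ := ratio_right H.ok H.pow hsa hsb hba.upos D _ _ hks' hke' hok hks h0 h1
  refine ⟨H.ok.B_pos _, fun kk hkk => ?_, r2, fun p r b0 b1 t prev href hb0 hb1 hlo hhi hst hch => ?_⟩
  · exact le_trans (mul_le_mul_of_nonneg_right (gk_mono' (by
      have : kk + 2048 ≤ k0 + ks := hkk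
      omega)) (H.ok.B_pos _).le) r1
  · obtain ⟨q1, q2, q3⟩ := refOK_sound href (H.ok.B_pos (cw i u)).le hb0 hb1
    have hB1 := H.ok.B_pos (cw i u)
    have hB2 := H.ok.B_pos (cw j w)
    have hse := startV_right_end (H.ok.A_pos u) (H.ok.A_pos w) hsa hsb hba hbb D pl ph
      (ct ((ct (V.ctx u)).nx.get i)).mir (ct ((ct (V.ctx w)).nx.get j)).mir false ns fin ks ke
      rr rEnd fEnd_rEnd
    have hsp := fun hEp => startV_right (H.ok.A_pos u) (H.ok.A_pos w) hsa hsb hba hbb D pl ph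
      (ct ((ct (V.ctx u)).nx.get i)).mir (ct ((ct (V.ctx w)).nx.get j)).mir false ns fin ks ke
      rr p hEp
    have hen := endV_right (H.ok.A_pos u) (H.ok.A_pos w) hsa hsb hba hbb D pl ph
      (ct ((ct (V.ctx u)).nx.get i)).mir (ct ((ct (V.ctx w)).nx.get j)).mir false ns fin ks ke rr p
    generalize hmd : mkMv' D pl ph ((ct (V.ctx u)).sd.get (sidx i true))
      ((ct (V.ctx w)).sd.get (sidx j true)) (ct ((ct (V.ctx u)).nx.get i)).mir
      (ct ((ct (V.ctx w)).nx.get j)).mir true false ns fin ks ke = md at *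
    have e0 : md.startV rr rEnd = comb rr md.seu md.sew := by
      rw [Mv.startV, cd_eq, cd_eq, if_pos hmv, if_pos fEnd_rEnd]
    rw [e0] at hse
    rw [Mv.chain, cd_eq, if_pos hmv, cd_eq] at hch
    obtain ⟨hch1, hch2⟩ := an_true.mp hch
    have hleft := hst _ _ hch1 hse
    have he : (fEnd r = true ∧ V.T.hl (cw i u) + V.T.hl (cw j w) ≤ t) ∨ (fEnd r = false ∧
        (V.T.hr (cw i u) - V.T.hl u) + (V.T.hr (cw j w) - V.T.hl w) -
        ((md.Eu r : ℝ) / 4096 * V.B (cw i u) + (md.Ew r : ℝ) / 4096 * V.B (cw j w)) ≤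
          t - V.T.hl u - V.T.hl w) := by
      cases hEr : fEnd r with
      | true => exact Or.inl ⟨rfl, by linarith⟩
      | false =>
        right
        refine ⟨rfl, ?_⟩
        have hEp : fEnd p = false := by
          cases hp : fEnd p with
          | false => rfl
          | true => rw [q2 hp] at hEr; exact absurd hEr (by simp)
        have hEE := q3 hEr
        rw [if_neg (by rw [hEp]; exact Bool.false_ne_true)] at hch2
        have h3 := hst _ _ hch2 (hsp hEp)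
        have : ((md.Eu p : ℝ) * V.B (cw i u) + md.Ew p * V.B (cw j w)) / 4096 ≤
            ((md.Eu r : ℝ) * V.B (cw i u) + md.Ew r * V.B (cw j w)) / 4096 := by linarith
        linarith
    rcases le_or_gt (t - V.T.hl u - V.T.hl w)
      ((V.T.hr (cw i u) - V.T.hl u) + (V.T.hr (cw j w) - V.T.hl w) -
      ((md.Su r : ℝ) / 4096 * V.B (cw i u) + (md.Sw r : ℝ) / 4096 * V.B (cw j w))) with hte | hte
    · left
      have := inM_right (fun c => (tab c).mir) H.ok.B_pos (i := i) (j := j) hmv hlo hhi hte he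
      rw [hmv] at this
      exact this
    · right
      have h5 : ((md.Su r : ℝ) * V.B (cw i u) + md.Sw r * V.B (cw j w)) / 4096 ≤
        ((md.Su p : ℝ) * V.B (cw i u) + md.Sw p * V.B (cw j w)) / 4096 := by linarith
      refine ⟨⟨md.endV rr p, ?_, _, hen, lt_of_le_of_lt ?_ hte⟩, fun hexp => ?_⟩
      · rw [Mv.ends, cd_eq, if_pos hmv]
        exact List.mem_cons_self
      · linarith
      · obtain ⟨a1, a2, a3, a4⟩ := hex p hexp
        rw [hr_cw a1, hr_cw a2] at hte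
        rw [a3, a4] at h5
        push_cast at h5
        linarith

theorem fSu_le (r : ℕ) : fSu r ≤ 8191 := Nat.and_le_right

theorem fSw_le (r : ℕ) : fSw r ≤ 8191 := Nat.and_le_right

theorem fEu_le (r : ℕ) : fEu r ≤ 8191 := Nat.and_le_right

theorem fEw_le (r : ℕ) : fEw r ≤ 8191 := Nat.and_le_right

/-- FC-6. -/
theorem claim_sound {tab : ℕ → CtxRow} {N : ℕ} {mu : ℝ} {ct : ℕ → CtxD} {pl ph : ℕ} {V : View}
    (H : Hyp tab N mu ct pl ph V) (D : ℕ → ℕ → ℕ) {u w : List (Fin 3)} {K r strm : ℕ} {lu lw : ℕ}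
    {k : ℕ → Bool}
    (h : claim (mt (mkMv ct D pl ph (V.ctx u) (V.ctx w) K)) pl ph lu lw r strm k = true) {t : ℝ}
    (ht : InC V r u w t) :
    ∃ (i j : ℕ) (rep : Bool) (idx : ℕ), i < 4 ∧ j < 4 ∧ i + j < 6 ∧
      0 < fkl (recOf (mkMv ct D pl ph (V.ctx u) (V.ctx w) K i j rep).cl idx) ∧
      InM (fun c => (tab c).mir) V u w i j rep (mkMv ct D pl ph (V.ctx u) (V.ctx w) K i j rep).sw
        (recOf (mkMv ct D pl ph (V.ctx u) (V.ctx w) K i j rep).cl idx) t := by
  obtain ⟨h0, h1, h2, h3⟩ := ht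
  obtain ⟨hA, hB⟩ := an_true.mp h
  obtain ⟨hA1, -⟩ := an_true.mp hA
  have hk : fk0 r + fkl r ≤ 3440 := Nat.ble_eq.mp hA1
  have h01 : fk0 r ≤ fk0 r + fkl r := Nat.le_add_right _ _
  rw [Nat.add_eq] at hB
  have hcmp : ∀ {e s : ℕ} {y z : ℝ}, Up V u w (rrOf pl ph (fk0 r) (fk0 r + fkl r)) s z →
      Low V u w (rrOf pl ph (fk0 r) (fk0 r + fkl r)) e y → geV e s = true → z ≤ y :=
    fun hs he hge => Up.le_low H.ok H.pow h01 hk h0 h1 hs he hge
  have hM : ∀ m, m < 32 → ∃ X Y : ℝ,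
      ((mt (mkMv ct D pl ph (V.ctx u) (V.ctx w) K)).get m).ok = true →
      2048 ≤ fk0 r + ((mt (mkMv ct D pl ph (V.ctx u) (V.ctx w) K)).get m).ks →
      MvOK V u w (rrOf pl ph (fk0 r) (fk0 r + fkl r)) (fk0 r) (fk0 r + fkl r)
        ((mt (mkMv ct D pl ph (V.ctx u) (V.ctx w) K)).get m) X Y
        (fun r t => InM (fun c => (tab c).mir) V u w (m / 8) (m / 2 % 4) (decide (m % 2 = 1))
          (mkMv ct D pl ph (V.ctx u) (V.ctx w) K (m / 8) (m / 2 % 4) (decide (m % 2 = 1))).sw r t) := by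
    intro m hm
    rw [mt_get _ m hm]
    have hi : m / 8 < 4 := by omega
    have hj : m / 2 % 4 < 4 := by omega
    generalize m / 8 = i at hi ⊢
    generalize m / 2 % 4 = j at hj ⊢
    cases decide (m % 2 = 1) with
    | false => exact ⟨_, _, fun hok hks => mvOK_left H D hi hj h0 h1 hok hks⟩
    | true => exact ⟨_, _, fun hok hks => mvOK_right H D hi hj h0 h1 hok hks⟩
  have hres := pieces_sound (t := t) H.pow.lo H.pow.hi hcmp hM (fun hf => ?_) (fun hf => ?_) hB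
    ⟨_, List.mem_cons_self, _, selfV_low V u w _ (fSu r) (fSw r) (fSu_le r) (fSw_le r), h2⟩
  · obtain ⟨m, hm, hok, idx, hpos, hP⟩ := hres
    rw [mt_get _ m hm] at hok hpos hP
    refine ⟨m / 8, m / 2 % 4, decide (m % 2 = 1), idx, by omega, by omega, ?_, hpos, hP⟩
    have := Nat.ble_eq.mp (mkMv'_ok hok)
    simp only [Nat.add_eq] at this
    omega
  · rcases h3 with ⟨-, h3⟩ | ⟨h3, -⟩
    · exact h3
    · rw [h3] at hf
      exact absurd hf Bool.false_ne_true
  · refine ⟨_, selfV_up V u w _ (fEu r) (fEw r) (fEu_le r) (fEw_le r), ?_⟩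
    rcases h3 with ⟨h3, -⟩ | ⟨-, h3⟩
    · rw [h3] at hf
      exact absurd hf.symm Bool.false_ne_true
    · exact h3

/-- The interval of a checked claim lies in the hull of the pair. -/
theorem claim_hull {tab : ℕ → CtxRow} {N : ℕ} {mu : ℝ} {ct : ℕ → CtxD} {pl ph : ℕ} {V : View}
    (H : Hyp tab N mu ct pl ph V) (M : Tr Mv) {u w : List (Fin 3)} {r strm : ℕ}
    {k : ℕ → Bool} (h : claim M pl ph ((ct (V.ctx u)).sd.get 3).ee.u
      ((ct (V.ctx w)).sd.get 3).ee.w r strm k = true) {t : ℝ}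
    (ht : InC V r u w t) : V.T.hl u + V.T.hl w ≤ t ∧ t ≤ V.T.hr u + V.T.hr w := by
  obtain ⟨h0, h1, h2, h3⟩ := ht
  obtain ⟨hA, -⟩ := an_true.mp h
  obtain ⟨hA1, hA2⟩ := an_true.mp hA
  have hk : fk0 r + fkl r ≤ 3440 := Nat.ble_eq.mp hA1
  have h01 : fk0 r ≤ fk0 r + fkl r := Nat.le_add_right _ _
  have hAu := H.ok.A_pos u
  have hAw := H.ok.A_pos w
  constructor
  · have : 0 ≤ (fSu r : ℝ) / 4096 * V.A u + (fSw r : ℝ) / 4096 * V.A w := by positivity
    linarith
  · rcases h3 with ⟨-, h3⟩ | ⟨h4, h3⟩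
    · exact h3
    · rw [cd_eq, if_neg (by rw [h4]; exact Bool.false_ne_true), Nat.add_eq] at hA2
      have hlow : Low V u w (rrOf pl ph (fk0 r) (fk0 r + fkl r))
          (comb (rrOf pl ph (fk0 r) (fk0 r + fkl r)) ((ct (V.ctx u)).sd.get 3).ee.u
            ((ct (V.ctx w)).sd.get 3).ee.w)
          ((V.T.hr u - V.T.hl u) + (V.T.hr w - V.T.hl w)) := by
        refine ⟨_, _, (H.ct.bd (V.ctx u) (H.ok.lt u) 3 (by norm_num) false).ee,
          (H.ct.bd (V.ctx w) (H.ok.lt w) 3 (by norm_num) false).ee, rfl, ?_⟩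
        have e1 := (H.ct.sdL u 3 (by norm_num)).stopE
        have e2 := (H.ct.sdL w 3 (by norm_num)).stopE
        simp only [cw] at e1 e2
        rw [mul_add]
        exact add_le_add e1 e2
      have := Up.le_low H.ok H.pow h01 hk h0 h1
        (selfV_up V u w _ (fEu r) (fEw r) (fEu_le r) (fEw_le r)) hlow hA2
      linarith

end Pool.Agent.H68.FibC
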